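import Pool.Agent.H99.PC.Defs

/-!
[H99 PC RNK] Rankin's trick / Euler product.
PROOF. F m = m^(-1+a) is completely multiplicative on positive integers (Real.mul_rpow), F 0 = 0 as -1+a <> 0.
rnk: sum over T <= sum over all m whose prime factors are in s = prod_{p in s} (1 - p^(-1+a))^(-1)
(Mathlib: EulerProduct.summable_and_hasSum_factoredNumbers_prod_filter_prime_geometric, with s and F as a
MonoidWithZeroHom; or by induction on s), and (1 - t)^(-1) <= exp(2t) for 0 <= t <= 0.6; here t = p^(-1+a) <=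
2^(-3/4) < 0.6 (p >= 2, a <= 1/4).
(For (1-t) exp(2t) >= 1: 1 - t >= exp(-2t) on [0, 0.6] by convexity of exp(-2t) and exp(-1.2) <= 0.4; or with
exp(2t) >= 1 + 2t + 2t^2: (1-t)(1+2t+2t^2) = 1 + t - 2 t^3 >= 1 for 2 t^2 <= 1, i.e. t <= 0.7.)
E_le: apply rnk with T = f.divisors, s = f.primeFactors.
-/

namespace Pool.Agent.H99.PC

open Finset

private theorem inv_le_exp (t : ℝ) (h0 : 0 ≤ t) (h1 : t ^ 2 ≤ 1 / 2) :
    (1 - t)⁻¹ ≤ Real.exp (2 * t) := by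
  have h2 : t < 1 := by nlinarith
  rw [inv_le_iff_one_le_mul₀ (by linarith)]
  have h3 := Real.quadratic_le_exp_of_nonneg (show 0 ≤ 2 * t by linarith)
  have h4 : (1 + 2 * t + (2 * t) ^ 2 / 2) * (1 - t) ≤ Real.exp (2 * t) * (1 - t) :=
    mul_le_mul_of_nonneg_right h3 (by linarith)
  have h5 : 0 ≤ t * (1 - 2 * t ^ 2) := mul_nonneg h0 (by linarith)
  nlinarith

private theorem pow_sq_le (p : ℕ) (hp : p.Prime) (a : ℝ) (ha : a ≤ 1 / 4) :
    ((p : ℝ) ^ (-1 + a)) ^ 2 ≤ 1 / 2 := by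
  have hp2 : (2 : ℝ) ≤ p := by exact_mod_cast hp.two_le
  have h1 : ((p : ℝ) ^ (-1 + a)) ^ 2 = (p : ℝ) ^ ((-1 + a) * 2) := by
    rw [Real.rpow_mul (by positivity)]
    norm_num
  rw [h1]
  calc (p : ℝ) ^ ((-1 + a) * 2) ≤ (p : ℝ) ^ (-1 : ℝ) :=
        Real.rpow_le_rpow_of_exponent_le (by linarith) (by linarith)
    _ = 1 / p := by rw [Real.rpow_neg_one, one_div]
    _ ≤ 1 / 2 := one_div_le_one_div_of_le (by norm_num) hp2

theorem rnk (s T : Finset ℕ) (hs : ∀ p ∈ s, p.Prime)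
    (hT : ∀ m ∈ T, m ≠ 0 ∧ ∀ p : ℕ, p.Prime → p ∣ m → p ∈ s) (a : ℝ) (ha : a ≤ 1 / 4) :
    ∑ m ∈ T, (m : ℝ) ^ (-1 + a) ≤ Real.exp (2 * ∑ p ∈ s, (p : ℝ) ^ (-1 + a)) := by
  classical
  let f : ℕ →* ℝ :=
    { toFun := fun n => (n : ℝ) ^ (-1 + a)
      map_one' := by simp
      map_mul' := fun m n => by
        push_cast
        exact Real.mul_rpow (Nat.cast_nonneg m) (Nat.cast_nonneg n) }
  have hf : ∀ n, f n = (n : ℝ) ^ (-1 + a) := fun n => rfl
  have h1 : ∀ {p : ℕ}, p.Prime → ‖f p‖ < 1 := by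
    intro p hp
    have h2 := pow_sq_le p hp a ha
    have h3 : 0 ≤ (p : ℝ) ^ (-1 + a) := by positivity
    rw [hf, Real.norm_of_nonneg h3]
    nlinarith
  obtain ⟨_, h2⟩ := EulerProduct.summable_and_hasSum_factoredNumbers_prod_filter_prime_geometric
    (f := f) h1 s
  have h3 : ∑ m ∈ T, (m : ℝ) ^ (-1 + a) ≤ ∏ p ∈ s with p.Prime, (1 - f p)⁻¹ := by
    have hmem : ∀ m ∈ T, m ∈ Nat.factoredNumbers s := fun m hm =>
      Nat.mem_factoredNumbers'.mpr (hT m hm).2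
    have h4 := Finset.sum_subtype_of_mem (fun m : ℕ => (m : ℝ) ^ (-1 + a))
      (p := fun m => m ∈ Nat.factoredNumbers s) hmem
    rw [← h4]
    exact sum_le_hasSum _ (fun m _ => by positivity) h2
  refine h3.trans ?_
  rw [Finset.mul_sum, Real.exp_sum, Finset.filter_true_of_mem hs]
  apply Finset.prod_le_prod
  · intro p hp
    have h5 := h1 (hs p hp)
    rw [inv_nonneg]
    have := abs_lt.mp (show |f p| < 1 from h5)
    linarith
  · intro p hp
    rw [hf]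
    exact inv_le_exp _ (by positivity) (pow_sq_le p (hs p hp) a ha)

theorem E_le (f : ℕ) (hf : 0 < f) (a : ℝ) (ha : a ≤ 1 / 4) :
    E a f ≤ Real.exp (2 * ∑ q ∈ f.primeFactors, (q : ℝ) ^ (-1 + a)) := by
  unfold E
  apply rnk _ _ (fun p hp => Nat.prime_of_mem_primeFactors hp) _ a ha
  intro m hm
  rw [Nat.mem_divisors] at hm
  refine ⟨fun h => ?_, fun p hp hpm => ?_⟩
  · rw [h] at hm
    exact hm.2 (Nat.eq_zero_of_zero_dvd hm.1)
  · exact Nat.mem_primeFactors.mpr ⟨hp, hpm.trans hm.1, hm.2⟩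

end Pool.Agent.H99.PC
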