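import Mathlib

/-!
[H99 PC CD] integers in an interval with pairwise differences divisible by m.
PROOF. card_diff: the map u -> (u - a - 1) / m is injective on S (if u < v are in S with the same value then v - u < m,
but m | v - u > 0) and maps S into range (M / m + 1) (u - a - 1 <= M - 1).
(Also fine: Nat.count / Nat.Ioc_filter_modEq_card.)
card_cls: the two sets with j | N - 1 and with j | N + 1. In each the differences are divisible by k and by j, so by
lcm(k,j) = k j / gcd(k,j) >= k j / 2; number <= P / lcm + 1 <= 2P/(k j) + 1 <= 3P/(k j) because k j <= P. Sum of two.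
(N >= 1 on Ioc P (2P).)
-/

namespace Pool.Agent.H99.PC

open Finset Classical

theorem card_diff (a M m : ℕ) (hm : 0 < m) (S : Finset ℕ) (hS : S ⊆ Ioc a (a + M))
    (hd : ∀ u ∈ S, ∀ v ∈ S, u ≤ v → m ∣ v - u) : S.card ≤ M / m + 1 := by
  rw [← card_range (M / m + 1)]
  refine card_le_card_of_injOn (fun u => (u - a - 1) / m) ?_ ?_
  · intro u hu
    have h1 := mem_Ioc.1 (hS hu)
    simp only [coe_range, Set.mem_Iio]
    exact Nat.lt_succ_of_le (Nat.div_le_div_right (by omega))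
  · have key : ∀ u ∈ S, ∀ v ∈ S, u ≤ v → (u - a - 1) / m = (v - a - 1) / m → u = v := by
      intro u hu v hv huv h
      have h1 := mem_Ioc.1 (hS hu)
      have h2 := mem_Ioc.1 (hS hv)
      by_contra hne
      have h3 : 0 < v - u := by omega
      have h4 := Nat.le_of_dvd h3 (hd u hu v hv huv)
      have h5 := Nat.div_add_mod (u - a - 1) m
      have h6 := Nat.div_add_mod (v - a - 1) m
      have h7 := Nat.mod_lt (u - a - 1) hm
      have h8 := Nat.mod_lt (v - a - 1) hm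
      rw [h] at h5
      omega
    intro u hu v hv h
    simp only [mem_coe] at hu hv
    rcases le_total u v with huv | huv
    · exact key u hu v hv huv h
    · exact (key v hv u hu huv h.symm).symm

theorem card_one (P k j : ℕ) (hk : 0 < k) (hj : 0 < j) (hg : Nat.gcd k j ∣ 2) (hkj : k * j ≤ P)
    (S : Finset ℕ) (hS : S ⊆ Ioc P (2 * P))
    (hd : ∀ u ∈ S, ∀ v ∈ S, u ≤ v → k ∣ v - u ∧ j ∣ v - u) :
    (S.card : ℝ) ≤ 3 * P / (k * j) := by
  have hl : 0 < Nat.lcm k j := Nat.lcm_pos hk hj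
  have h1 : S.card ≤ P / Nat.lcm k j + 1 := by
    refine card_diff P P (Nat.lcm k j) hl S (by rwa [two_mul] at hS) ?_
    intro u hu v hv huv
    exact Nat.lcm_dvd (hd u hu v hv huv).1 (hd u hu v hv huv).2
  have h2 : Nat.gcd k j ≤ 2 := Nat.le_of_dvd (by norm_num) hg
  have h3 := Nat.gcd_mul_lcm k j
  have h4 : k * j ≤ 2 * Nat.lcm k j := by
    rw [← h3]
    exact Nat.mul_le_mul_right _ h2
  have hkj0 : (0 : ℝ) < (k : ℝ) * j := by positivity
  have h5 : ((P / Nat.lcm k j : ℕ) : ℝ) ≤ (P : ℝ) / (Nat.lcm k j : ℝ) := Nat.cast_div_le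
  have h6 : ((k : ℝ) * j) / 2 ≤ (Nat.lcm k j : ℝ) := by
    have : ((k * j : ℕ) : ℝ) ≤ ((2 * Nat.lcm k j : ℕ) : ℝ) := by exact_mod_cast h4
    push_cast at this
    linarith
  have h7 : (P : ℝ) / (Nat.lcm k j : ℝ) ≤ (P : ℝ) / (((k : ℝ) * j) / 2) :=
    div_le_div_of_nonneg_left (by positivity) (by positivity) h6
  have h8 : (1 : ℝ) ≤ (P : ℝ) / (k * j) := by
    rw [le_div_iff₀ hkj0, one_mul]
    exact_mod_cast hkj
  have h9 : (P : ℝ) / (((k : ℝ) * j) / 2) = 2 * ((P : ℝ) / (k * j)) := by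
    field_simp
  have h10 : (3 : ℝ) * P / (k * j) = 3 * ((P : ℝ) / (k * j)) := by ring
  have h11 : (S.card : ℝ) ≤ ((P / Nat.lcm k j : ℕ) : ℝ) + 1 := by exact_mod_cast h1
  rw [h10]
  linarith

theorem card_cls (P k j : ℕ) (hk : 0 < k) (hj : 0 < j) (hg : Nat.gcd k j ∣ 2) (hkj : k * j ≤ P) :
    (((Ioc P (2 * P)).filter (fun N => k ∣ N - 1 ∧ (j ∣ N - 1 ∨ j ∣ N + 1))).card : ℝ) ≤
      6 * P / (k * j) := by
  set S1 : Finset ℕ := (Ioc P (2 * P)).filter (fun N => k ∣ N - 1 ∧ j ∣ N - 1) with hS1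
  set S2 : Finset ℕ := (Ioc P (2 * P)).filter (fun N => k ∣ N - 1 ∧ j ∣ N + 1) with hS2
  have hsub : (Ioc P (2 * P)).filter (fun N => k ∣ N - 1 ∧ (j ∣ N - 1 ∨ j ∣ N + 1)) ⊆
      S1 ∪ S2 := by
    intro N hN
    simp only [hS1, hS2, mem_union, mem_filter] at hN ⊢
    tauto
  have h1 : (S1.card : ℝ) ≤ 3 * P / (k * j) := by
    refine card_one P k j hk hj hg hkj S1 (filter_subset _ _) ?_
    intro u hu v hv huv
    simp only [hS1, mem_filter, mem_Ioc] at hu hv
    have e : v - u = (v - 1) - (u - 1) := by omega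
    rw [e]
    exact ⟨Nat.dvd_sub hv.2.1 hu.2.1, Nat.dvd_sub hv.2.2 hu.2.2⟩
  have h2 : (S2.card : ℝ) ≤ 3 * P / (k * j) := by
    refine card_one P k j hk hj hg hkj S2 (filter_subset _ _) ?_
    intro u hu v hv huv
    simp only [hS2, mem_filter, mem_Ioc] at hu hv
    have e : v - u = (v - 1) - (u - 1) := by omega
    have e2 : v - u = (v + 1) - (u + 1) := by omega
    refine ⟨?_, ?_⟩
    · rw [e]
      exact Nat.dvd_sub hv.2.1 hu.2.1
    · rw [e2]
      exact Nat.dvd_sub hv.2.2 hu.2.2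
  have h3 : (((Ioc P (2 * P)).filter (fun N => k ∣ N - 1 ∧ (j ∣ N - 1 ∨ j ∣ N + 1))).card : ℝ) ≤
      (S1.card : ℝ) + S2.card := by
    exact_mod_cast (card_le_card hsub).trans (card_union_le S1 S2)
  have h4 : (6 : ℝ) * P / (k * j) = 3 * P / (k * j) + 3 * P / (k * j) := by ring
  rw [h4]
  linarith

end Pool.Agent.H99.PC
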