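import Pool.Agent.H99.PC.Ko
import Pool.Agent.H99.PC.Rnk

/-!
[H99 PC FIA] the sum over the divisors d.
PROOF. Group the d in T by (f, g) = (kl d, zl d): f | n - 1, g | n + 1 for some Selfridge n <= X with d | n, so
1 <= f, g <= X + 1 and gcd(f,g) | 2 (sel_div). For fixed f, g the sum over the d in T with kl d = f, zl d = g of 1/d is
at most Z^(-a) sum d^(-1+a) (d > Z > 0, a >= 0: d^(-1) = d^(-1+a) d^(-a)), and all prime factors p of d satisfy
Pr f g p (sel_prime: p <> 2, 5; ko p | kl d, zr p | zl d by Finset.dvd_lcm) and p <= d <= n <= X; by rnk the sum is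
<= exp(2 S). Finally sum_{f,g <= X+1} 1/(fg) <= (1 + log(X+1))^2 (harmonic_le_one_add_log).
-/

namespace Pool.Agent.H99.PC

open Finset Classical

theorem sum_inv_le (N : ℕ) : ∑ k ∈ Ioc 0 N, 1 / (k : ℝ) ≤ 1 + Real.log N := by
  have h1 := harmonic_le_one_add_log N
  rw [harmonic_eq_sum_Icc] at h1
  push_cast at h1
  refine le_trans (le_of_eq ?_) h1
  refine Finset.sum_congr ?_ fun k _ => one_div _
  ext k
  simp [mem_Ioc, mem_Icc, Nat.succ_le_iff]

theorem sum_d (X : ℕ) (T : Finset ℕ) (Z a S : ℝ) (hZ : 0 < Z) (ha0 : 0 ≤ a) (ha : a ≤ 1 / 4)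
    (hT : ∀ d ∈ T, Z < (d : ℝ) ∧ ∃ n : ℕ, Sel n ∧ n ≤ X ∧ d ∣ n)
    (hS : ∀ f g : ℕ, 0 < f → 0 < g → f ≤ X + 1 → g ≤ X + 1 → Nat.gcd f g ∣ 2 →
      ∑ p ∈ (range (X + 1)).filter (fun p => Pr f g p), (p : ℝ) ^ (-1 + a) ≤ S) :
    ∑ d ∈ T, 1 / ((d : ℝ) * kl d * zl d) ≤
      (1 + Real.log (X + 1)) ^ 2 * Z ^ (-a) * Real.exp (2 * S) := by
  have hn : ∀ n : ℕ, Sel n → 2 ≤ n := by
    intro n hn
    obtain ⟨-, h5, -⟩ := hn
    omega
  have hmaps : ∀ d ∈ T, (kl d, zl d) ∈ Ioc 0 (X + 1) ×ˢ Ioc 0 (X + 1) := by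
    intro d hd
    obtain ⟨-, n, hs, hnX, hdn⟩ := hT d hd
    obtain ⟨h1, h2, h3, h4, -⟩ := sel_div n d hs hdn
    have h5 := hn n hs
    have h6 := Nat.le_of_dvd (by omega) h3
    have h7 := Nat.le_of_dvd (by omega) h4
    rw [mem_product, mem_Ioc, mem_Ioc]
    exact ⟨⟨h1, by omega⟩, ⟨h2, by omega⟩⟩
  rw [← Finset.sum_fiberwise_of_maps_to hmaps]
  have hC : 0 < Z ^ (-a) * Real.exp (2 * S) := by positivity
  have hfib : ∀ q ∈ Ioc 0 (X + 1) ×ˢ Ioc 0 (X + 1),
      ∑ d ∈ T.filter (fun d => (kl d, zl d) = q), 1 / ((d : ℝ) * kl d * zl d) ≤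
        1 / (q.1 : ℝ) * (1 / (q.2 : ℝ)) * (Z ^ (-a) * Real.exp (2 * S)) := by
    rintro ⟨f, g⟩ hq
    rw [mem_product, mem_Ioc, mem_Ioc] at hq
    obtain ⟨⟨hf0, hfX⟩, ⟨hg0, hgX⟩⟩ := hq
    simp only at hf0 hfX hg0 hgX
    have hf0' : (0 : ℝ) < f := by exact_mod_cast hf0
    have hg0' : (0 : ℝ) < g := by exact_mod_cast hg0
    rcases Finset.eq_empty_or_nonempty (T.filter (fun d => (kl d, zl d) = (f, g))) with h0 | h0
    · rw [h0, Finset.sum_empty]
      positivity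
    · obtain ⟨d0, hd0⟩ := h0
      rw [mem_filter, Prod.mk.injEq] at hd0
      have hgcd : Nat.gcd f g ∣ 2 := by
        obtain ⟨-, n, hs, hnX, hdn⟩ := hT d0 hd0.1
        obtain ⟨-, -, -, -, h5, -⟩ := sel_div n d0 hs hdn
        rwa [hd0.2.1, hd0.2.2] at h5
      have hsum : ∑ d ∈ T.filter (fun d => (kl d, zl d) = (f, g)), (d : ℝ) ^ (-1 + a) ≤
          Real.exp (2 * S) := by
        refine (rnk ((range (X + 1)).filter (fun p => Pr f g p)) _ ?_ ?_ a ha).trans ?_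
        · intro p hp
          rw [mem_filter] at hp
          exact hp.2.1
        · intro d hd
          rw [mem_filter, Prod.mk.injEq] at hd
          obtain ⟨hZd, n, hs, hnX, hdn⟩ := hT d hd.1
          have hn2 := hn n hs
          refine ⟨?_, ?_⟩
          · rintro rfl
            rw [Nat.cast_zero] at hZd
            linarith
          · intro p hp hpd
            obtain ⟨h1, h2, -, -⟩ := sel_prime n p hs hp (hpd.trans hdn)
            have hpn := Nat.le_of_dvd (by omega) (hpd.trans hdn)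
            have hd0' : d ≠ 0 := by
              rintro rfl
              rw [Nat.cast_zero] at hZd
              linarith
            have hmem : p ∈ d.primeFactors := Nat.mem_primeFactors.2 ⟨hp, hpd, hd0'⟩
            rw [mem_filter, mem_range]
            refine ⟨by omega, hp, h1, h2, ?_, ?_⟩
            · rw [← hd.2.1]
              exact Finset.dvd_lcm hmem
            · rw [← hd.2.2]
              exact Finset.dvd_lcm hmem
        · apply Real.exp_le_exp.2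
          apply mul_le_mul_of_nonneg_left _ (by norm_num)
          exact hS f g hf0 hg0 hfX hgX hgcd
      have hterm : ∀ d ∈ T.filter (fun d => (kl d, zl d) = (f, g)),
          1 / ((d : ℝ) * kl d * zl d) ≤
            1 / (f : ℝ) * (1 / (g : ℝ)) * Z ^ (-a) * (d : ℝ) ^ (-1 + a) := by
        intro d hd
        rw [mem_filter, Prod.mk.injEq] at hd
        rw [hd.2.1, hd.2.2]
        have hZd := (hT d hd.1).1
        have hd0' : (0 : ℝ) < d := hZ.trans hZd
        have h1 : (d : ℝ)⁻¹ ≤ Z ^ (-a) * (d : ℝ) ^ (-1 + a) := by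
          have h2 : (d : ℝ) ^ (-a) ≤ Z ^ (-a) :=
            Real.rpow_le_rpow_of_nonpos hZ hZd.le (by linarith)
          have h3 : (d : ℝ) ^ (-a) * (d : ℝ) ^ (-1 + a) = (d : ℝ)⁻¹ := by
            rw [← Real.rpow_add hd0', ← Real.rpow_neg_one]
            congr 1
            ring
          rw [← h3]
          exact mul_le_mul_of_nonneg_right h2 (by positivity)
        have h4 : 1 / ((d : ℝ) * f * g) = 1 / (f : ℝ) * (1 / (g : ℝ)) * (d : ℝ)⁻¹ := by
          field_simp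
        rw [h4, mul_assoc (1 / (f : ℝ) * (1 / (g : ℝ)))]
        exact mul_le_mul_of_nonneg_left h1 (by positivity)
      refine (Finset.sum_le_sum hterm).trans ?_
      rw [← Finset.mul_sum]
      have h5 : 1 / (f : ℝ) * (1 / (g : ℝ)) * (Z ^ (-a) * Real.exp (2 * S)) =
          1 / (f : ℝ) * (1 / (g : ℝ)) * Z ^ (-a) * Real.exp (2 * S) := by ring
      simp only
      rw [h5]
      exact mul_le_mul_of_nonneg_left hsum (by positivity)
  refine (Finset.sum_le_sum hfib).trans ?_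
  rw [← Finset.sum_mul, Finset.sum_product]
  have h6 : ∑ f ∈ Ioc 0 (X + 1), ∑ g ∈ Ioc 0 (X + 1), 1 / (f : ℝ) * (1 / (g : ℝ)) =
      (∑ f ∈ Ioc 0 (X + 1), 1 / (f : ℝ)) * ∑ g ∈ Ioc 0 (X + 1), 1 / (g : ℝ) := by
    rw [Finset.sum_mul_sum]
  simp only
  rw [h6]
  have h7 := sum_inv_le (X + 1)
  push_cast at h7
  have h8 : 0 ≤ ∑ k ∈ Ioc 0 (X + 1), 1 / (k : ℝ) :=
    Finset.sum_nonneg fun k _ => by positivity
  have h9 : (∑ f ∈ Ioc 0 (X + 1), 1 / (f : ℝ)) * ∑ g ∈ Ioc 0 (X + 1), 1 / (g : ℝ) ≤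
      (1 + Real.log (X + 1)) ^ 2 := by
    rw [sq]
    exact mul_le_mul h7 h7 h8 (h8.trans h7)
  rw [mul_assoc ((1 + Real.log (X + 1)) ^ 2)]
  exact mul_le_mul_of_nonneg_right h9 hC.le

end Pool.Agent.H99.PC
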