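import Pool.Agent.H99.PC.Ko
import Pool.Agent.H99.PC.Cd

/-!
[H99 PC CLS] Selfridge numbers divisible by d.
PROOF. If there is none the bound is trivial. Otherwise sel_div for one of them gives gcd(kl d, zl d) | 2, and d coprime
to kl d and zl d. For two such numbers u <= v: d | v - u; kl d | (v - 1) - (u - 1) = v - u; zl d | (v+1) - (u+1) = v - u.
So with l = lcm(kl d, zl d) (>= kl d * zl d / 2) and d coprime to l: d l | v - u. All of them lie in Ioc 0 X
(Sel n implies n > 0): card_diff with a = 0, M = X, m = d l: card <= X / (d l) + 1 <= 2X/(d kl zl) + 1.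
-/

namespace Pool.Agent.H99.PC

open Finset Classical

theorem class_count (X d : ℕ) (hd : 0 < d) :
    (((range (X + 1)).filter (fun n => Sel n ∧ d ∣ n)).card : ℝ) ≤
      1 + 2 * X / ((d : ℝ) * kl d * zl d) := by
  rcases Finset.eq_empty_or_nonempty ((range (X + 1)).filter (fun n => Sel n ∧ d ∣ n)) with
    h0 | ⟨n0, hn0⟩
  · rw [h0]
    simp only [card_empty, Nat.cast_zero]
    positivity
  · simp only [mem_filter, mem_range] at hn0
    obtain ⟨hk0, hz0, -, -, hg, hck, hcz⟩ := sel_div n0 d hn0.2.1 hn0.2.2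
    have hl : 0 < Nat.lcm (kl d) (zl d) := Nat.lcm_pos hk0 hz0
    have hcl : Nat.Coprime d (Nat.lcm (kl d) (zl d)) :=
      (Nat.Coprime.mul_right hck hcz).coprime_dvd_right (Nat.lcm_dvd_mul _ _)
    have h1 : ((range (X + 1)).filter (fun n => Sel n ∧ d ∣ n)).card ≤
        X / (d * Nat.lcm (kl d) (zl d)) + 1 := by
      refine card_diff 0 X _ (Nat.mul_pos hd hl) _ ?_ ?_
      · intro n hn
        simp only [mem_filter, mem_range, mem_Ioc] at hn ⊢
        have : 0 < n := by
          rcases Nat.eq_zero_or_pos n with h | h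
          · exfalso
            rw [h] at hn
            have := hn.2.1.1
            simp at this
          · exact h
        omega
      · intro u hu v hv huv
        simp only [mem_filter, mem_range] at hu hv
        obtain ⟨-, -, hu1, hu2, -⟩ := sel_div u d hu.2.1 hu.2.2
        obtain ⟨-, -, hv1, hv2, -⟩ := sel_div v d hv.2.1 hv.2.2
        have hu0 : 0 < u := by
          rcases Nat.eq_zero_or_pos u with h | h
          · exfalso
            rw [h] at hu
            have := hu.2.1.1
            simp at this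
          · exact h
        have e : v - u = (v - 1) - (u - 1) := by omega
        have e2 : v - u = (v + 1) - (u + 1) := by omega
        refine Nat.Coprime.mul_dvd_of_dvd_of_dvd hcl (Nat.dvd_sub hv.2.2 hu.2.2) ?_
        refine Nat.lcm_dvd ?_ ?_
        · rw [e]
          exact Nat.dvd_sub hv1 hu1
        · rw [e2]
          exact Nat.dvd_sub hv2 hu2
    have h2 : Nat.gcd (kl d) (zl d) ≤ 2 := Nat.le_of_dvd (by norm_num) hg
    have h3 := Nat.gcd_mul_lcm (kl d) (zl d)
    have h4 : kl d * zl d ≤ 2 * Nat.lcm (kl d) (zl d) := by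
      rw [← h3]
      exact Nat.mul_le_mul_right _ h2
    have hd0 : (0 : ℝ) < d := by exact_mod_cast hd
    have hkz : (0 : ℝ) < (kl d : ℝ) * zl d := by
      have h5 : (0 : ℝ) < kl d := by exact_mod_cast hk0
      have h6 : (0 : ℝ) < zl d := by exact_mod_cast hz0
      positivity
    have h5 : ((X / (d * Nat.lcm (kl d) (zl d)) : ℕ) : ℝ) ≤
        (X : ℝ) / ((d * Nat.lcm (kl d) (zl d) : ℕ) : ℝ) := Nat.cast_div_le
    have h6 : ((kl d : ℝ) * zl d) / 2 ≤ (Nat.lcm (kl d) (zl d) : ℝ) := by
      have : ((kl d * zl d : ℕ) : ℝ) ≤ ((2 * Nat.lcm (kl d) (zl d) : ℕ) : ℝ) := by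
        exact_mod_cast h4
      push_cast at this
      linarith
    have h7 : (X : ℝ) / ((d * Nat.lcm (kl d) (zl d) : ℕ) : ℝ) ≤
        (X : ℝ) / ((d : ℝ) * (((kl d : ℝ) * zl d) / 2)) := by
      refine div_le_div_of_nonneg_left (by positivity) (by positivity) ?_
      push_cast
      exact mul_le_mul_of_nonneg_left h6 hd0.le
    have h8 : (X : ℝ) / ((d : ℝ) * (((kl d : ℝ) * zl d) / 2)) =
        2 * X / ((d : ℝ) * kl d * zl d) := by
      have h9 : (kl d : ℝ) ≠ 0 := by
        have : (0 : ℝ) < kl d := by exact_mod_cast hk0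
        exact this.ne'
      have h10 : (zl d : ℝ) ≠ 0 := by
        have : (0 : ℝ) < zl d := by exact_mod_cast hz0
        exact this.ne'
      field_simp
    have h11 : (((range (X + 1)).filter (fun n => Sel n ∧ d ∣ n)).card : ℝ) ≤
        ((X / (d * Nat.lcm (kl d) (zl d)) : ℕ) : ℝ) + 1 := by exact_mod_cast h1
    rw [← h8]
    linarith

end Pool.Agent.H99.PC
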