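import Pool.Agent.H99.PC.Defs

/-!
[H99 PC APP] law of apparition.
PROOF. Let K = AlgebraicClosure (ZMod p), a a root of X^2 - X - 1 in K, b = 1 - a; then b^2 = b + 1, a b = -1,
(a - b)^2 = 5, which is not 0 because p <> 5. By induction (a - b) F_n = a^n - b^n in K.
a^p is again a root of X^2 - X - 1 (Frobenius), so a^p = a or a^p = b.
If a^p = a: a^(p-1) = 1 (a <> 0 since a b = -1); b^p = (1 - a)^p = 1 - a^p = b so b^(p-1) = 1; F_(p-1) = 0 in K, so p | F_(p-1).
If a^p = b: b^p = 1 - a^p = a; a^(p+1) = a b = b^(p+1); F_(p+1) = 0 in K, so p | F_(p+1).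
((Nat.fib m : K) = 0 iff p | fib m: CharP.cast_eq_zero_iff.)
(p = 2 is allowed in the statement: F_3 = 2; in char 2 the same proof works, (a-b)^2 = 5 = 1.)
-/

namespace Pool.Agent.H99.PC

/-- The law of apparition: a prime `p ≠ 2, 5` divides `F_(p-1)` or `F_(p+1)`. -/
theorem law {p : ℕ} (hp : p.Prime) (h2 : p ≠ 2) (h5 : p ≠ 5) :
    p ∣ Nat.fib (p - 1) ∨ p ∣ Nat.fib (p + 1) := by
  have : Fact p.Prime := ⟨hp⟩
  obtain ⟨K, hK⟩ : ∃ K : Type, K = AlgebraicClosure (ZMod p) := ⟨_, rfl⟩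
  subst hK
  have hchar : CharP (AlgebraicClosure (ZMod p)) p := by infer_instance
  obtain ⟨s, hs⟩ := IsAlgClosed.exists_pow_nat_eq (5 : AlgebraicClosure (ZMod p)) (n := 2)
    (by norm_num)
  have hcast : ∀ n : ℕ, ((n : ℕ) : AlgebraicClosure (ZMod p)) = 0 ↔ p ∣ n := fun n =>
    CharP.cast_eq_zero_iff _ p n
  have h2ne : (2 : AlgebraicClosure (ZMod p)) ≠ 0 := by
    intro h
    have h3 := (hcast 2).1 (by exact_mod_cast h)
    exact h2 ((Nat.prime_dvd_prime_iff_eq hp Nat.prime_two).1 h3)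
  have h5ne : (5 : AlgebraicClosure (ZMod p)) ≠ 0 := by
    intro h
    have h3 := (hcast 5).1 (by exact_mod_cast h)
    exact h5 ((Nat.prime_dvd_prime_iff_eq hp Nat.prime_five).1 h3)
  have hsne : s ≠ 0 := by
    rintro rfl
    apply h5ne
    rw [← hs]
    ring
  obtain ⟨a, ha⟩ : ∃ a : AlgebraicClosure (ZMod p), 2 * a = 1 + s :=
    ⟨(1 + s) / 2, by field_simp⟩
  obtain ⟨b, hb⟩ : ∃ b : AlgebraicClosure (ZMod p), 2 * b = 1 - s :=
    ⟨(1 - s) / 2, by field_simp⟩
  have ha2 : a ^ 2 = a + 1 := by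
    have h : (4 : AlgebraicClosure (ZMod p)) * (a ^ 2 - a - 1) = 0 := by
      linear_combination (2 * a + s - 1) * ha + hs
    have h4 : (4 : AlgebraicClosure (ZMod p)) ≠ 0 := by
      have h' : (4 : AlgebraicClosure (ZMod p)) = 2 * 2 := by norm_num
      rw [h']
      exact mul_ne_zero h2ne h2ne
    have h' := (mul_eq_zero.1 h).resolve_left h4
    linear_combination h'
  have hb2 : b ^ 2 = b + 1 := by
    have h : (4 : AlgebraicClosure (ZMod p)) * (b ^ 2 - b - 1) = 0 := by
      linear_combination (2 * b - s - 1) * hb + hs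
    have h4 : (4 : AlgebraicClosure (ZMod p)) ≠ 0 := by
      have h' : (4 : AlgebraicClosure (ZMod p)) = 2 * 2 := by norm_num
      rw [h']
      exact mul_ne_zero h2ne h2ne
    have h' := (mul_eq_zero.1 h).resolve_left h4
    linear_combination h'
  have hab : a - b = s := by
    have h : (2 : AlgebraicClosure (ZMod p)) * (a - b - s) = 0 := by
      linear_combination ha - hb
    have h' := (mul_eq_zero.1 h).resolve_left h2ne
    linear_combination h'
  have hab' : a * b = -1 := by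
    have h : (4 : AlgebraicClosure (ZMod p)) * (a * b + 1) = 0 := by
      linear_combination (2 * b) * ha + (1 + s) * hb - hs
    have h4 : (4 : AlgebraicClosure (ZMod p)) ≠ 0 := by
      have h' : (4 : AlgebraicClosure (ZMod p)) = 2 * 2 := by norm_num
      rw [h']
      exact mul_ne_zero h2ne h2ne
    have h' := (mul_eq_zero.1 h).resolve_left h4
    linear_combination h'
  have hfib : ∀ n : ℕ, (Nat.fib n : AlgebraicClosure (ZMod p)) * s = a ^ n - b ^ n ∧
      (Nat.fib (n + 1) : AlgebraicClosure (ZMod p)) * s = a ^ (n + 1) - b ^ (n + 1) := by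
    intro n
    induction n with
    | zero => simp [hab]
    | succ n ih =>
      refine ⟨ih.2, ?_⟩
      rw [Nat.fib_add_two]
      push_cast
      have e1 : a ^ (n + 1 + 1) = a ^ (n + 1) + a ^ n := by
        linear_combination (a ^ n) * ha2
      have e2 : b ^ (n + 1 + 1) = b ^ (n + 1) + b ^ n := by
        linear_combination (b ^ n) * hb2
      rw [e1, e2]
      linear_combination ih.1 + ih.2
  have hfp : (Nat.fib p : AlgebraicClosure (ZMod p)) * s = s ^ p := by
    rw [(hfib p).1, ← hab, sub_pow_char]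
  have hsp : s ^ p = s ^ (p - 1) * s := by
    rw [← pow_succ, Nat.sub_add_cancel hp.one_le]
  have hfp' : (Nat.fib p : AlgebraicClosure (ZMod p)) = s ^ (p - 1) := by
    rw [hsp] at hfp
    exact mul_right_cancel₀ hsne hfp
  have hfsq : (Nat.fib p : AlgebraicClosure (ZMod p)) ^ 2 = 1 := by
    rw [hfp', ← pow_mul, mul_comm (p - 1) 2, pow_mul, hs]
    have h51 : ((5 : ℕ) : ZMod p) ^ (p - 1) = 1 := by
      apply ZMod.pow_card_sub_one_eq_one
      rw [Ne, ZMod.natCast_eq_zero_iff]
      intro h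
      exact h5 ((Nat.prime_dvd_prime_iff_eq hp Nat.prime_five).1 h)
    have h52 := congrArg (algebraMap (ZMod p) (AlgebraicClosure (ZMod p))) h51
    rw [map_pow, map_natCast, map_one] at h52
    exact_mod_cast h52
  -- `F_(p-1) F_(p+1) = F_p ^ 2 - 1`
  obtain ⟨k, hk⟩ : ∃ k, p = k + 1 := ⟨p - 1, by have := hp.pos; omega⟩
  have hodd : Odd p := hp.odd_of_ne_two h2
  have hprod : (Nat.fib k : AlgebraicClosure (ZMod p)) * Nat.fib (k + 2) = 0 := by
    have h1 := (hfib k).1
    have h3 := (hfib (k + 1)).2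
    have h2' := (hfib k).2
    have hev : Even k := by
      rw [hk] at hodd
      rcases Nat.even_or_odd k with h | h
      · exact h
      · exact absurd (Odd.add_one h) (Nat.not_even_iff_odd.2 hodd)
    have habk : a ^ k * b ^ k = 1 := by
      rw [← mul_pow, hab', hev.neg_one_pow]
    have hs2 : s ^ 2 ≠ 0 := pow_ne_zero 2 hsne
    have h4 : s ^ 2 * ((Nat.fib k : AlgebraicClosure (ZMod p)) * Nat.fib (k + 2)) =
        s ^ 2 * ((Nat.fib (k + 1) : AlgebraicClosure (ZMod p)) ^ 2 - 1) := by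
      have e1 : s ^ 2 * ((Nat.fib k : AlgebraicClosure (ZMod p)) * Nat.fib (k + 2)) =
          (a ^ k - b ^ k) * (a ^ (k + 2) - b ^ (k + 2)) := by
        rw [← h1, ← h3]
        ring
      have e2 : s ^ 2 * (Nat.fib (k + 1) : AlgebraicClosure (ZMod p)) ^ 2 =
          (a ^ (k + 1) - b ^ (k + 1)) ^ 2 := by
        rw [← h2']
        ring
      rw [mul_sub, e1, e2]
      have e3 : (a - b) ^ 2 = s ^ 2 := by rw [hab]
      linear_combination (-(a - b) ^ 2) * habk - e3
    have h5' := mul_left_cancel₀ hs2 h4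
    have hfk : Nat.fib p = Nat.fib (k + 1) := congrArg Nat.fib hk
    rw [hfk] at hfsq
    rw [h5', hfsq]
    ring
  rcases mul_eq_zero.1 hprod with h | h
  · left
    rw [hcast] at h
    rw [hk]
    simpa [hk] using h
  · right
    rw [hcast] at h
    rw [hk]
    simpa [hk] using h

theorem app (p : ℕ) (hp : p.Prime) (h5 : p ≠ 5) : p ∣ Nat.fib (p - 1) ∨ p ∣ Nat.fib (p + 1) := by
  by_cases h2 : p = 2
  · subst h2
    right
    decide
  · exact law hp h2 h5

end Pool.Agent.H99.PC
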