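import Pool.Agent.H99.PC.Cd

/-!
[H99 PC BF] integers N with a large prime factor of f dividing N - 1 (N + 1).
PROOF. For each prime q | f with q > H: the N in (P,2P] with q | N - 1 number at most P / q + 1 (card_diff with m = q,
a = P, M = P); if there is one then q <= N - 1 < 2P, so P/q + 1 <= 3P/q <= 4P/q. (N - 1 >= P >= 1.) For N + 1:
q <= 2P + 1 <= 3P, P/q + 1 <= 4P/q. Each is <= 4P/H. Union over q in f.primeFactors (card_biUnion_le).
-/

namespace Pool.Agent.H99.PC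

open Finset Classical

theorem big_aux (P f : ℕ) (H : ℝ) (hH : 0 < H) (hf : 0 < f) (R : ℕ → ℕ → Prop)
    (hR : ∀ q : ℕ, q.Prime → H < q → ∀ S : Finset ℕ, S ⊆ Ioc P (2 * P) → (∀ N ∈ S, R q N) →
      (S.card : ℝ) ≤ 4 * P / q) :
    (((Ioc P (2 * P)).filter (fun N => ∃ q : ℕ, q.Prime ∧ H < q ∧ q ∣ f ∧ R q N)).card : ℝ) ≤
      4 * P / H * f.primeFactors.card := by
  have hsub : (Ioc P (2 * P)).filter (fun N => ∃ q : ℕ, q.Prime ∧ H < q ∧ q ∣ f ∧ R q N) ⊆
      (f.primeFactors.filter (fun q : ℕ => H < q)).biUnion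
        (fun q => (Ioc P (2 * P)).filter (fun N => R q N)) := by
    intro N hN
    simp only [mem_filter, mem_biUnion] at hN ⊢
    obtain ⟨hN1, q, hq, hHq, hqf, hqR⟩ := hN
    exact ⟨q, ⟨Nat.mem_primeFactors.2 ⟨hq, hqf, hf.ne'⟩, hHq⟩, hN1, hqR⟩
  have h1 := (card_le_card hsub).trans card_biUnion_le
  have h2 : (((Ioc P (2 * P)).filter (fun N => ∃ q : ℕ, q.Prime ∧ H < q ∧ q ∣ f ∧ R q N)).card : ℝ) ≤
      ∑ q ∈ f.primeFactors.filter (fun q : ℕ => H < q),
        (((Ioc P (2 * P)).filter (fun N => R q N)).card : ℝ) := by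
    exact_mod_cast h1
  refine h2.trans ?_
  have h3 : ∀ q ∈ f.primeFactors.filter (fun q : ℕ => H < q),
      (((Ioc P (2 * P)).filter (fun N => R q N)).card : ℝ) ≤ 4 * P / H := by
    intro q hq
    simp only [mem_filter, Nat.mem_primeFactors] at hq
    refine (hR q hq.1.1 hq.2 _ (filter_subset _ _) (fun N hN => (mem_filter.1 hN).2)).trans ?_
    exact div_le_div_of_nonneg_left (by positivity) hH hq.2.le
  refine (sum_le_card_nsmul _ _ _ h3).trans ?_
  rw [nsmul_eq_mul, mul_comm]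
  have h4 : ((f.primeFactors.filter (fun q : ℕ => H < q)).card : ℝ) ≤ f.primeFactors.card := by
    exact_mod_cast card_le_card (filter_subset _ _)
  exact mul_le_mul_of_nonneg_left h4 (by positivity)

theorem big_sub (P f : ℕ) (hP : 1 ≤ P) (hf : 0 < f) (H : ℝ) (hH : 0 < H) :
    (((Ioc P (2 * P)).filter (fun N => ∃ q : ℕ, q.Prime ∧ H < q ∧ q ∣ f ∧ q ∣ N - 1)).card : ℝ) ≤
      4 * P / H * f.primeFactors.card := by
  refine big_aux P f H hH hf (fun q N => q ∣ N - 1) ?_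
  intro q hq _ S hS hSR
  have hq0 : (0 : ℝ) < q := by exact_mod_cast hq.pos
  rcases Finset.eq_empty_or_nonempty S with h0 | ⟨N0, hN0⟩
  · rw [h0]
    simp only [card_empty, Nat.cast_zero]
    positivity
  · have h1 : S.card ≤ P / q + 1 := by
      refine card_diff P P q hq.pos _ ?_ ?_
      · rw [← two_mul]
        exact hS
      · intro u hu v hv huv
        have hu1 := mem_Ioc.1 (hS hu)
        have hv1 := mem_Ioc.1 (hS hv)
        have e : v - u = (v - 1) - (u - 1) := by omega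
        rw [e]
        exact Nat.dvd_sub (hSR v hv) (hSR u hu)
    have hN1 := mem_Ioc.1 (hS hN0)
    have h2 : q ≤ N0 - 1 := Nat.le_of_dvd (by omega) (hSR N0 hN0)
    have h3 : q ≤ 2 * P := by omega
    have h4 : ((P / q : ℕ) : ℝ) ≤ (P : ℝ) / q := Nat.cast_div_le
    have h5 : (1 : ℝ) ≤ 3 * ((P : ℝ) / q) := by
      rw [← mul_div_assoc, le_div_iff₀ hq0, one_mul]
      have : (q : ℝ) ≤ 2 * P := by exact_mod_cast h3
      have hP0 : (0 : ℝ) ≤ P := by positivity
      linarith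
    have h6 : (S.card : ℝ) ≤ ((P / q : ℕ) : ℝ) + 1 := by
      exact_mod_cast h1
    have h7 : (4 : ℝ) * P / q = 4 * ((P : ℝ) / q) := by ring
    rw [h7]
    linarith

theorem big_add (P f : ℕ) (hP : 1 ≤ P) (hf : 0 < f) (H : ℝ) (hH : 0 < H) :
    (((Ioc P (2 * P)).filter (fun N => ∃ q : ℕ, q.Prime ∧ H < q ∧ q ∣ f ∧ q ∣ N + 1)).card : ℝ) ≤
      4 * P / H * f.primeFactors.card := by
  refine big_aux P f H hH hf (fun q N => q ∣ N + 1) ?_
  intro q hq _ S hS hSR
  have hq0 : (0 : ℝ) < q := by exact_mod_cast hq.pos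
  rcases Finset.eq_empty_or_nonempty S with h0 | ⟨N0, hN0⟩
  · rw [h0]
    simp only [card_empty, Nat.cast_zero]
    positivity
  · have h1 : S.card ≤ P / q + 1 := by
      refine card_diff P P q hq.pos _ ?_ ?_
      · rw [← two_mul]
        exact hS
      · intro u hu v hv huv
        have hu1 := mem_Ioc.1 (hS hu)
        have hv1 := mem_Ioc.1 (hS hv)
        have e : v - u = (v + 1) - (u + 1) := by omega
        rw [e]
        exact Nat.dvd_sub (hSR v hv) (hSR u hu)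
    have hN1 := mem_Ioc.1 (hS hN0)
    have h2 : q ≤ N0 + 1 := Nat.le_of_dvd (by omega) (hSR N0 hN0)
    have h3 : q ≤ 3 * P := by omega
    have h4 : ((P / q : ℕ) : ℝ) ≤ (P : ℝ) / q := Nat.cast_div_le
    have h5 : (1 : ℝ) ≤ 3 * ((P : ℝ) / q) := by
      rw [← mul_div_assoc, le_div_iff₀ hq0, one_mul]
      exact_mod_cast h3
    have h6 : (S.card : ℝ) ≤ ((P / q : ℕ) : ℝ) + 1 := by
      exact_mod_cast h1
    have h7 : (4 : ℝ) * P / q = 4 * ((P : ℝ) / q) := by ring
    rw [h7]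
    linarith

end Pool.Agent.H99.PC
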