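import Mathlib

/-!
[H99 PC SMD] smooth divisor.
PROOF. Strong induction on k. If k <= A take k' = k. Otherwise k > A >= 1, so k > 1 has a prime factor q <= H, and
m = k / q satisfies m = k / q > A / H (k > A, q <= H); the prime factors of m divide k; apply the induction hypothesis
to m (0 < m < k) and use m | k.
-/

namespace Pool.Agent.H99.PC

theorem smooth_divisor (k : ℕ) (hk : 0 < k) (A H : ℝ) (hA : 1 ≤ A) (hH : 1 ≤ H) (h1 : A / H < k)
    (h2 : ∀ q : ℕ, q.Prime → q ∣ k → (q : ℝ) ≤ H) :
    ∃ m : ℕ, m ∣ k ∧ A / H < m ∧ (m : ℝ) ≤ A := by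
  have hH0 : 0 < H := lt_of_lt_of_le one_pos hH
  induction k using Nat.strong_induction_on with
  | _ k ih =>
    by_cases hk2 : (k : ℝ) ≤ A
    · exact ⟨k, dvd_refl k, h1, hk2⟩
    · have hk3 : A < (k : ℝ) := not_le.1 hk2
      have hk4 : k ≠ 1 := by
        rintro rfl
        rw [Nat.cast_one] at hk3
        linarith
      obtain ⟨q, hq, m, hm⟩ := Nat.exists_prime_and_dvd hk4
      have hq0 : (0 : ℝ) < q := by exact_mod_cast hq.pos
      have hm0 : 0 < m := by
        rcases Nat.eq_zero_or_pos m with h0 | h0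
        · rw [h0, mul_zero] at hm
          omega
        · exact h0
      have hmk : m < k := by
        rw [hm]
        nlinarith [hq.two_le]
      have hqH : (q : ℝ) ≤ H := h2 q hq ⟨m, hm⟩
      have hkr : (k : ℝ) = q * m := by
        rw [hm]
        push_cast
        ring
      have h5 : A / H < (m : ℝ) := by
        rw [div_lt_iff₀ hH0]
        have h6 : (q : ℝ) * m ≤ m * H := by
          have : (0 : ℝ) ≤ m := Nat.cast_nonneg m
          nlinarith
        linarith [hkr ▸ hk3]
      obtain ⟨m', h7, h8, h9⟩ := ih m hmk hm0 h5 (fun r hr hrm => h2 r hr (hm ▸ hrm.mul_left q))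
      exact ⟨m', h7.trans ⟨q, by rw [hm, mul_comm]⟩, h8, h9⟩

end Pool.Agent.H99.PC
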