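import Pool.Agent.H99.PC.Cnt
import Pool.Agent.H99.PC.Smd
import Pool.Agent.H99.PC.Bf

/-!
[H99 PC BLK] the block bound, the heart of the proof.
PROOF. Put A = P^(1/2-h) >= 1, H = P^h >= 1, Z = A / H = P^(1/2-2h). Let p be in (P,2P] with Pr f g p.
C1: ko p <= A: at most A^2 = P^(1-2h) primes (ko_small). C2: zr p <= A: the same (zr_small).
C3: ko p has a prime factor q > H: q | ko p | f and q | ko p | p - 1 (ko_dvd): big_sub: <= 4 P^(1-h) omega(f).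
C4: zr p has a prime factor q > H: q | g, and q | p - 1 or q | p + 1 (zr_dvd): big_sub + big_add: <= 8 P^(1-h) omega(g).
C5: otherwise smooth_divisor (with A / H <= A < ko p) gives k | ko p | f, Z < k <= A and j | zr p | g, Z < j <= A;
gcd(k,j) | gcd(f,g) | 2, k j <= A^2 <= P, and p is counted in card_cls P k j (k | p - 1; j | p - 1 or j | p + 1).
So C5 <= sum over k | f, k > Z, j | g, j > Z of 6P/(kj) = 6P (sum_{k | f, k > Z} 1/k)(sum_{j | g, j > Z} 1/j), and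
1/k = k^(-1+a) k^(-a) <= k^(-1+a) Z^(-a), so <= 6 P Z^(-2a) E a f E a g = 6 P^(1-(1-4h)a) E a f E a g.
-/

namespace Pool.Agent.H99.PC

open Finset Classical

theorem tail_le (f : ℕ) (Z a : ℝ) (hZ : 0 < Z) (ha : 0 ≤ a) :
    ∑ k ∈ f.divisors.filter (fun k : ℕ => Z < (k : ℝ)), 1 / (k : ℝ) ≤ Z ^ (-a) * E a f := by
  unfold E
  rw [mul_sum]
  refine (sum_le_sum fun k hk => ?_).trans
    (sum_le_sum_of_subset_of_nonneg (filter_subset _ _) fun k _ _ => by positivity)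
  obtain ⟨-, hk2⟩ := mem_filter.1 hk
  have hk0 : (0 : ℝ) < k := hZ.trans hk2
  have h1 : (1 : ℝ) / k = (k : ℝ) ^ (-a) * (k : ℝ) ^ (-1 + a) := by
    rw [← Real.rpow_add hk0, show -a + (-1 + a) = (-1 : ℝ) by ring, Real.rpow_neg_one, one_div]
  rw [h1]
  exact mul_le_mul_of_nonneg_right
    (Real.rpow_le_rpow_of_nonpos hZ hk2.le (by linarith)) (by positivity)

private theorem blk_cls (P f g : ℕ) (A Z a : ℝ) (hZ : 0 < Z) (ha : 0 ≤ a)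
    (hfg : Nat.gcd f g ∣ 2) (hA : A * A ≤ P) (hA0 : 0 ≤ A) (T : Finset ℕ)
    (hT : ∀ p ∈ T, p ∈ Ioc P (2 * P) ∧ ∃ k j : ℕ, k ∈ f.divisors ∧ j ∈ g.divisors ∧ Z < k ∧
      (k : ℝ) ≤ A ∧ Z < j ∧ (j : ℝ) ≤ A ∧ k ∣ p - 1 ∧ (j ∣ p - 1 ∨ j ∣ p + 1)) :
    (T.card : ℝ) ≤ 6 * P * (Z ^ (-a) * E a f) * (Z ^ (-a) * E a g) := by
  have hsub : T ⊆ (f.divisors.filter (fun k : ℕ => Z < (k : ℝ) ∧ (k : ℝ) ≤ A)).biUnion (fun k =>
      (g.divisors.filter (fun j : ℕ => Z < (j : ℝ) ∧ (j : ℝ) ≤ A)).biUnion (fun j =>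
        (Ioc P (2 * P)).filter (fun N : ℕ => k ∣ N - 1 ∧ (j ∣ N - 1 ∨ j ∣ N + 1)))) := by
    intro p hp
    obtain ⟨h1, k, j, hk, hj, h2, h3, h4, h5, h6, h7⟩ := hT p hp
    exact mem_biUnion.2 ⟨k, mem_filter.2 ⟨hk, h2, h3⟩, mem_biUnion.2 ⟨j, mem_filter.2 ⟨hj, h4, h5⟩,
      mem_filter.2 ⟨h1, h6, h7⟩⟩⟩
  have h1 : (T.card : ℝ) ≤ ∑ k ∈ f.divisors.filter (fun k : ℕ => Z < (k : ℝ) ∧ (k : ℝ) ≤ A),
      ∑ j ∈ g.divisors.filter (fun j : ℕ => Z < (j : ℝ) ∧ (j : ℝ) ≤ A),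
        (((Ioc P (2 * P)).filter (fun N : ℕ => k ∣ N - 1 ∧ (j ∣ N - 1 ∨ j ∣ N + 1))).card : ℝ) := by
    have h2 := (card_le_card hsub).trans (card_biUnion_le.trans
      (sum_le_sum fun k _ => card_biUnion_le))
    exact_mod_cast h2
  have h2 : ∀ k ∈ f.divisors.filter (fun k : ℕ => Z < (k : ℝ) ∧ (k : ℝ) ≤ A),
      ∀ j ∈ g.divisors.filter (fun j : ℕ => Z < (j : ℝ) ∧ (j : ℝ) ≤ A),
        (((Ioc P (2 * P)).filter (fun N : ℕ => k ∣ N - 1 ∧ (j ∣ N - 1 ∨ j ∣ N + 1))).card : ℝ) ≤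
          6 * P * (1 / (k : ℝ)) * (1 / (j : ℝ)) := by
    intro k hk j hj
    obtain ⟨hk1, hk2, hk3⟩ := mem_filter.1 hk
    obtain ⟨hj1, hj2, hj3⟩ := mem_filter.1 hj
    have hk0 : (0 : ℝ) < k := hZ.trans hk2
    have hj0 : (0 : ℝ) < j := hZ.trans hj2
    have hkj : k * j ≤ P := by
      have h3 : (k : ℝ) * j ≤ P :=
        (mul_le_mul hk3 hj3 hj0.le hA0).trans hA
      exact_mod_cast h3
    have h3 := card_cls P k j (by exact_mod_cast hk0) (by exact_mod_cast hj0)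
      ((Nat.gcd_dvd_gcd_of_dvd_left _ (Nat.dvd_of_mem_divisors hk1)).trans
        ((Nat.gcd_dvd_gcd_of_dvd_right _ (Nat.dvd_of_mem_divisors hj1)).trans hfg)) hkj
    refine h3.trans (le_of_eq ?_)
    field_simp
  refine h1.trans ((sum_le_sum fun k hk => sum_le_sum fun j hj => h2 k hk j hj).trans ?_)
  have h3 : ∀ (f : ℕ), ∑ k ∈ f.divisors.filter (fun k : ℕ => Z < (k : ℝ) ∧ (k : ℝ) ≤ A),
      1 / (k : ℝ) ≤ Z ^ (-a) * E a f := by
    intro f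
    refine le_trans (sum_le_sum_of_subset_of_nonneg ?_ fun k _ _ => by positivity)
      (tail_le f Z a hZ ha)
    intro k hk
    obtain ⟨h3, h4, h5⟩ := mem_filter.1 hk
    exact mem_filter.2 ⟨h3, h4⟩
  have h4 : ∑ k ∈ f.divisors.filter (fun k : ℕ => Z < (k : ℝ) ∧ (k : ℝ) ≤ A),
      ∑ j ∈ g.divisors.filter (fun j : ℕ => Z < (j : ℝ) ∧ (j : ℝ) ≤ A),
        6 * (P : ℝ) * (1 / (k : ℝ)) * (1 / (j : ℝ)) =
      6 * P * (∑ k ∈ f.divisors.filter (fun k : ℕ => Z < (k : ℝ) ∧ (k : ℝ) ≤ A), 1 / (k : ℝ)) *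
        (∑ j ∈ g.divisors.filter (fun j : ℕ => Z < (j : ℝ) ∧ (j : ℝ) ≤ A), 1 / (j : ℝ)) := by
    rw [mul_assoc, sum_mul_sum, mul_sum]
    refine sum_congr rfl fun k _ => ?_
    rw [mul_sum]
    refine sum_congr rfl fun j _ => ?_
    ring
  rw [h4]
  have h5 : 0 ≤ ∑ j ∈ g.divisors.filter (fun j : ℕ => Z < (j : ℝ) ∧ (j : ℝ) ≤ A), 1 / (j : ℝ) :=
    sum_nonneg fun _ _ => by positivity
  have h6 : 0 ≤ Z ^ (-a) * E a f := by
    unfold E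
    exact mul_nonneg (by positivity) (sum_nonneg fun _ _ => by positivity)
  refine mul_le_mul (mul_le_mul_of_nonneg_left (h3 f) (by positivity)) (h3 g) h5 ?_
  exact mul_nonneg (by positivity) h6

theorem block (P f g : ℕ) (hP : 1 ≤ P) (hf : 0 < f) (hg : 0 < g) (hfg : Nat.gcd f g ∣ 2)
    (h a : ℝ) (h0 : 0 < h) (h1 : h ≤ 1 / 8) (ha : 0 ≤ a) :
    (((Ioc P (2 * P)).filter (fun p => Pr f g p)).card : ℝ) ≤
      2 * (P : ℝ) ^ (1 - 2 * h) +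
      8 * (P : ℝ) ^ (1 - h) * ((f.primeFactors.card : ℝ) + g.primeFactors.card) +
      6 * (P : ℝ) ^ (1 - (1 - 4 * h) * a) * E a f * E a g := by
  have hP1 : (1 : ℝ) ≤ P := by exact_mod_cast hP
  have hP0 : (0 : ℝ) < P := by linarith
  obtain ⟨A, hA⟩ : ∃ A, A = (P : ℝ) ^ (1 / 2 - h) := ⟨_, rfl⟩
  obtain ⟨H, hH⟩ : ∃ H, H = (P : ℝ) ^ h := ⟨_, rfl⟩
  obtain ⟨Z, hZ⟩ : ∃ Z, Z = (P : ℝ) ^ (1 / 2 - 2 * h) := ⟨_, rfl⟩
  have hA1 : 1 ≤ A := by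
    rw [hA]
    exact Real.one_le_rpow hP1 (by linarith)
  have hH1 : 1 ≤ H := by
    rw [hH]
    exact Real.one_le_rpow hP1 h0.le
  have hZ0 : 0 < Z := by
    rw [hZ]
    positivity
  have hAH : A / H = Z := by
    rw [hA, hH, hZ, ← Real.rpow_sub hP0]
    congr 1
    ring
  have hA2 : A ^ 2 = (P : ℝ) ^ (1 - 2 * h) := by
    rw [hA, ← Real.rpow_natCast, ← Real.rpow_mul hP0.le]
    congr 1
    push_cast
    ring
  have hAP : A * A ≤ P := by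
    rw [← sq, hA2]
    calc (P : ℝ) ^ (1 - 2 * h) ≤ (P : ℝ) ^ (1 : ℝ) :=
          Real.rpow_le_rpow_of_exponent_le hP1 (by linarith)
      _ = P := Real.rpow_one _
  have hPH : 4 * (P : ℝ) / H = 4 * (P : ℝ) ^ (1 - h) := by
    rw [hH, Real.rpow_sub hP0, Real.rpow_one]
    ring
  have hZA : Z ≤ A := by
    rw [← hAH]
    exact div_le_self (by linarith) hH1
  -- the five classes
  obtain ⟨T1, hT1⟩ : ∃ T1, T1 = (range (2 * P + 1)).filter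
      (fun p => p.Prime ∧ p ≠ 2 ∧ (ko p : ℝ) ≤ A) := ⟨_, rfl⟩
  obtain ⟨T2, hT2⟩ : ∃ T2, T2 = (range (2 * P + 1)).filter
      (fun p => p.Prime ∧ (zr p : ℝ) ≤ A) := ⟨_, rfl⟩
  obtain ⟨T3, hT3⟩ : ∃ T3, T3 = (Ioc P (2 * P)).filter
      (fun N => ∃ q : ℕ, q.Prime ∧ H < q ∧ q ∣ f ∧ q ∣ N - 1) := ⟨_, rfl⟩
  obtain ⟨T4, hT4⟩ : ∃ T4, T4 = (Ioc P (2 * P)).filter
      (fun N => ∃ q : ℕ, q.Prime ∧ H < q ∧ q ∣ g ∧ q ∣ N - 1) := ⟨_, rfl⟩
  obtain ⟨T5, hT5⟩ : ∃ T5, T5 = (Ioc P (2 * P)).filter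
      (fun N => ∃ q : ℕ, q.Prime ∧ H < q ∧ q ∣ g ∧ q ∣ N + 1) := ⟨_, rfl⟩
  obtain ⟨T6, hT6⟩ : ∃ T6, T6 = (Ioc P (2 * P)).filter
      (fun p => ∃ k j : ℕ, k ∈ f.divisors ∧ j ∈ g.divisors ∧ Z < k ∧
      (k : ℝ) ≤ A ∧ Z < j ∧ (j : ℝ) ≤ A ∧ k ∣ p - 1 ∧ (j ∣ p - 1 ∨ j ∣ p + 1)) := ⟨_, rfl⟩
  have hcov : (Ioc P (2 * P)).filter (fun p => Pr f g p) ⊆ T1 ∪ T2 ∪ T3 ∪ T4 ∪ T5 ∪ T6 := by
    intro p hp
    obtain ⟨hpI, hpp, hp2, hp5, hkf, hzg⟩ := mem_filter.1 hp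
    have hpr : p ∈ range (2 * P + 1) := by
      rw [mem_Ioc] at hpI
      rw [mem_range]
      omega
    simp only [mem_union]
    by_cases c1 : (ko p : ℝ) ≤ A
    · left; left; left; left; left
      rw [hT1]
      exact mem_filter.2 ⟨hpr, hpp, hp2, c1⟩
    by_cases c2 : (zr p : ℝ) ≤ A
    · left; left; left; left; right
      rw [hT2]
      exact mem_filter.2 ⟨hpr, hpp, c2⟩
    rw [not_le] at c1 c2
    by_cases c3 : ∃ q : ℕ, q.Prime ∧ H < q ∧ q ∣ ko p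
    · obtain ⟨q, hq1, hq2, hq3⟩ := c3
      left; left; left; right
      rw [hT3]
      exact mem_filter.2 ⟨hpI, q, hq1, hq2, hq3.trans hkf, hq3.trans (ko_dvd p hpp hp2)⟩
    by_cases c4 : ∃ q : ℕ, q.Prime ∧ H < q ∧ q ∣ zr p
    · obtain ⟨q, hq1, hq2, hq3⟩ := c4
      rcases zr_dvd p hpp hp5 with h5 | h5
      · left; left; right
        rw [hT4]
        exact mem_filter.2 ⟨hpI, q, hq1, hq2, hq3.trans hzg, hq3.trans h5⟩
      · left; right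
        rw [hT5]
        exact mem_filter.2 ⟨hpI, q, hq1, hq2, hq3.trans hzg, hq3.trans h5⟩
    push Not at c3 c4
    obtain ⟨k, hk1, hk2, hk3⟩ := smooth_divisor (ko p) (ko_pos p hpp hp2) A H hA1 hH1
      (by rw [hAH]; exact hZA.trans_lt c1)
      (fun q hq hqk => by
        by_contra hlt
        exact c3 q hq (not_le.1 hlt) hqk)
    obtain ⟨j, hj1, hj2, hj3⟩ := smooth_divisor (zr p) (zr_pos p hpp) A H hA1 hH1
      (by rw [hAH]; exact hZA.trans_lt c2)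
      (fun q hq hqk => by
        by_contra hlt
        exact c4 q hq (not_le.1 hlt) hqk)
    rw [hAH] at hk2 hj2
    right
    rw [hT6]
    refine mem_filter.2 ⟨hpI, k, j, Nat.mem_divisors.2 ⟨hk1.trans hkf, hf.ne'⟩,
      Nat.mem_divisors.2 ⟨hj1.trans hzg, hg.ne'⟩, hk2, hk3, hj2, hj3,
      hk1.trans (ko_dvd p hpp hp2), ?_⟩
    rcases zr_dvd p hpp hp5 with h5 | h5
    · exact Or.inl (hj1.trans h5)
    · exact Or.inr (hj1.trans h5)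
  have e1 : (T1.card : ℝ) ≤ (P : ℝ) ^ (1 - 2 * h) := by
    rw [hT1, ← hA2]
    exact ko_small _ A (by linarith)
  have e2 : (T2.card : ℝ) ≤ (P : ℝ) ^ (1 - 2 * h) := by
    rw [hT2, ← hA2]
    exact zr_small _ A (by linarith)
  have e3 : (T3.card : ℝ) ≤ 4 * (P : ℝ) ^ (1 - h) * f.primeFactors.card := by
    rw [hT3, ← hPH]
    exact big_sub P f hP hf H (by linarith)
  have e4 : (T4.card : ℝ) ≤ 4 * (P : ℝ) ^ (1 - h) * g.primeFactors.card := by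
    rw [hT4, ← hPH]
    exact big_sub P g hP hg H (by linarith)
  have e5 : (T5.card : ℝ) ≤ 4 * (P : ℝ) ^ (1 - h) * g.primeFactors.card := by
    rw [hT5, ← hPH]
    exact big_add P g hP hg H (by linarith)
  have e6 : (T6.card : ℝ) ≤ 6 * (P : ℝ) ^ (1 - (1 - 4 * h) * a) * E a f * E a g := by
    have h7 := blk_cls P f g A Z a hZ0 ha hfg hAP (by linarith) T6 (fun p hp => by
      rw [hT6] at hp
      exact mem_filter.1 hp)
    refine h7.trans (le_of_eq ?_)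
    have h8 : (P : ℝ) ^ (1 - (1 - 4 * h) * a) = P * (Z ^ (-a) * Z ^ (-a)) := by
      rw [hZ, ← Real.rpow_mul hP0.le, ← Real.rpow_add hP0]
      nth_rewrite 2 [← Real.rpow_one (P : ℝ)]
      rw [← Real.rpow_add hP0]
      congr 1
      ring
    rw [h8]
    ring
  have hc : (((Ioc P (2 * P)).filter (fun p => Pr f g p)).card : ℝ) ≤
      T1.card + T2.card + T3.card + T4.card + T5.card + T6.card := by
    have h7 := (card_le_card hcov).trans ((card_union_le _ _).trans (Nat.add_le_add_right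
      ((card_union_le _ _).trans (Nat.add_le_add_right ((card_union_le _ _).trans
        (Nat.add_le_add_right ((card_union_le _ _).trans (Nat.add_le_add_right
          (card_union_le _ _) _)) _)) _)) _))
    exact_mod_cast h7
  have h9 : (0 : ℝ) ≤ (P : ℝ) ^ (1 - h) * f.primeFactors.card := by positivity
  have h10 : (0 : ℝ) ≤ (P : ℝ) ^ (1 - h) * g.primeFactors.card := by positivity
  nlinarith [hc, e1, e2, e3, e4, e5, e6, h9, h10]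

end Pool.Agent.H99.PC
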