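import Mathlib

/-! Analytic lemmas for the counterexample to polynomial convexity of totally disconnected
compact sets of finite length: the maximum principle on a square, and the bump lemma
(maximum principle on the annulus `s ↦ (q + (b-q) s^M, c + (φ-c)/s)`). -/

set_option autoImplicit false

namespace Pool.Agent.H99.PC

open Complex Metric Set

/-- One-variable maximum principle on a closed square. -/
lemma square_max {g : ℂ → ℂ} (hg : Differentiable ℂ g) (c : ℂ) (a : ℝ) (σ : ℝ)
    (h : ∀ z, |(z - c).re| ≤ a → |(z - c).im| ≤ a →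
      (|(z - c).re| = a ∨ |(z - c).im| = a) → ‖g z‖ ≤ σ) :
    ∀ z, |(z - c).re| ≤ a → |(z - c).im| ≤ a → ‖g z‖ ≤ σ := by
  intro z hz1 hz2
  by_cases hb : |(z - c).re| = a ∨ |(z - c).im| = a
  · exact h z hz1 hz2 hb
  push Not at hb
  have hz1' : |(z - c).re| < a := lt_of_le_of_ne hz1 hb.1
  have hz2' : |(z - c).im| < a := lt_of_le_of_ne hz2 hb.2
  set U : Set ℂ := {w | |(w - c).re| < a ∧ |(w - c).im| < a} with hU
  have hc1 : Continuous (fun w : ℂ => |(w - c).re|) :=
    (Complex.continuous_re.comp (continuous_id.sub continuous_const)).abs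
  have hc2 : Continuous (fun w : ℂ => |(w - c).im|) :=
    (Complex.continuous_im.comp (continuous_id.sub continuous_const)).abs
  have hUo : IsOpen U := by
    apply IsOpen.inter
    · exact isOpen_lt hc1 continuous_const
    · exact isOpen_lt hc2 continuous_const
  have hcl : closure U ⊆ {w | |(w - c).re| ≤ a ∧ |(w - c).im| ≤ a} := by
    apply closure_minimal
    · intro w hw
      exact ⟨hw.1.le, hw.2.le⟩
    · apply IsClosed.inter
      · exact isClosed_le hc1 continuous_const
      · exact isClosed_le hc2 continuous_const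
  have hUb : Bornology.IsBounded U := by
    apply (Metric.isBounded_closedBall (x := c) (r := 2 * a)).subset
    intro w hw
    rw [mem_closedBall, dist_eq_norm]
    calc ‖w - c‖ ≤ |(w - c).re| + |(w - c).im| := Complex.norm_le_abs_re_add_abs_im _
      _ ≤ 2 * a := by linarith [hw.1, hw.2]
  refine Complex.norm_le_of_forall_mem_frontier_norm_le hUb hg.diffContOnCl ?_
    (subset_closure ⟨hz1', hz2'⟩)
  intro w hw
  have hw1 := hcl hw.1
  have hw2 : w ∉ U := by
    have := hw.2
    rwa [hUo.interior_eq] at this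
  apply h w hw1.1 hw1.2
  by_contra hcon
  push Not at hcon
  exact hw2 ⟨lt_of_le_of_ne hw1.1 hcon.1, lt_of_le_of_ne hw1.2 hcon.2⟩

/-- The bump lemma. -/
lemma bump {f : ℂ × ℂ → ℂ} (hf : Differentiable ℂ f) {d r1 A σ : ℝ} {M : ℕ} (hM : 0 < M)
    (hd : 0 < d) (hr1 : 0 < r1) (hexp : d ≤ r1 * Real.exp M) (hσA : σ < A)
    {b φ q c : ℂ} (hb : ‖b - q‖ ≤ d)
    (hout : ∀ b' φ', ‖b' - q‖ = 2 * d → ‖φ' - c‖ ≤ ‖φ - c‖ * Real.exp (-(3/5) / M) →
      ‖f (b', φ')‖ ≤ A)
    (hin : ∀ b' φ', ‖b' - q‖ ≤ r1 → ‖φ' - c‖ ≤ Real.exp 1 * ‖φ - c‖ → ‖f (b', φ')‖ ≤ σ) :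
    ‖f (b, φ)‖ < A := by
  have hMpos : (0:ℝ) < M := by exact_mod_cast hM
  have he1 : (1:ℝ) ≤ Real.exp 1 := Real.one_le_exp (by norm_num)
  by_cases hr : ‖b - q‖ ≤ r1
  · refine lt_of_le_of_lt (hin b φ hr ?_) hσA
    exact le_mul_of_one_le_left (norm_nonneg _) he1
  push Not at hr
  set r := ‖b - q‖ with hrdef
  have hrpos : 0 < r := lt_trans hr1 hr
  have hσ0 : 0 ≤ σ := by
    refine le_trans (norm_nonneg _) (hin q c (by simpa using hr1.le) ?_)
    simp only [sub_self, norm_zero]
    positivity
  have hA : 0 < A := lt_of_le_of_lt hσ0 hσA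
  set so : ℝ := Real.exp (Real.log (2 * d / r) / M) with hso
  set si : ℝ := Real.exp (-(Real.log (r / r1) / M)) with hsi
  have h2dr : 2 ≤ 2 * d / r := by
    rw [le_div_iff₀ hrpos]; linarith
  have hlog2 : 3/5 < Real.log (2 * d / r) := by
    have h1 : Real.log 2 ≤ Real.log (2 * d / r) := Real.log_le_log (by norm_num) h2dr
    have h2 := Real.log_two_gt_d9
    linarith
  have hlogr : 0 < Real.log (r / r1) := Real.log_pos (by rw [lt_div_iff₀ hr1]; linarith)
  have hlogr2 : Real.log (r / r1) ≤ M := by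
    rw [Real.log_le_iff_le_exp (by positivity), div_le_iff₀ hr1]
    linarith
  have hsopos : 0 < so := Real.exp_pos _
  have hsipos : 0 < si := Real.exp_pos _
  have hso1 : 1 < so := by
    rw [hso, ← Real.exp_zero]
    exact Real.exp_lt_exp.2 (div_pos (by linarith) hMpos)
  have hsi1 : si < 1 := by
    rw [hsi, ← Real.exp_zero]
    exact Real.exp_lt_exp.2 (neg_lt_zero.2 (div_pos hlogr hMpos))
  have hsopow : so ^ M = 2 * d / r := by
    rw [hso, ← Real.exp_nat_mul, mul_div_cancel₀ _ hMpos.ne', Real.exp_log (by positivity)]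
  have hsipow : si ^ M = r1 / r := by
    rw [hsi, ← Real.exp_nat_mul, mul_neg, mul_div_cancel₀ _ hMpos.ne', Real.exp_neg,
      Real.exp_log (by positivity), inv_div]
  have hsoinv : so⁻¹ ≤ Real.exp (-(3/5) / M) := by
    rw [hso, ← Real.exp_neg]
    apply Real.exp_le_exp.2
    rw [← neg_div]
    gcongr
  have hsiinv : si⁻¹ ≤ Real.exp 1 := by
    rw [hsi, Real.exp_neg, inv_inv]
    apply Real.exp_le_exp.2
    rw [div_le_one hMpos]
    exact hlogr2
  by_contra hcon
  push Not at hcon
  obtain ⟨N, hN⟩ := exists_pow_lt_of_lt_one hsipos ((div_lt_one hA).2 hσA)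
  set F : ℂ → ℂ := fun s => f (q + (b - q) * s ^ M, c + (φ - c) * s⁻¹) with hF
  set G : ℂ → ℂ := fun s => (F s) ^ N * s⁻¹ with hG
  set U : Set ℂ := {s | si < ‖s‖ ∧ ‖s‖ < so} with hU
  have hUo : IsOpen U := by
    apply IsOpen.inter
    · exact isOpen_lt continuous_const continuous_norm
    · exact isOpen_lt continuous_norm continuous_const
  have hcl : closure U ⊆ {s | si ≤ ‖s‖ ∧ ‖s‖ ≤ so} := by
    apply closure_minimal
    · intro w hw
      exact ⟨hw.1.le, hw.2.le⟩
    · apply IsClosed.inter
      · exact isClosed_le continuous_const continuous_norm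
      · exact isClosed_le continuous_norm continuous_const
  have hUb : Bornology.IsBounded U := by
    apply (Metric.isBounded_closedBall (x := (0:ℂ)) (r := so)).subset
    intro w hw
    rw [mem_closedBall, dist_zero_right]
    exact hw.2.le
  have hFd : ∀ s : ℂ, s ≠ 0 → DifferentiableAt ℂ F s := by
    intro s hs
    have h1 : DifferentiableAt ℂ (fun s : ℂ => (q + (b - q) * s ^ M, c + (φ - c) * s⁻¹)) s := by
      apply DifferentiableAt.prodMk
      · fun_prop
      · apply DifferentiableAt.const_add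
        apply DifferentiableAt.const_mul
        exact differentiableAt_inv hs
    exact (hf _).comp s h1
  have hGd : DiffContOnCl ℂ G U := by
    apply DifferentiableOn.diffContOnCl
    intro s hs
    have hs1 := hcl hs
    have hs0 : s ≠ 0 := by
      intro h0
      rw [h0] at hs1
      have := hs1.1
      simp only [norm_zero] at this
      linarith
    apply DifferentiableAt.differentiableWithinAt
    exact ((hFd s hs0).pow N).mul (differentiableAt_inv hs0)
  -- bound on the frontier
  have hfr : ∀ s ∈ frontier U, ‖G s‖ ≤ max (A ^ N * so⁻¹) (σ ^ N * si⁻¹) := by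
    intro s hs
    have hs1 := hcl hs.1
    have hs2 : s ∉ U := by
      have := hs.2
      rwa [hUo.interior_eq] at this
    have hs0 : 0 < ‖s‖ := lt_of_lt_of_le hsipos hs1.1
    rcases eq_or_lt_of_le hs1.1 with h1 | h1
    · -- inner circle
      refine le_trans ?_ (le_max_right _ _)
      rw [hG]
      simp only [norm_mul, norm_pow, norm_inv]
      rw [← h1]
      gcongr
      apply hin
      · rw [add_sub_cancel_left, norm_mul, norm_pow, ← h1, hsipow, ← hrdef]
        rw [mul_div_cancel₀ _ hrpos.ne']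
      · rw [add_sub_cancel_left, norm_mul, norm_inv, ← h1, mul_comm]
        gcongr
    · rcases eq_or_lt_of_le hs1.2 with h2 | h2
      · -- outer circle
        refine le_trans ?_ (le_max_left _ _)
        rw [hG]
        simp only [norm_mul, norm_pow, norm_inv]
        rw [h2]
        gcongr
        apply hout
        · rw [add_sub_cancel_left, norm_mul, norm_pow, h2, hsopow, ← hrdef]
          rw [mul_div_cancel₀ _ hrpos.ne']
        · rw [add_sub_cancel_left, norm_mul, norm_inv, h2]
          gcongr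
      · exact absurd ⟨h1, h2⟩ hs2
  have h1U : (1:ℂ) ∈ closure U := by
    apply subset_closure
    refine ⟨?_, ?_⟩
    · rw [norm_one]; exact hsi1
    · rw [norm_one]; exact hso1
  have hmain := Complex.norm_le_of_forall_mem_frontier_norm_le hUb hGd hfr h1U
  have hG1 : ‖G 1‖ = ‖f (b, φ)‖ ^ N := by
    rw [hG, hF]
    simp
  rw [hG1] at hmain
  have hAN : A ^ N ≤ ‖f (b, φ)‖ ^ N := by gcongr
  have hANpos : 0 < A ^ N := by positivity
  rcases le_max_iff.1 (le_trans hAN hmain) with h1 | h1
  · have : A ^ N * so⁻¹ < A ^ N * 1 := by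
      gcongr
      exact inv_lt_one_of_one_lt₀ hso1
    linarith
  · rw [← div_eq_mul_inv, le_div_iff₀ hsipos] at h1
    rw [div_pow, div_lt_iff₀ hANpos] at hN
    linarith [mul_comm si (A^N)]

end Pool.Agent.H99.PC
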