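import Pool.Agent.H99.PC.Bump

/-! Segments in frame coordinates, the cell rectangle, its five boundary segments and the
radius field; the local maximum-principle step for one cell. -/

set_option autoImplicit false

namespace Pool.Agent.H99.PC

open Complex Metric Set

/-- An oriented segment `{o + w t : 0 ≤ t ≤ len}` (with `w` a unit direction). -/
structure Seg where
  o : ℂ
  w : ℂ
  len : ℝ

/-- the point with frame coordinates `(t, y)` -/
def Seg.pt (s : Seg) (t y : ℝ) : ℂ := s.o + s.w * (t + y * I)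

/-- frame coordinates of a point -/
def Seg.co (s : Seg) (β : ℂ) : ℂ := (β - s.o) * (starRingEnd ℂ) s.w

/-- closed `h`-neighbourhood of the segment -/
def Seg.nb (s : Seg) (h : ℝ) : Set ℂ := {β | ∃ t, 0 ≤ t ∧ t ≤ s.len ∧ ‖β - s.pt t 0‖ ≤ h}

lemma Seg.mul_conj {w : ℂ} (hw : ‖w‖ = 1) : w * (starRingEnd ℂ) w = 1 := by
  rw [Complex.mul_conj, Complex.normSq_eq_norm_sq, hw]; simp

lemma Seg.co_pt (s : Seg) (hw : ‖s.w‖ = 1) (t y : ℝ) : s.co (s.pt t y) = t + y * I := by
  have h := Seg.mul_conj hw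
  unfold Seg.co Seg.pt
  linear_combination (t + y * I) * h

lemma Seg.co_pt_re (s : Seg) (hw : ‖s.w‖ = 1) (t y : ℝ) : (s.co (s.pt t y)).re = t := by
  rw [s.co_pt hw]; simp

lemma Seg.co_pt_im (s : Seg) (hw : ‖s.w‖ = 1) (t y : ℝ) : (s.co (s.pt t y)).im = y := by
  rw [s.co_pt hw]; simp

lemma Seg.pt_co (s : Seg) (hw : ‖s.w‖ = 1) (β : ℂ) : s.pt (s.co β).re (s.co β).im = β := by
  have h := Seg.mul_conj hw
  unfold Seg.pt
  rw [Complex.re_add_im]
  unfold Seg.co
  linear_combination (β - s.o) * h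

lemma Seg.norm_co_sub (s : Seg) (hw : ‖s.w‖ = 1) (β β' : ℂ) :
    ‖s.co β - s.co β'‖ = ‖β - β'‖ := by
  unfold Seg.co
  rw [← sub_mul, sub_sub_sub_cancel_right, norm_mul, Complex.norm_conj, hw, mul_one]

lemma Seg.co_re_sub_le (s : Seg) (hw : ‖s.w‖ = 1) (β β' : ℂ) :
    |(s.co β).re - (s.co β').re| ≤ ‖β - β'‖ := by
  rw [← s.norm_co_sub hw, ← Complex.sub_re]
  exact Complex.abs_re_le_norm _

lemma Seg.co_im_sub_le (s : Seg) (hw : ‖s.w‖ = 1) (β β' : ℂ) :
    |(s.co β).im - (s.co β').im| ≤ ‖β - β'‖ := by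
  rw [← s.norm_co_sub hw, ← Complex.sub_im]
  exact Complex.abs_im_le_norm _

lemma Seg.norm_pt_sub (s : Seg) (hw : ‖s.w‖ = 1) (t y t' y' : ℝ) :
    ‖s.pt t y - s.pt t' y'‖ = ‖((t - t' : ℝ) : ℂ) + ((y - y' : ℝ) : ℂ) * I‖ := by
  have : s.pt t y - s.pt t' y' = s.w * (((t - t' : ℝ) : ℂ) + ((y - y' : ℝ) : ℂ) * I) := by
    unfold Seg.pt; push_cast; ring
  rw [this, norm_mul, hw, one_mul]

lemma Seg.norm_pt_sub_le (s : Seg) (hw : ‖s.w‖ = 1) (t y t' y' : ℝ) :
    ‖s.pt t y - s.pt t' y'‖ ≤ |t - t'| + |y - y'| := by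
  rw [s.norm_pt_sub hw]
  refine le_trans (norm_add_le _ _) ?_
  rw [norm_mul, Complex.norm_I, mul_one, Complex.norm_real, Complex.norm_real,
    Real.norm_eq_abs, Real.norm_eq_abs]

/-- the rectangle `[a-τ, b+τ] × [-τ, τ]` in the frame of `s` -/
def cellRect (s : Seg) (a b τ : ℝ) : Set ℂ :=
  {β | a - τ ≤ (s.co β).re ∧ (s.co β).re ≤ b + τ ∧ -τ ≤ (s.co β).im ∧ (s.co β).im ≤ τ}

/-- the five boundary segments: bottom, right, top right, top left, left -/
def childSegs (s : Seg) (a b τ : ℝ) : Fin 5 → Seg :=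
  ![⟨s.pt (a - τ) (-τ), s.w, b - a + 2 * τ⟩,
    ⟨s.pt (b + τ) (-τ), I * s.w, 2 * τ⟩,
    ⟨s.pt (b + τ) τ, -s.w, 2 * τ⟩,
    ⟨s.pt (a + τ) τ, -s.w, 2 * τ⟩,
    ⟨s.pt (a - τ) τ, -(I * s.w), 2 * τ⟩]

lemma childSegs_pt0 (s : Seg) (a b τ t y : ℝ) :
    (childSegs s a b τ 0).pt t y = s.pt (a - τ + t) (-τ + y) := by
  simp only [childSegs, Seg.pt, Matrix.cons_val_zero]
  push_cast; ring

lemma childSegs_pt1 (s : Seg) (a b τ t y : ℝ) :
    (childSegs s a b τ 1).pt t y = s.pt (b + τ - y) (-τ + t) := by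
  simp only [childSegs, Seg.pt, Matrix.cons_val_one, Matrix.cons_val_zero]
  push_cast
  linear_combination (s.w * y) * Complex.I_sq

lemma childSegs_pt2 (s : Seg) (a b τ t y : ℝ) :
    (childSegs s a b τ 2).pt t y = s.pt (b + τ - t) (τ - y) := by
  simp only [childSegs, Seg.pt, Matrix.cons_val]
  push_cast; ring

lemma childSegs_pt3 (s : Seg) (a b τ t y : ℝ) :
    (childSegs s a b τ 3).pt t y = s.pt (a + τ - t) (τ - y) := by
  simp only [childSegs, Seg.pt, Matrix.cons_val]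
  push_cast; ring

lemma childSegs_pt4 (s : Seg) (a b τ t y : ℝ) :
    (childSegs s a b τ 4).pt t y = s.pt (a - τ + y) (τ - t) := by
  simp only [childSegs, Seg.pt, Matrix.cons_val]
  push_cast
  linear_combination (-s.w * y) * Complex.I_sq

/-- distance-like function to the boundary of the cell -/
noncomputable def mI (s : Seg) (a b τ : ℝ) (β : ℂ) : ℝ :=
  min (min ((s.co β).re - (a - τ)) (b + τ - (s.co β).re))
    (min ((s.co β).im + τ) (τ - (s.co β).im))

lemma mI_lip (s : Seg) (hw : ‖s.w‖ = 1) (a b τ : ℝ) (β β' : ℂ) :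
    mI s a b τ β ≤ mI s a b τ β' + ‖β - β'‖ := by
  have h1 := abs_le.1 (s.co_re_sub_le hw β β')
  have h2 := abs_le.1 (s.co_im_sub_le hw β β')
  unfold mI
  have e1 := min_le_left ((s.co β).re - (a - τ)) (b + τ - (s.co β).re)
  have e2 := min_le_right ((s.co β).re - (a - τ)) (b + τ - (s.co β).re)
  have e3 := min_le_left ((s.co β).im + τ) (τ - (s.co β).im)
  have e4 := min_le_right ((s.co β).im + τ) (τ - (s.co β).im)
  have e5 := min_le_left (min ((s.co β).re - (a - τ)) (b + τ - (s.co β).re))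
    (min ((s.co β).im + τ) (τ - (s.co β).im))
  have e6 := min_le_right (min ((s.co β).re - (a - τ)) (b + τ - (s.co β).re))
    (min ((s.co β).im + τ) (τ - (s.co β).im))
  rw [← sub_le_iff_le_add]
  refine le_min (le_min ?_ ?_) (le_min ?_ ?_) <;> linarith [h1.1, h1.2, h2.1, h2.2]

/-- the radius field -/
noncomputable def Rf (s : Seg) (a b τ d ρ ρ' : ℝ) (M : ℕ) (β : ℂ) : ℝ :=
  min (5/4 * ρ) (ρ' * Real.exp (max (mI s a b τ β - 3 * d) 0 / (5 * M * d)))

lemma Rf_ratio (s : Seg) (hw : ‖s.w‖ = 1) (a b τ d ρ ρ' : ℝ) (M : ℕ) (hM : 0 < M) (hd : 0 < d)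
    (hρ : 0 ≤ ρ) (hρ' : 0 ≤ ρ') (β β' : ℂ) (hbb : ‖β - β'‖ ≤ 3 * d) :
    Rf s a b τ d ρ ρ' M β * Real.exp (-(3/5) / M) ≤ Rf s a b τ d ρ ρ' M β' := by
  have hMpos : (0:ℝ) < M := by exact_mod_cast hM
  have hu : 0 < 5 * M * d := by positivity
  have he : Real.exp (-(3/5) / M) ≤ 1 := by
    rw [Real.exp_le_one_iff, neg_div]
    have : 0 ≤ (3/5 : ℝ) / M := by positivity
    linarith
  unfold Rf
  apply le_min
  · calc min (5/4 * ρ) (ρ' * Real.exp (max (mI s a b τ β - 3 * d) 0 / (5 * M * d))) *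
          Real.exp (-(3/5) / M) ≤ (5/4 * ρ) * 1 := by
            apply mul_le_mul (min_le_left _ _) he (Real.exp_pos _).le (by positivity)
      _ = 5/4 * ρ := mul_one _
  · calc min (5/4 * ρ) (ρ' * Real.exp (max (mI s a b τ β - 3 * d) 0 / (5 * M * d))) *
          Real.exp (-(3/5) / M)
          ≤ (ρ' * Real.exp (max (mI s a b τ β - 3 * d) 0 / (5 * M * d))) *
            Real.exp (-(3/5) / M) := by
            gcongr
            exact min_le_right _ _
      _ = ρ' * Real.exp (max (mI s a b τ β - 3 * d) 0 / (5 * M * d) + -(3/5) / M) := by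
            rw [mul_assoc, ← Real.exp_add]
      _ ≤ ρ' * Real.exp (max (mI s a b τ β' - 3 * d) 0 / (5 * M * d)) := by
            apply mul_le_mul_of_nonneg_left _ hρ'
            apply Real.exp_le_exp.2
            have h1 := mI_lip s hw a b τ β β'
            have h2 : max (mI s a b τ β - 3 * d) 0 ≤ max (mI s a b τ β' - 3 * d) 0 + 3 * d := by
              apply max_le
              · have := le_max_left (mI s a b τ β' - 3 * d) 0
                linarith
              · have := le_max_right (mI s a b τ β' - 3 * d) 0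
                linarith
            have h3 : (-(3/5) / M : ℝ) = -(3 * d) / (5 * M * d) := by
              field_simp
            rw [h3, ← add_div]
            apply div_le_div_of_nonneg_right _ hu.le
            linarith

lemma Rf_le_left (s : Seg) (a b τ d ρ ρ' : ℝ) (M : ℕ) (β : ℂ) :
    Rf s a b τ d ρ ρ' M β ≤ 5/4 * ρ := min_le_left _ _

lemma Rf_le_of_mI (s : Seg) (a b τ d ρ ρ' : ℝ) (M : ℕ) (β : ℂ)
    (h : mI s a b τ β ≤ 3 * d) : Rf s a b τ d ρ ρ' M β ≤ ρ' := by
  unfold Rf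
  refine le_trans (min_le_right _ _) ?_
  rw [max_eq_right (by linarith)]
  simp

lemma le_Rf (s : Seg) (a b τ d ρ ρ' : ℝ) (M : ℕ) (β : ℂ) (hd : 0 < d) (hρ' : 0 ≤ ρ')
    (h : ρ' ≤ 5/4 * ρ) : ρ' ≤ Rf s a b τ d ρ ρ' M β := by
  unfold Rf
  refine le_min h ?_
  have : 1 ≤ Real.exp (max (mI s a b τ β - 3 * d) 0 / (5 * M * d)) := by
    apply Real.one_le_exp
    positivity
  nlinarith

lemma mI_child_nonpos (s : Seg) (hw : ‖s.w‖ = 1) (a b τ : ℝ) (k : Fin 5) (t : ℝ) :
    mI s a b τ ((childSegs s a b τ k).pt t 0) ≤ 0 := by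
  unfold mI
  fin_cases k
  · show _ ≤ _
    simp only [Fin.zero_eta]
    rw [childSegs_pt0, s.co_pt_re hw, s.co_pt_im hw]
    exact le_trans (min_le_right _ _) (le_trans (min_le_left _ _) (by linarith))
  · simp only [Fin.mk_one]
    rw [childSegs_pt1, s.co_pt_re hw, s.co_pt_im hw]
    exact le_trans (min_le_left _ _) (le_trans (min_le_right _ _) (by linarith))
  · simp only [Fin.reduceFinMk]
    rw [childSegs_pt2, s.co_pt_re hw, s.co_pt_im hw]
    exact le_trans (min_le_right _ _) (le_trans (min_le_right _ _) (by linarith))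
  · simp only [Fin.reduceFinMk]
    rw [childSegs_pt3, s.co_pt_re hw, s.co_pt_im hw]
    exact le_trans (min_le_right _ _) (le_trans (min_le_right _ _) (by linarith))
  · simp only [Fin.reduceFinMk]
    rw [childSegs_pt4, s.co_pt_re hw, s.co_pt_im hw]
    exact le_trans (min_le_left _ _) (le_trans (min_le_left _ _) (by linarith))

/-- The local step for one cell. -/
lemma cell_step {f : ℂ × ℂ → ℂ} (hf : Differentiable ℂ f) (s : Seg) (hw : ‖s.w‖ = 1) (G : Set ℂ)
    (c c' : ℂ) (ρ ρ' d τ a b r1 A σ om : ℝ) (M : ℕ) (hM : 0 < M) (hd : 0 < d)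
    (hdτ : 3 * d ≤ τ) (hτom : τ + 3 * d ≤ om)
    (hcollar : ∀ t y, 0 ≤ t → t ≤ s.len → 0 ≤ y → y ≤ om → s.pt t y ∈ G)
    (ha : 0 ≤ a) (hab : a ≤ b) (hb : b ≤ s.len) (hρ' : 0 < ρ') (hρρ' : ρ' ≤ ρ / 4)
    (hc : ‖c' - c‖ ≤ ρ / 4) (hr1 : 0 < r1) (hexp : d ≤ r1 * Real.exp M)
    (hcore : ∀ β ∈ G, ∀ φ, ‖φ - c‖ ≤ ρ → ‖f (β, φ)‖ ≤ A)
    (hfam : ∀ β ∈ cellRect s a b τ, ∀ φ, ‖φ - c'‖ ≤ Rf s a b τ d ρ ρ' M β → ‖f (β, φ)‖ ≤ A)
    (hsupp : ∀ k, ∀ β ∈ (childSegs s a b τ k).nb (3 * d), ∀ φ, ‖φ - c'‖ ≤ ρ' →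
      ‖f (β, φ)‖ ≤ σ)
    (hpole : ∀ β ∈ cellRect s a b τ, ∃ q, ‖β - q‖ ≤ d ∧ ∀ β' φ', ‖β' - q‖ ≤ r1 →
      |(φ' - c).re| ≤ 4 * ρ → |(φ' - c).im| ≤ 4 * ρ → ‖f (β', φ')‖ ≤ σ)
    (hσA : σ < A) :
    ∀ β ∈ cellRect s a b τ, ∀ φ, ‖φ - c'‖ ≤ Rf s a b τ d ρ ρ' M β → ‖f (β, φ)‖ < A := by
  intro β hβ φ hφ
  have hρ : 0 < ρ := by linarith
  by_cases hnear : ∃ k, β ∈ (childSegs s a b τ k).nb (3 * d)
  · obtain ⟨k, hk⟩ := hnear
    refine lt_of_le_of_lt (hsupp k β hk φ (le_trans hφ ?_)) hσA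
    apply Rf_le_of_mI
    obtain ⟨t, _, _, ht⟩ := hk
    have := mI_lip s hw a b τ β ((childSegs s a b τ k).pt t 0)
    have h0 := mI_child_nonpos s hw a b τ k t
    linarith
  push Not at hnear
  obtain ⟨q, hq, hsheet⟩ := hpole β hβ
  apply bump hf hM hd hr1 hexp hσA hq
  · -- outer circle
    intro β' φ' hβ' hφ'
    have hbb : ‖β - β'‖ ≤ 3 * d := by
      calc ‖β - β'‖ = ‖(β - q) - (β' - q)‖ := by congr 1; ring
        _ ≤ ‖β - q‖ + ‖β' - q‖ := norm_sub_le _ _
        _ ≤ 3 * d := by linarith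
    have hRφ : ‖φ' - c'‖ ≤ Rf s a b τ d ρ ρ' M β * Real.exp (-(3/5) / M) :=
      le_trans hφ' (by gcongr)
    by_cases hin : β' ∈ cellRect s a b τ
    · apply hfam β' hin
      exact le_trans hRφ (Rf_ratio s hw a b τ d ρ ρ' M hM hd hρ.le hρ'.le β β' hbb)
    · -- β' outside the cell
      obtain ⟨h1, h2, h3, h4⟩ := hβ
      have e1 := abs_le.1 (s.co_re_sub_le hw β β')
      have e2 := abs_le.1 (s.co_im_sub_le hw β β')
      have hpc := s.pt_co hw β
      have hpc' := s.pt_co hw β'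
      set t := (s.co β).re with ht
      set y := (s.co β).im with hy
      set t' := (s.co β').re with ht'
      set y' := (s.co β').im with hy'
      -- t' not to the left
      have hl : a - τ ≤ t' := by
        by_contra hcon
        push Not at hcon
        apply hnear 4
        refine ⟨τ - y, by linarith, ?_, ?_⟩
        · simp only [childSegs, Matrix.cons_val]; linarith
        · rw [childSegs_pt4, ← hpc]
          refine le_trans (s.norm_pt_sub_le hw _ _ _ _) ?_
          rw [show y - (τ - (τ - y)) = 0 by ring, abs_zero, add_zero, add_zero,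
            abs_of_nonneg (by linarith)]
          linarith [e1.1, e1.2]
      have hr : t' ≤ b + τ := by
        by_contra hcon
        push Not at hcon
        apply hnear 1
        refine ⟨y + τ, by linarith, ?_, ?_⟩
        · simp only [childSegs, Matrix.cons_val]; linarith
        · rw [childSegs_pt1, ← hpc]
          refine le_trans (s.norm_pt_sub_le hw _ _ _ _) ?_
          rw [show y - (-τ + (y + τ)) = 0 by ring, abs_zero, add_zero, sub_zero,
            abs_of_nonpos (by linarith)]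
          linarith [e1.1, e1.2]
      have hbot : -τ ≤ y' := by
        by_contra hcon
        push Not at hcon
        apply hnear 0
        refine ⟨t - (a - τ), by linarith, ?_, ?_⟩
        · simp only [childSegs, Matrix.cons_val]; linarith
        · rw [childSegs_pt0, ← hpc]
          refine le_trans (s.norm_pt_sub_le hw _ _ _ _) ?_
          rw [show t - (a - τ + (t - (a - τ))) = 0 by ring, abs_zero, zero_add, add_zero,
            abs_of_nonneg (by linarith)]
          linarith [e2.1, e2.2]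
      have htop : τ < y' := by
        by_contra hcon
        push Not at hcon
        exact hin ⟨hl, hr, hbot, hcon⟩
      have hy3 : τ - 3 * d ≤ y := by linarith [e2.1, e2.2]
      have ht0 : 0 ≤ t' := by
        by_contra hcon
        push Not at hcon
        apply hnear 3
        refine ⟨a + τ - t, by linarith [e1.1, e1.2], ?_, ?_⟩
        · simp only [childSegs, Matrix.cons_val]; linarith
        · rw [childSegs_pt3, ← hpc]
          refine le_trans (s.norm_pt_sub_le hw _ _ _ _) ?_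
          rw [show t - (a + τ - (a + τ - t)) = 0 by ring, abs_zero, zero_add, sub_zero,
            abs_of_nonpos (by linarith)]
          linarith
      have htl : t' ≤ s.len := by
        by_contra hcon
        push Not at hcon
        apply hnear 2
        refine ⟨b + τ - t, by linarith, ?_, ?_⟩
        · simp only [childSegs, Matrix.cons_val]; linarith [e1.1, e1.2]
        · rw [childSegs_pt2, ← hpc]
          refine le_trans (s.norm_pt_sub_le hw _ _ _ _) ?_
          rw [show t - (b + τ - (b + τ - t)) = 0 by ring, abs_zero, zero_add, sub_zero,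
            abs_of_nonpos (by linarith)]
          linarith
      have hG : β' ∈ G := by
        rw [← hpc']
        apply hcollar _ _ ht0 htl (by linarith) (by linarith [e2.1, e2.2])
      apply hcore β' hG
      have hRle : Rf s a b τ d ρ ρ' M β ≤ ρ' := by
        apply Rf_le_of_mI
        unfold mI
        refine le_trans (min_le_right _ _) (le_trans (min_le_right _ _) ?_)
        linarith
      have he : Real.exp (-(3/5) / M) ≤ 1 := by
        rw [Real.exp_le_one_iff, neg_div]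
        have : 0 ≤ (3/5 : ℝ) / M := by positivity
        linarith
      have hR0 : ‖φ - c'‖ ≤ ρ' := le_trans hφ hRle
      have h5 : ‖φ' - c'‖ ≤ ρ' := by
        refine le_trans hφ' ?_
        calc ‖φ - c'‖ * Real.exp (-(3/5) / M) ≤ ρ' * 1 := by gcongr
          _ = ρ' := mul_one _
      calc ‖φ' - c‖ = ‖(φ' - c') + (c' - c)‖ := by congr 1; ring
        _ ≤ ‖φ' - c'‖ + ‖c' - c‖ := norm_add_le _ _
        _ ≤ ρ := by linarith
  · -- inner disc
    intro β' φ' hβ' hφ'
    have he : Real.exp 1 ≤ 2.8 := by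
      have := Real.exp_one_lt_d9
      linarith
    have h1 : ‖φ - c'‖ ≤ 5/4 * ρ := le_trans hφ (Rf_le_left _ _ _ _ _ _ _ _ _)
    have h2 : ‖φ' - c‖ ≤ 4 * ρ := by
      calc ‖φ' - c‖ = ‖(φ' - c') + (c' - c)‖ := by congr 1; ring
        _ ≤ ‖φ' - c'‖ + ‖c' - c‖ := norm_add_le _ _
        _ ≤ 2.8 * (5/4 * ρ) + ρ / 4 := by
            gcongr
            exact le_trans hφ' (by gcongr)
        _ ≤ 4 * ρ := by linarith
    exact hsheet β' φ' hβ' (le_trans (Complex.abs_re_le_norm _) h2)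
      (le_trans (Complex.abs_im_le_norm _) h2)

end Pool.Agent.H99.PC
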