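import Pool.Agent.H99.PC.Ko

/-!
[H99 PC CNT] few primes have a given order or a given rank.
PROOF. card_ko: all these primes divide 2^k - 1, which is > 0; so the set is contained in (2^k - 1).primeFactors, whose
product divides 2^k - 1 and is at least 2^card: 2^card <= 2^k - 1 < 2^k, card <= k (or Nat.card_primeFactors type lemmas:
card primeFactors <= log2). card_zr: they divide F_j, 0 < F_j < 2^j (Nat.fib_lt... prove F_j < 2^j by strong induction).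
ko_small: ko p is between 1 and t = floor T; sum_{k=1}^{t} k = t(t+1)/2 <= t^2 <= T^2 (card_biUnion_le or card_eq_sum_card_fiberwise).
zr_small: the same with zr_pos.
-/

namespace Pool.Agent.H99.PC

open Finset Classical

/-- A set of primes all dividing a number `N ≤ 2 ^ k`, `N > 0`, has at most `k` elements. -/
theorem card_primes_dvd {N k : ℕ} (hN : 0 < N) (hk : N ≤ 2 ^ k) (s : Finset ℕ)
    (hs : ∀ p ∈ s, p.Prime ∧ p ∣ N) : s.card ≤ k := by
  have h1 : ∏ p ∈ s, p ∣ N := by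
    apply Finset.prod_primes_dvd
    · intro p hp
      exact (hs p hp).1.prime
    · intro p hp
      exact (hs p hp).2
  have h2 : 2 ^ s.card ≤ ∏ p ∈ s, p :=
    Finset.pow_card_le_prod s _ 2 fun p hp => (hs p hp).1.two_le
  have h3 : 2 ^ s.card ≤ 2 ^ k := h2.trans ((Nat.le_of_dvd hN h1).trans hk)
  exact (Nat.pow_le_pow_iff_right (by norm_num)).1 h3

theorem fib_le_two_pow (n : ℕ) : Nat.fib n ≤ 2 ^ n := by
  induction n using Nat.strong_induction_on with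
  | _ n ih =>
    rcases n with _ | _ | n
    · simp
    · simp
    · rw [Nat.fib_add_two]
      have h1 := ih n (by omega)
      have h2 := ih (n + 1) (by omega)
      have h3 : 2 ^ (n + 1) = 2 * 2 ^ n := by ring
      have h4 : 2 ^ (n + 1 + 1) = 4 * 2 ^ n := by ring
      omega

theorem card_ko (N k : ℕ) (hk : 0 < k) :
    ((range N).filter (fun p => p.Prime ∧ p ≠ 2 ∧ ko p = k)).card ≤ k := by
  have h1 : 2 ≤ 2 ^ k := by
    calc 2 = 2 ^ 1 := by norm_num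
      _ ≤ 2 ^ k := Nat.pow_le_pow_right (by norm_num) hk
  refine card_primes_dvd (N := 2 ^ k - 1) (by omega) (Nat.sub_le _ _) _ fun p hp => ?_
  rw [mem_filter] at hp
  exact ⟨hp.2.1, ko_dvd_iff.1 (by rw [hp.2.2.2])⟩

theorem card_zr (N j : ℕ) (hj : 0 < j) :
    ((range N).filter (fun p => p.Prime ∧ zr p = j)).card ≤ j := by
  refine card_primes_dvd (N := Nat.fib j) (Nat.fib_pos.2 hj) (fib_le_two_pow j) _ fun p hp => ?_
  rw [mem_filter] at hp
  exact ⟨hp.2.1, (zr_spec p hp.2.1 j).1 (by rw [hp.2.2])⟩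

theorem sum_le_sq (T : ℝ) (hT : 0 ≤ T) : ((∑ k ∈ Ioc 0 ⌊T⌋₊, k : ℕ) : ℝ) ≤ T ^ 2 := by
  obtain ⟨t, ht⟩ : ∃ t, t = ⌊T⌋₊ := ⟨_, rfl⟩
  rw [← ht]
  have h1 : ∑ k ∈ Ioc 0 t, k ≤ t * t := by
    have h2 : ∑ k ∈ Ioc 0 t, k ≤ ∑ k ∈ Ioc 0 t, t :=
      Finset.sum_le_sum fun k hk => (mem_Ioc.1 hk).2
    rw [Finset.sum_const, Nat.card_Ioc] at h2
    simpa using h2
  have h3 : (t : ℝ) ≤ T := by
    rw [ht]
    exact Nat.floor_le hT
  have h4 : ((∑ k ∈ Ioc 0 t, k : ℕ) : ℝ) ≤ ((t * t : ℕ) : ℝ) := by exact_mod_cast h1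
  refine h4.trans ?_
  push_cast
  have h5 : (0 : ℝ) ≤ t := Nat.cast_nonneg t
  nlinarith

theorem ko_small (N : ℕ) (T : ℝ) (hT : 0 ≤ T) :
    (((range N).filter (fun p => p.Prime ∧ p ≠ 2 ∧ (ko p : ℝ) ≤ T)).card : ℝ) ≤ T ^ 2 := by
  refine le_trans ?_ (sum_le_sq T hT)
  have h1 : ((range N).filter (fun p => p.Prime ∧ p ≠ 2 ∧ (ko p : ℝ) ≤ T)) ⊆
      (Ioc 0 ⌊T⌋₊).biUnion fun k => (range N).filter (fun p => p.Prime ∧ p ≠ 2 ∧ ko p = k) := by
    intro p hp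
    rw [mem_filter] at hp
    rw [mem_biUnion]
    refine ⟨ko p, ?_, ?_⟩
    · rw [mem_Ioc]
      exact ⟨ko_pos p hp.2.1 hp.2.2.1, Nat.le_floor hp.2.2.2⟩
    · rw [mem_filter]
      exact ⟨hp.1, hp.2.1, hp.2.2.1, rfl⟩
  have h2 : ((range N).filter (fun p => p.Prime ∧ p ≠ 2 ∧ (ko p : ℝ) ≤ T)).card ≤
      ∑ k ∈ Ioc 0 ⌊T⌋₊, k := by
    refine (Finset.card_le_card h1).trans (Finset.card_biUnion_le.trans ?_)
    exact Finset.sum_le_sum fun k hk => card_ko N k (mem_Ioc.1 hk).1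
  exact_mod_cast h2

theorem zr_small (N : ℕ) (T : ℝ) (hT : 0 ≤ T) :
    (((range N).filter (fun p => p.Prime ∧ (zr p : ℝ) ≤ T)).card : ℝ) ≤ T ^ 2 := by
  refine le_trans ?_ (sum_le_sq T hT)
  have h1 : ((range N).filter (fun p => p.Prime ∧ (zr p : ℝ) ≤ T)) ⊆
      (Ioc 0 ⌊T⌋₊).biUnion fun k => (range N).filter (fun p => p.Prime ∧ zr p = k) := by
    intro p hp
    rw [mem_filter] at hp
    rw [mem_biUnion]
    refine ⟨zr p, ?_, ?_⟩
    · rw [mem_Ioc]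
      exact ⟨zr_pos p hp.2.1, Nat.le_floor hp.2.2⟩
    · rw [mem_filter]
      exact ⟨hp.1, hp.2.1, rfl⟩
  have h2 : ((range N).filter (fun p => p.Prime ∧ (zr p : ℝ) ≤ T)).card ≤
      ∑ k ∈ Ioc 0 ⌊T⌋₊, k := by
    refine (Finset.card_le_card h1).trans (Finset.card_biUnion_le.trans ?_)
    exact Finset.sum_le_sum fun k hk => card_zr N k (mem_Ioc.1 hk).1
  exact_mod_cast h2

end Pool.Agent.H99.PC
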