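import Mathlib

/-!
MP_2a11a1_nt (PSW / Selfridge): the number of counterexamples up to x.  Definitions.
Paper proof: table proofs, id 366.
-/

namespace Pool.Agent.H99.PC

/-- counterexamples to Q1: composite Selfridge numbers (n = 1 is excluded by n % 5) -/
def Sel (n : ℕ) : Prop :=
  Odd n ∧ (n % 5 = 2 ∨ n % 5 = 3) ∧ 2 ^ (n - 1) ≡ 1 [MOD n] ∧ n ∣ Nat.fib (n + 1) ∧ ¬ n.Prime

/-- the order of 2 modulo p -/
noncomputable def ko (p : ℕ) : ℕ := orderOf (2 : ZMod p)

/-- the rank of apparition of p in the Fibonacci sequence -/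
noncomputable def zr (p : ℕ) : ℕ := sInf {m : ℕ | 0 < m ∧ p ∣ Nat.fib m}

/-- primes p, different from 2 and 5, with ko p dividing f and zr p dividing g -/
def Pr (f g p : ℕ) : Prop := p.Prime ∧ p ≠ 2 ∧ p ≠ 5 ∧ ko p ∣ f ∧ zr p ∣ g

/-- lcm of the orders of 2 over the prime factors of d -/
noncomputable def kl (d : ℕ) : ℕ := d.primeFactors.lcm ko

/-- lcm of the ranks of apparition over the prime factors of d -/
noncomputable def zl (d : ℕ) : ℕ := d.primeFactors.lcm zr

/-- weighted divisor sum -/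
noncomputable def E (a : ℝ) (f : ℕ) : ℝ := ∑ k ∈ f.divisors, (k : ℝ) ^ (-1 + a)

/-- logloglog x / loglog x; so L(x) = exp (log x * lam x) -/
noncomputable def lam (x : ℝ) : ℝ :=
  Real.log (Real.log (Real.log x)) / Real.log (Real.log x)

end Pool.Agent.H99.PC
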