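import Pool.Agent.H99.PC.Defs

/-!
[H99 PC DYA] dyadic decomposition.
PROOF. Every p with 2^m < p <= N lies in exactly one block (2^i, 2^(i+1)] with i >= m and 2^i < N (i = the largest i with
2^i < p); there p^(-1+d) <= (2^i)^(-1+d) as -1 + d <= 0. The sum over i in Ico m M covers all blocks when 2^M >= N.
-/

namespace Pool.Agent.H99.PC

open Finset Classical

theorem dyadic (Q : ℕ → Prop) (m M N : ℕ) (hM : N ≤ 2 ^ M) (d : ℝ) (hd : d ≤ 1) :
    ∑ p ∈ (Ioc (2 ^ m) N).filter Q, (p : ℝ) ^ (-1 + d) ≤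
      ∑ i ∈ Ico m M, ((2 : ℝ) ^ i) ^ (-1 + d) *
        (((Ioc (2 ^ i) (2 * 2 ^ i)).filter Q).card : ℝ) := by
  have h1 : (Ioc (2 ^ m) N).filter Q ⊆
      (Ico m M).biUnion (fun i => (Ioc (2 ^ i) (2 * 2 ^ i)).filter Q) := by
    intro p hp
    rw [Finset.mem_filter, Finset.mem_Ioc] at hp
    obtain ⟨⟨h2, h3⟩, h4⟩ := hp
    have h5 : 1 ≤ 2 ^ m := Nat.one_le_two_pow
    have h6 : p - 1 ≠ 0 := by omega
    have h7 := Nat.pow_log_le_self 2 h6
    have h8 := Nat.lt_pow_succ_log_self (b := 2) (by norm_num) (p - 1)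
    rw [pow_succ] at h8
    rw [Finset.mem_biUnion]
    refine ⟨Nat.log 2 (p - 1), ?_, ?_⟩
    · rw [Finset.mem_Ico]
      constructor
      · exact Nat.le_log_of_pow_le (by norm_num) (by omega)
      · rw [← Nat.pow_lt_pow_iff_right (a := 2) (by norm_num)]
        omega
    · rw [Finset.mem_filter, Finset.mem_Ioc]
      refine ⟨⟨by omega, by omega⟩, h4⟩
  calc _ ≤ ∑ p ∈ (Ico m M).biUnion (fun i => (Ioc (2 ^ i) (2 * 2 ^ i)).filter Q),
        (p : ℝ) ^ (-1 + d) := by
        apply Finset.sum_le_sum_of_subset_of_nonneg h1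
        intro i _ _
        positivity
    _ ≤ ∑ i ∈ Ico m M, ∑ p ∈ (Ioc (2 ^ i) (2 * 2 ^ i)).filter Q, (p : ℝ) ^ (-1 + d) := by
        rw [Finset.sum_biUnion]
        intro i _ j _ hij
        apply Finset.disjoint_filter_filter
        rw [Finset.disjoint_left]
        intro q hq hq'
        rw [Finset.mem_Ioc] at hq hq'
        rcases Nat.lt_or_gt_of_ne hij with h | h
        · have h9 : 2 ^ (i + 1) ≤ 2 ^ j := Nat.pow_le_pow_right (by norm_num) h
          rw [pow_succ] at h9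
          omega
        · have h9 : 2 ^ (j + 1) ≤ 2 ^ i := Nat.pow_le_pow_right (by norm_num) h
          rw [pow_succ] at h9
          omega
    _ ≤ _ := by
        apply Finset.sum_le_sum
        intro i _
        rw [mul_comm (((2 : ℝ) ^ i) ^ (-1 + d)), ← nsmul_eq_mul]
        apply Finset.sum_le_card_nsmul
        intro p hp
        rw [Finset.mem_filter, Finset.mem_Ioc] at hp
        have h9 : ((2 : ℝ) ^ i) ≤ p := by exact_mod_cast hp.1.1.le
        exact Real.rpow_le_rpow_of_nonpos (by positivity) h9 (by linarith)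

end Pool.Agent.H99.PC
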