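import Pool.Agent.H99.PC.Lc1

/-!
[H99 PC LC2/LC] Lemma C.
PROOF. lc_sum: every prime p in (y, X] lies in a block (2^i y, 2^(i+1) y] with i < X; lc1 with P = 2^i y; the sum of
2 / sqrt(2^i y) over i is at most (2/sqrt y) / (1 - 1/sqrt 2) <= 7 / sqrt y (1/(1-0.7072) <= 3.42).
lc_mult: n composite Selfridge with p | n, p prime: n = p m, m > 1 (n is not prime), and n - 1, p - 1 are divisible by
ko p, so m - 1 is: p (m - 1) = (n - 1) - (p - 1), gcd(p, ko p) = 1 as ko p | p - 1 (or: p m = 1, p = 1 mod ko p).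
So m = 1 + t ko p with 1 <= t, t ko p < m <= X / p: at most X / (p ko p) values.
large_prime: union over the primes p in (y, X] (p <= n <= X).
-/

namespace Pool.Agent.H99.PC

open Finset Classical

private theorem root_facts : 0 < 1 / Real.sqrt 2 ∧ 1 / Real.sqrt 2 ≤ 5 / 7 := by
  have h2 : (0 : ℝ) < Real.sqrt 2 := Real.sqrt_pos.mpr (by norm_num)
  refine ⟨by positivity, ?_⟩
  rw [div_le_div_iff₀ h2 (by norm_num)]
  have h3 : (7 / 5 : ℝ) ≤ Real.sqrt 2 := by
    apply Real.le_sqrt_of_sq_le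
    norm_num
  linarith

private theorem lc_aux (y : ℕ) (hy : 1 ≤ y) (M : ℕ) :
    ∑ p ∈ (Ioc y (2 ^ M * y)).filter (fun p => p.Prime ∧ p ≠ 2), 1 / ((p : ℝ) * ko p) ≤
      7 / Real.sqrt y * (1 - (1 / Real.sqrt 2) ^ M) := by
  have hy0 : (0 : ℝ) < Real.sqrt y := Real.sqrt_pos.mpr (by exact_mod_cast hy)
  obtain ⟨hr0, hr1⟩ := root_facts
  induction M with
  | zero => simp
  | succ M ih =>
    have h1 : y ≤ 2 ^ M * y := Nat.le_mul_of_pos_left y (by positivity)
    have h2 : 2 ^ M * y ≤ 2 ^ (M + 1) * y := by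
      rw [pow_succ]
      nlinarith [Nat.pos_of_ne_zero (show 2 ^ M * y ≠ 0 by positivity)]
    rw [← Finset.Ioc_union_Ioc_eq_Ioc h1 h2, Finset.filter_union, Finset.sum_union]
    · have h3 := lc1 (2 ^ M * y) (Nat.one_le_iff_ne_zero.mpr (by positivity))
      have h4 : 2 * (2 ^ M * y) = 2 ^ (M + 1) * y := by rw [pow_succ]; ring
      rw [h4] at h3
      have h5 : (2 : ℝ) / Real.sqrt ((2 ^ M * y : ℕ) : ℝ) = 2 / Real.sqrt y * (1 / Real.sqrt 2) ^ M := by
        push_cast
        rw [Real.sqrt_mul (by positivity)]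
        have h6 : Real.sqrt (2 ^ M) = Real.sqrt 2 ^ M := by
          rw [Real.sqrt_eq_iff_mul_self_eq (by positivity) (by positivity), ← mul_pow,
            Real.mul_self_sqrt (by norm_num)]
        rw [h6, one_div, inv_pow]
        field_simp
      rw [h5] at h3
      have h7 : 2 / Real.sqrt y * (1 / Real.sqrt 2) ^ M ≤
          7 / Real.sqrt y * ((1 / Real.sqrt 2) ^ M - (1 / Real.sqrt 2) ^ (M + 1)) := by
        have h8 : 0 ≤ (1 / Real.sqrt 2) ^ M / Real.sqrt y := by positivity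
        have h9 : 7 / Real.sqrt y * ((1 / Real.sqrt 2) ^ M - (1 / Real.sqrt 2) ^ (M + 1)) -
            2 / Real.sqrt y * (1 / Real.sqrt 2) ^ M =
            ((1 / Real.sqrt 2) ^ M / Real.sqrt y) * (5 - 7 * (1 / Real.sqrt 2)) := by
          rw [pow_succ]
          ring
        have h10 : 0 ≤ ((1 / Real.sqrt 2) ^ M / Real.sqrt y) * (5 - 7 * (1 / Real.sqrt 2)) :=
          mul_nonneg h8 (by linarith)
        linarith
      calc _ ≤ 7 / Real.sqrt y * (1 - (1 / Real.sqrt 2) ^ M) +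
            2 / Real.sqrt y * (1 / Real.sqrt 2) ^ M := add_le_add ih h3
        _ ≤ 7 / Real.sqrt y * (1 - (1 / Real.sqrt 2) ^ M) +
            7 / Real.sqrt y * ((1 / Real.sqrt 2) ^ M - (1 / Real.sqrt 2) ^ (M + 1)) := by linarith
        _ = _ := by ring
    · apply Finset.disjoint_filter_filter
      rw [Finset.disjoint_left]
      intro q hq hq'
      rw [Finset.mem_Ioc] at hq hq'
      omega

theorem lc_sum (X y : ℕ) (hy : 1 ≤ y) :
    ∑ p ∈ (Ioc y X).filter (fun p => p.Prime ∧ p ≠ 2), 1 / ((p : ℝ) * ko p) ≤ 7 / Real.sqrt y := by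
  have hy0 : (0 : ℝ) < Real.sqrt y := Real.sqrt_pos.mpr (by exact_mod_cast hy)
  obtain ⟨hr0, hr1⟩ := root_facts
  have h1 : X ≤ 2 ^ X * y := by
    have h2 : X < 2 ^ X := Nat.lt_two_pow_self
    nlinarith [Nat.pos_of_ne_zero (show 2 ^ X ≠ 0 by positivity)]
  calc _ ≤ ∑ p ∈ (Ioc y (2 ^ X * y)).filter (fun p => p.Prime ∧ p ≠ 2), 1 / ((p : ℝ) * ko p) := by
        apply Finset.sum_le_sum_of_subset_of_nonneg
        · apply Finset.filter_subset_filter
          exact Finset.Ioc_subset_Ioc_right h1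
        · intro i _ _
          positivity
    _ ≤ _ := lc_aux y hy X
    _ ≤ 7 / Real.sqrt y * 1 := by
        apply mul_le_mul_of_nonneg_left _ (by positivity)
        have : 0 ≤ (1 / Real.sqrt 2) ^ X := by positivity
        linarith
    _ = _ := mul_one _

theorem lc_mult (X p : ℕ) (hp : p.Prime) (h2 : p ≠ 2) :
    (((range (X + 1)).filter (fun n => Sel n ∧ p ∣ n)).card : ℝ) ≤ X / ((p : ℝ) * ko p) := by
  have hk0 := ko_pos p hp h2
  have hkp := ko_dvd p hp h2
  have hcop : Nat.Coprime p (ko p) := by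
    rw [hp.coprime_iff_not_dvd]
    intro h
    have h3 := Nat.le_of_dvd (by have := hp.two_le; omega) (h.trans hkp)
    have := hp.two_le
    omega
  have key : ∀ n ∈ (range (X + 1)).filter (fun n => Sel n ∧ p ∣ n),
      ∃ t, 1 ≤ t ∧ n = p * (1 + ko p * t) ∧ p * ko p * t ≤ X := by
    intro n hn
    rw [Finset.mem_filter, Finset.mem_range] at hn
    obtain ⟨hnX, hs, m, rfl⟩ := hn
    obtain ⟨_, _, h5, _⟩ := sel_prime _ p hs hp (Dvd.intro m rfl)
    have hodd := hs.1
    have hm0 : m ≠ 0 := by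
      rintro rfl
      simp at hodd
    have hm1 : m ≠ 1 := by
      rintro rfl
      have := hs.2.2.2.2
      rw [mul_one] at this
      exact this hp
    obtain ⟨u, rfl⟩ : ∃ u, m = u + 2 := ⟨m - 2, by omega⟩
    have h6 : ko p ∣ p * (u + 1) := by
      have h7 : p * (u + 2) - 1 = p * (u + 1) + (p - 1) := by
        have := hp.two_le
        have h8 : p * (u + 2) = p * (u + 1) + p := by ring
        omega
      rw [h7] at h5
      exact (Nat.dvd_add_left hkp).mp h5
    obtain ⟨t, ht⟩ := (Nat.Coprime.dvd_mul_left hcop.symm).mp h6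
    refine ⟨t, ?_, ?_, ?_⟩
    · rcases Nat.eq_zero_or_pos t with h | h
      · rw [h] at ht
        simp at ht
      · exact h
    · rw [← ht]
      ring
    · rw [mul_assoc, ← ht]
      have : p * (u + 2) = p * (u + 1) + p := by ring
      omega
  choose! t ht using key
  have h3 : ((range (X + 1)).filter (fun n => Sel n ∧ p ∣ n)).card ≤
      (Icc 1 (X / (p * ko p))).card := by
    apply Finset.card_le_card_of_injOn t
    · intro n hn
      obtain ⟨h4, _, h6⟩ := ht n hn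
      rw [Finset.mem_coe, Finset.mem_Icc]
      refine ⟨h4, ?_⟩
      rw [Nat.le_div_iff_mul_le (Nat.mul_pos hp.pos hk0)]
      linarith
    · intro a ha b hb hab
      rw [(ht a ha).2.1, (ht b hb).2.1, hab]
  rw [Nat.card_Icc, Nat.add_sub_cancel] at h3
  calc _ ≤ ((X / (p * ko p) : ℕ) : ℝ) := by exact_mod_cast h3
    _ ≤ (X : ℝ) / ((p * ko p : ℕ) : ℝ) := Nat.cast_div_le
    _ = _ := by push_cast; rfl

theorem large_prime (X y : ℕ) (hy : 1 ≤ y) :
    (((range (X + 1)).filter (fun n => Sel n ∧ ∃ p : ℕ, p.Prime ∧ y < p ∧ p ∣ n)).card : ℝ) ≤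
      7 * X / Real.sqrt y := by
  have h1 : (range (X + 1)).filter (fun n => Sel n ∧ ∃ p : ℕ, p.Prime ∧ y < p ∧ p ∣ n) ⊆
      ((Ioc y X).filter (fun p => p.Prime ∧ p ≠ 2)).biUnion
        (fun p => (range (X + 1)).filter (fun n => Sel n ∧ p ∣ n)) := by
    intro n hn
    rw [Finset.mem_filter, Finset.mem_range] at hn
    obtain ⟨hnX, hs, p, hp, hyp, hpn⟩ := hn
    rw [Finset.mem_biUnion]
    refine ⟨p, ?_, ?_⟩
    · rw [Finset.mem_filter, Finset.mem_Ioc]
      have hn0 : 0 < n := hs.1.pos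
      have := Nat.le_of_dvd hn0 hpn
      exact ⟨⟨hyp, by omega⟩, hp, (sel_prime n p hs hp hpn).1⟩
    · rw [Finset.mem_filter, Finset.mem_range]
      exact ⟨hnX, hs, hpn⟩
  have h2 : ((range (X + 1)).filter
      (fun n => Sel n ∧ ∃ p : ℕ, p.Prime ∧ y < p ∧ p ∣ n)).card ≤
      ∑ p ∈ (Ioc y X).filter (fun p => p.Prime ∧ p ≠ 2),
        ((range (X + 1)).filter (fun n => Sel n ∧ p ∣ n)).card :=
    (Finset.card_le_card h1).trans Finset.card_biUnion_le
  calc _ ≤ ((∑ p ∈ (Ioc y X).filter (fun p => p.Prime ∧ p ≠ 2),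
        ((range (X + 1)).filter (fun n => Sel n ∧ p ∣ n)).card : ℕ) : ℝ) := by exact_mod_cast h2
    _ = ∑ p ∈ (Ioc y X).filter (fun p => p.Prime ∧ p ≠ 2),
        (((range (X + 1)).filter (fun n => Sel n ∧ p ∣ n)).card : ℝ) := by push_cast; rfl
    _ ≤ ∑ p ∈ (Ioc y X).filter (fun p => p.Prime ∧ p ≠ 2), X * (1 / ((p : ℝ) * ko p)) := by
        apply Finset.sum_le_sum
        intro p hp
        rw [Finset.mem_filter] at hp
        have := lc_mult X p hp.2.1 hp.2.2
        rwa [mul_one_div]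
    _ = X * ∑ p ∈ (Ioc y X).filter (fun p => p.Prime ∧ p ≠ 2), 1 / ((p : ℝ) * ko p) := by
        rw [Finset.mul_sum]
    _ ≤ X * (7 / Real.sqrt y) := by
        apply mul_le_mul_of_nonneg_left (lc_sum X y hy) (Nat.cast_nonneg X)
    _ = _ := by ring

end Pool.Agent.H99.PC
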