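import Pool.Agent.H99.PC.Fia
import Pool.Agent.H99.PC.Cls
import Pool.Agent.H99.PC.Lc
import Pool.Agent.H99.PC.Smd

/-!
[H99 PC FI0] the final inequality between numbers.
PROOF. Selfridge counterexamples n <= X: (i) n <= D: at most D of them (n >= 1). (ii) n has a prime factor > y:
large_prime. (iii) n > D and all prime factors <= y: smooth_divisor (k = n, A = D, H = y) gives d | n with
D/y < d <= D. Let T be the set of the d in Ioc 0 floor(D) with D/y < d which divide some Selfridge counterexample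
n <= X. card T <= D; class_count for every d in T; sum_d with Z = D/y.
-/

namespace Pool.Agent.H99.PC

open Finset Classical

private theorem sel_pos {n : ℕ} (h : Sel n) : 0 < n := by
  obtain ⟨k, hk⟩ := h.1
  omega

theorem main_bound (X y : ℕ) (D a S : ℝ) (hy : 1 ≤ y) (hD : 1 ≤ D) (ha0 : 0 ≤ a) (ha : a ≤ 1 / 4)
    (hS : ∀ f g : ℕ, 0 < f → 0 < g → f ≤ X + 1 → g ≤ X + 1 → Nat.gcd f g ∣ 2 →
      ∑ p ∈ (range (X + 1)).filter (fun p => Pr f g p), (p : ℝ) ^ (-1 + a) ≤ S) :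
    (((range (X + 1)).filter (fun n => Sel n)).card : ℝ) ≤
      2 * D + 7 * X / Real.sqrt y +
      2 * X * ((1 + Real.log (X + 1)) ^ 2 * (D / y) ^ (-a) * Real.exp (2 * S)) := by
  have hy0 : (0 : ℝ) < y := by exact_mod_cast hy
  have hD0 : 0 < D := by linarith
  set T : Finset ℕ := (Ioc 0 ⌊D⌋₊).filter
    (fun d => D / y < (d : ℝ) ∧ ∃ n : ℕ, Sel n ∧ n ≤ X ∧ d ∣ n) with hTdef
  have hTmem : ∀ d ∈ T, 0 < d ∧ D / y < (d : ℝ) ∧ ∃ n : ℕ, Sel n ∧ n ≤ X ∧ d ∣ n := by
    intro d hd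
    rw [hTdef, Finset.mem_filter, Finset.mem_Ioc] at hd
    exact ⟨hd.1.1, hd.2.1, hd.2.2⟩
  have hTcard : (T.card : ℝ) ≤ D := by
    have h1 : T.card ≤ ⌊D⌋₊ := by
      refine le_trans (Finset.card_le_card (Finset.filter_subset _ _)) ?_
      rw [Nat.card_Ioc]; omega
    calc (T.card : ℝ) ≤ (⌊D⌋₊ : ℝ) := by exact_mod_cast h1
      _ ≤ D := Nat.floor_le hD0.le
  have hcover : (range (X + 1)).filter (fun n => Sel n) ⊆
      (Ioc 0 ⌊D⌋₊ ∪ (range (X + 1)).filter (fun n => Sel n ∧ ∃ p : ℕ, p.Prime ∧ y < p ∧ p ∣ n)) ∪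
      T.biUnion (fun d => (range (X + 1)).filter (fun n => Sel n ∧ d ∣ n)) := by
    intro n hn
    rw [Finset.mem_filter, Finset.mem_range] at hn
    obtain ⟨hnX, hsel⟩ := hn
    have hn0 := sel_pos hsel
    rw [Finset.mem_union, Finset.mem_union]
    by_cases h1 : (n : ℝ) ≤ D
    · left; left
      rw [Finset.mem_Ioc]
      exact ⟨hn0, Nat.le_floor h1⟩
    · by_cases h2 : ∃ p : ℕ, p.Prime ∧ y < p ∧ p ∣ n
      · left; right
        rw [Finset.mem_filter, Finset.mem_range]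
        exact ⟨hnX, hsel, h2⟩
      · right
        have hD1 : D / y < (n : ℝ) := by
          have h3 : D / y ≤ D := div_le_self hD0.le (by exact_mod_cast hy)
          linarith [not_le.mp h1]
        obtain ⟨m, hm1, hm2, hm3⟩ := smooth_divisor n hn0 D y hD (by exact_mod_cast hy) hD1 (by
          intro q hq hqn
          by_contra hcon
          apply h2
          refine ⟨q, hq, ?_, hqn⟩
          exact_mod_cast not_le.mp hcon)
        rw [Finset.mem_biUnion]
        refine ⟨m, ?_, ?_⟩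
        · rw [hTdef, Finset.mem_filter, Finset.mem_Ioc]
          exact ⟨⟨Nat.pos_of_dvd_of_pos hm1 hn0, Nat.le_floor hm3⟩, hm2, n, hsel, by omega, hm1⟩
        · rw [Finset.mem_filter, Finset.mem_range]
          exact ⟨hnX, hsel, hm1⟩
  have hcard1 : ((range (X + 1)).filter (fun n => Sel n)).card ≤
      ((Ioc 0 ⌊D⌋₊).card + ((range (X + 1)).filter
        (fun n => Sel n ∧ ∃ p : ℕ, p.Prime ∧ y < p ∧ p ∣ n)).card) +
      ∑ d ∈ T, ((range (X + 1)).filter (fun n => Sel n ∧ d ∣ n)).card := by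
    refine le_trans (Finset.card_le_card hcover) ?_
    refine le_trans (Finset.card_union_le _ _) ?_
    exact Nat.add_le_add (Finset.card_union_le _ _) Finset.card_biUnion_le
  have hcard2 : (((range (X + 1)).filter (fun n => Sel n)).card : ℝ) ≤
      (((Ioc 0 ⌊D⌋₊).card : ℝ) + (((range (X + 1)).filter
        (fun n => Sel n ∧ ∃ p : ℕ, p.Prime ∧ y < p ∧ p ∣ n)).card : ℝ)) +
      ∑ d ∈ T, (((range (X + 1)).filter (fun n => Sel n ∧ d ∣ n)).card : ℝ) := by
    exact_mod_cast hcard1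
  have hI : ((Ioc 0 ⌊D⌋₊).card : ℝ) ≤ D := by
    rw [Nat.card_Ioc, Nat.sub_zero]
    exact Nat.floor_le hD0.le
  have hII := large_prime X y hy
  have hIII : ∑ d ∈ T, (((range (X + 1)).filter (fun n => Sel n ∧ d ∣ n)).card : ℝ) ≤
      D + 2 * X * ((1 + Real.log (X + 1)) ^ 2 * (D / y) ^ (-a) * Real.exp (2 * S)) := by
    have h1 : ∑ d ∈ T, (((range (X + 1)).filter (fun n => Sel n ∧ d ∣ n)).card : ℝ) ≤
        ∑ d ∈ T, (1 + 2 * X * (1 / ((d : ℝ) * kl d * zl d))) := by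
      apply Finset.sum_le_sum
      intro d hd
      have h2 := class_count X d (hTmem d hd).1
      calc _ ≤ 1 + 2 * X / ((d : ℝ) * kl d * zl d) := h2
        _ = 1 + 2 * X * (1 / ((d : ℝ) * kl d * zl d)) := by rw [mul_one_div]
    have h3 := sum_d X T (D / y) a S (by positivity) ha0 ha
      (fun d hd => ⟨(hTmem d hd).2.1, (hTmem d hd).2.2⟩) hS
    calc _ ≤ ∑ d ∈ T, (1 + 2 * X * (1 / ((d : ℝ) * kl d * zl d))) := h1
      _ = (T.card : ℝ) + 2 * X * ∑ d ∈ T, 1 / ((d : ℝ) * kl d * zl d) := by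
        rw [Finset.sum_add_distrib, Finset.sum_const, nsmul_eq_mul, mul_one, ← Finset.mul_sum]
      _ ≤ D + 2 * X * ((1 + Real.log (X + 1)) ^ 2 * (D / y) ^ (-a) * Real.exp (2 * S)) := by
        apply add_le_add hTcard
        exact mul_le_mul_of_nonneg_left h3 (by positivity)
  linarith

end Pool.Agent.H99.PC
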