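import Mathlib

/-!
[H99 PC GEO] geometric sums over powers of 2.
PROOF. ((2^i : ℝ))^(-t) = r^i with r = 2^(-t) < 1; sum over Ico m M <= r^m / (1 - r), and 1 - 2^(-t) >= t/2 for
0 <= t <= 1 (convexity of 2^(-t): 2^(-t) <= 1 - t/2, the chord between t = 0 and t = 1; e.g. from
one_add_mul_self_le... / Real.rpow convexity: (1/2)^t <= 1 + t (1/2 - 1), rpow_one_add_le_one_add_mul_self with
s = -1/2).
-/

namespace Pool.Agent.H99.PC

open Finset

theorem geo (m M : ℕ) (t : ℝ) (h0 : 0 < t) (h1 : t ≤ 1) :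
    ∑ i ∈ Ico m M, ((2 : ℝ) ^ i) ^ (-t) ≤ ((2 : ℝ) ^ m) ^ (-t) * (2 / t) := by
  have h2 : ∀ i : ℕ, ((2 : ℝ) ^ i) ^ (-t) = ((1 / 2 : ℝ) ^ t) ^ i := by
    intro i
    rw [one_div, Real.inv_rpow (by norm_num), ← Real.rpow_neg (by norm_num), ← Real.rpow_natCast,
      ← Real.rpow_natCast, ← Real.rpow_mul (by norm_num), ← Real.rpow_mul (by norm_num), mul_comm]
  have h3 : (1 / 2 : ℝ) ^ t ≤ 1 - t / 2 := by
    have h4 := rpow_one_add_le_one_add_mul_self (s := -1 / 2) (by norm_num) h0.le h1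
    have h5 : (1 + -1 / 2 : ℝ) = 1 / 2 := by norm_num
    rw [h5] at h4
    linarith
  have h6 : (0 : ℝ) ≤ (1 / 2 : ℝ) ^ t := by positivity
  simp_rw [h2]
  calc _ ≤ ((1 / 2 : ℝ) ^ t) ^ m / (1 - (1 / 2 : ℝ) ^ t) :=
        geom_sum_Ico_le_of_lt_one h6 (by linarith)
    _ ≤ ((1 / 2 : ℝ) ^ t) ^ m / (t / 2) := by
        apply div_le_div_of_nonneg_left (by positivity) (by positivity) (by linarith)
    _ = _ := by field_simp

end Pool.Agent.H99.PC
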