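import Pool.Agent.H99.PC.Blk
import Pool.Agent.H99.PC.Dya
import Pool.Agent.H99.PC.Geo

/-!
[H99 PC LA2] the primes above 2^m in Lemma A, as an inequality between numbers.
PROOF. dyadic with Q = Pr f g, then block with P = 2^i in each block, ((2^i : ℕ) : ℝ) = (2:ℝ)^i, and multiply:
(2^i)^(-1+d) (2^i)^(1-2h) = (2^i)^(-(2h-d)), (2^i)^(-1+d) (2^i)^(1-h) = (2^i)^(-(h-d)),
(2^i)^(-1+d) (2^i)^(1-(1-4h)a) = (2^i)^(-((1-4h)a-d)). Then geo three times (with t = 2h-d, h-d, (1-4h)a-d; all in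
(0,1]); in the first and third (2^m)^(-t) <= 1.
-/

namespace Pool.Agent.H99.PC

open Finset Classical

theorem la2 (f g m N : ℕ) (hf : 0 < f) (hg : 0 < g) (hfg : Nat.gcd f g ∣ 2)
    (h a d : ℝ) (h0 : 0 < h) (h1 : h ≤ 1 / 8) (hd : 0 ≤ d) (hdh : d < h) (ha : a ≤ 1)
    (had : d < (1 - 4 * h) * a) :
    ∑ p ∈ (Ioc (2 ^ m) N).filter (fun p => Pr f g p), (p : ℝ) ^ (-1 + d) ≤
      4 / (2 * h - d) +
      8 * ((f.primeFactors.card : ℝ) + g.primeFactors.card) * ((2 : ℝ) ^ m) ^ (-(h - d)) * (2 / (h - d)) +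
      6 * E a f * E a g * (2 / ((1 - 4 * h) * a - d)) := by
  have ha0 : 0 ≤ a := by
    by_contra hc
    rw [not_le] at hc
    have : (1 - 4 * h) * a ≤ 0 := mul_nonpos_of_nonneg_of_nonpos (by linarith) hc.le
    linarith
  have hE : ∀ k : ℕ, 0 ≤ E a k := by
    intro k
    unfold E
    exact sum_nonneg fun x _ => Real.rpow_nonneg (Nat.cast_nonneg x) _
  have hEf := hE f
  have hEg := hE g
  have hdy := dyadic (fun p => Pr f g p) m N N Nat.lt_two_pow_self.le d (by linarith)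
  refine hdy.trans ?_
  obtain ⟨W, hW⟩ : ∃ W : ℝ, W = (f.primeFactors.card : ℝ) + g.primeFactors.card := ⟨_, rfl⟩
  have hW0 : 0 ≤ W := by rw [hW]; positivity
  have hpt : ∀ i ∈ Ico m N, ((2 : ℝ) ^ i) ^ (-1 + d) *
      (((Ioc (2 ^ i) (2 * 2 ^ i)).filter (fun p => Pr f g p)).card : ℝ) ≤
      2 * ((2 : ℝ) ^ i) ^ (-(2 * h - d)) + 8 * W * ((2 : ℝ) ^ i) ^ (-(h - d)) +
        6 * E a f * E a g * ((2 : ℝ) ^ i) ^ (-((1 - 4 * h) * a - d)) := by
    intro i _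
    have hb := block (2 ^ i) f g Nat.one_le_two_pow hf hg hfg h a h0 h1 ha0
    rw [← hW] at hb
    push_cast at hb
    have hP : (0 : ℝ) < 2 ^ i := by positivity
    have hP' : (0 : ℝ) ≤ ((2 : ℝ) ^ i) ^ (-1 + d) := Real.rpow_nonneg hP.le _
    have e1 : ((2 : ℝ) ^ i) ^ (-1 + d) * ((2 : ℝ) ^ i) ^ (1 - 2 * h) =
        ((2 : ℝ) ^ i) ^ (-(2 * h - d)) := by
      rw [← Real.rpow_add hP]
      congr 1
      ring
    have e2 : ((2 : ℝ) ^ i) ^ (-1 + d) * ((2 : ℝ) ^ i) ^ (1 - h) =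
        ((2 : ℝ) ^ i) ^ (-(h - d)) := by
      rw [← Real.rpow_add hP]
      congr 1
      ring
    have e3 : ((2 : ℝ) ^ i) ^ (-1 + d) * ((2 : ℝ) ^ i) ^ (1 - (1 - 4 * h) * a) =
        ((2 : ℝ) ^ i) ^ (-((1 - 4 * h) * a - d)) := by
      rw [← Real.rpow_add hP]
      congr 1
      ring
    refine (mul_le_mul_of_nonneg_left hb hP').trans (le_of_eq ?_)
    rw [← e1, ← e2, ← e3]
    ring
  refine (sum_le_sum hpt).trans ?_
  rw [sum_add_distrib, sum_add_distrib, ← mul_sum, ← mul_sum, ← mul_sum]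
  have g1 := geo m N (2 * h - d) (by linarith) (by linarith)
  have g2 := geo m N (h - d) (by linarith) (by linarith)
  have g3 := geo m N ((1 - 4 * h) * a - d) (by linarith) (by nlinarith)
  have hP1 : (1 : ℝ) ≤ 2 ^ m := one_le_pow₀ (by norm_num)
  have k1 : ((2 : ℝ) ^ m) ^ (-(2 * h - d)) ≤ 1 :=
    Real.rpow_le_one_of_one_le_of_nonpos hP1 (by linarith)
  have k3 : ((2 : ℝ) ^ m) ^ (-((1 - 4 * h) * a - d)) ≤ 1 :=
    Real.rpow_le_one_of_one_le_of_nonpos hP1 (by linarith)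
  have t1 : 0 < 2 * h - d := by linarith
  have t3 : 0 < (1 - 4 * h) * a - d := by linarith
  have r1 : 2 * ∑ i ∈ Ico m N, ((2 : ℝ) ^ i) ^ (-(2 * h - d)) ≤ 4 / (2 * h - d) := by
    have h2 : ((2 : ℝ) ^ m) ^ (-(2 * h - d)) * (2 / (2 * h - d)) ≤ 1 * (2 / (2 * h - d)) :=
      mul_le_mul_of_nonneg_right k1 (by positivity)
    have h3 : (4 : ℝ) / (2 * h - d) = 2 * (2 / (2 * h - d)) := by ring
    rw [h3]
    linarith
  have r2 : 8 * W * ∑ i ∈ Ico m N, ((2 : ℝ) ^ i) ^ (-(h - d)) ≤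
      8 * W * ((2 : ℝ) ^ m) ^ (-(h - d)) * (2 / (h - d)) := by
    rw [mul_assoc (8 * W)]
    exact mul_le_mul_of_nonneg_left g2 (by positivity)
  have r3 : 6 * E a f * E a g * ∑ i ∈ Ico m N, ((2 : ℝ) ^ i) ^ (-((1 - 4 * h) * a - d)) ≤
      6 * E a f * E a g * (2 / ((1 - 4 * h) * a - d)) := by
    refine mul_le_mul_of_nonneg_left ?_ (by positivity)
    have h2 : ((2 : ℝ) ^ m) ^ (-((1 - 4 * h) * a - d)) * (2 / ((1 - 4 * h) * a - d)) ≤
        1 * (2 / ((1 - 4 * h) * a - d)) :=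
      mul_le_mul_of_nonneg_right k3 (by positivity)
    linarith
  rw [← hW]
  linarith

end Pool.Agent.H99.PC
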