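import Pool.Agent.H99.PC.Rnk
import Pool.Agent.H6.Cub.Smooth

/-!
[H99 PC LB] Lemma B: E((1-e) lam x, f) <= (log x)^c.
PROOF. a = (1-e) lam x -> 0, so 0 <= a <= 1/4 for x large. By E_le it is enough that
2 sum_{q | f} q^(-1+a) <= c loglog x. Put y = log x. Primes q | f with q <= y: q^a <= y^a = exp(a log y) =
exp((1-e) logloglog x) = (loglog x)^(1-e); so their sum is <= (loglog x)^(1-e) sum_{q <= y} 1/q <=
(loglog x)^(1-e) (11 + 5 log log (y + 2)) (H6.Cub.sum_inv_primes_le with z = floor(y) + 1) = o(loglog x).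
Primes q | f with q > y: their number r satisfies y^r <= f <= x + 1 <= x^2, r <= 2 log x / log y, and each
q^(-1+a) <= y^(-1+a) (exponent negative), so they give <= 2 log x / loglog x * (loglog x)^(1-e) / log x =
2 (loglog x)^(-e). Everything is <= (c/2) loglog x for x large.
-/

namespace Pool.Agent.H99.PC

open Finset

theorem lemB_aux (e c : ℝ) (he : 0 < e) (he1 : e < 1) (hc : 0 < c) :
    ∃ v0 : ℝ, ∀ v : ℝ, v0 ≤ v → 2 ≤ v ∧ 1 ≤ Real.log v ∧ (1 - e) * (Real.log v / v) ≤ 1 / 4 ∧
      2 * (v ^ (1 - e) * (16 + 5 * Real.log v) + 2) ≤ c * v := by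
  have h1 := (isLittleO_log_rpow_atTop he).bound (show (0 : ℝ) < c / 40 by positivity)
  have h2 := Real.isLittleO_log_id_atTop.bound (show (0 : ℝ) < 1 / 4 by norm_num)
  have h3 := (tendsto_rpow_atTop he).eventually_ge_atTop (16 / (c / 8))
  have h4 := Filter.eventually_ge_atTop (max 3 (2 / (c / 8)) : ℝ)
  obtain ⟨v0, hv0⟩ := Filter.eventually_atTop.1 (((h1.and h2).and h3).and h4)
  refine ⟨v0, fun v hv => ?_⟩
  obtain ⟨⟨⟨g1, g2⟩, g3⟩, g4⟩ := hv0 v hv
  have g5 : 3 ≤ v := (le_max_left _ _).trans g4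
  have g6 : 2 / (c / 8) ≤ v := (le_max_right _ _).trans g4
  have hv0' : 0 < v := by linarith
  have hl : 1 ≤ Real.log v := by
    rw [Real.le_log_iff_exp_le hv0']
    exact Real.exp_one_lt_three.le.trans g5
  rw [Real.norm_of_nonneg (by linarith), Real.norm_of_nonneg (by positivity)] at g1
  rw [Real.norm_of_nonneg (by linarith), id, Real.norm_of_nonneg (by positivity)] at g2
  refine ⟨by linarith, hl, ?_, ?_⟩
  · have h5 : Real.log v / v ≤ 1 / 4 := by
      rw [div_le_iff₀ hv0']
      exact g2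
    have h6 : 0 ≤ Real.log v / v := by positivity
    nlinarith
  · have h5 : v ^ (1 - e) * v ^ e = v := by
      rw [← Real.rpow_add hv0', sub_add_cancel, Real.rpow_one]
    have h6 : 16 + 5 * Real.log v ≤ c / 4 * v ^ e := by
      rw [div_le_iff₀ (by positivity)] at g3
      nlinarith
    have h7 : v ^ (1 - e) * (16 + 5 * Real.log v) ≤ c / 4 * v := by
      calc v ^ (1 - e) * (16 + 5 * Real.log v) ≤ v ^ (1 - e) * (c / 4 * v ^ e) :=
            mul_le_mul_of_nonneg_left h6 (by positivity)
        _ = c / 4 * (v ^ (1 - e) * v ^ e) := by ring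
        _ = c / 4 * v := by rw [h5]
    rw [div_le_iff₀ (by positivity)] at g6
    nlinarith

theorem lemB (e c : ℝ) (he : 0 < e) (he1 : e < 1) (hc : 0 < c) :
    ∃ x0 : ℝ, ∀ x : ℝ, x0 ≤ x → ∀ f : ℕ, 0 < f → (f : ℝ) ≤ x + 1 →
      E ((1 - e) * lam x) f ≤ Real.log x ^ c := by
  obtain ⟨v0, hv0⟩ := lemB_aux e c he he1 hc
  refine ⟨max 2 (Real.exp (Real.exp v0)), fun x hx f hf hfx => ?_⟩
  have hx2 : 2 ≤ x := (le_max_left _ _).trans hx
  have hxe : Real.exp (Real.exp v0) ≤ x := (le_max_right _ _).trans hx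
  obtain ⟨u, hu⟩ : ∃ u, u = Real.log x := ⟨_, rfl⟩
  have hu0 : Real.exp v0 ≤ u := by
    rw [hu, Real.le_log_iff_exp_le (by linarith)]
    exact hxe
  have hupos : 0 < u := (Real.exp_pos _).trans_le hu0
  obtain ⟨v, hv⟩ : ∃ v, v = Real.log u := ⟨_, rfl⟩
  have hvv0 : v0 ≤ v := by
    rw [hv, Real.le_log_iff_exp_le hupos]
    exact hu0
  obtain ⟨k1, k2, k3, k4⟩ := hv0 v hvv0
  have hvpos : 0 < v := by linarith
  obtain ⟨a, ha⟩ : ∃ a, a = (1 - e) * lam x := ⟨_, rfl⟩
  have hlam : lam x = Real.log v / v := by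
    rw [lam, hv, hu]
  have ha4 : a ≤ 1 / 4 := by
    rw [ha, hlam]
    exact k3
  have ha0 : 0 ≤ a := by
    rw [ha, hlam]
    have : 0 ≤ Real.log v / v := by positivity
    nlinarith
  have hu2 : 2 ≤ u := by
    have h1 : Real.exp v = u := by rw [hv, Real.exp_log hupos]
    have h2 := Real.add_one_le_exp v
    linarith
  -- `u ^ a = v ^ (1 - e)`
  have hua : u ^ a = v ^ (1 - e) := by
    rw [Real.rpow_def_of_pos hupos, Real.rpow_def_of_pos hvpos, ← hv, ha, hlam]
    congr 1
    field_simp
  have hux : E a f ≤ Real.exp (c * v) := by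
    refine (E_le f hf a ha4).trans (Real.exp_le_exp.2 ?_)
    refine le_trans ?_ k4
    apply mul_le_mul_of_nonneg_left _ (by norm_num)
    obtain ⟨z, hz⟩ : ∃ z : ℕ, z = ⌊u⌋₊ + 1 := ⟨_, rfl⟩
    have hfl2 : 2 ≤ ⌊u⌋₊ := Nat.le_floor (by exact_mod_cast hu2)
    have hz3 : 3 ≤ z := by omega
    rw [← Finset.sum_filter_add_sum_filter_not f.primeFactors (fun q => q < z)]
    apply add_le_add
    · -- the small primes
      have h1 : ∑ q ∈ f.primeFactors.filter (fun q => q < z), (q : ℝ) ^ (-1 + a) ≤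
          ∑ q ∈ z.primesBelow, (q : ℝ) ^ (-1 + a) := by
        apply Finset.sum_le_sum_of_subset_of_nonneg
        · intro q hq
          rw [mem_filter] at hq
          rw [Nat.mem_primesBelow]
          exact ⟨hq.2, (Nat.mem_primeFactors.1 hq.1).1⟩
        · intro q _ _
          positivity
      have h2 : ∑ q ∈ z.primesBelow, (q : ℝ) ^ (-1 + a) ≤
          ∑ q ∈ z.primesBelow, v ^ (1 - e) * (1 / (q : ℝ)) := by
        apply Finset.sum_le_sum
        intro q hq
        rw [Nat.mem_primesBelow] at hq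
        have hq0 : (0 : ℝ) < q := by exact_mod_cast hq.2.pos
        have hqu : (q : ℝ) ≤ u := by
          have h3 : q ≤ ⌊u⌋₊ := by omega
          exact (Nat.cast_le.2 h3).trans (Nat.floor_le hupos.le)
        rw [Real.rpow_add hq0, Real.rpow_neg_one, ← hua, one_div, mul_comm]
        apply mul_le_mul_of_nonneg_right _ (by positivity)
        exact Real.rpow_le_rpow hq0.le hqu ha0
      refine h1.trans (h2.trans ?_)
      rw [← Finset.mul_sum]
      apply mul_le_mul_of_nonneg_left _ (by positivity)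
      have h3 := H6.Cub.sum_inv_primes_le z hz3
      refine h3.trans ?_
      have hz3' : (3 : ℝ) ≤ z := by exact_mod_cast hz3
      have hzu : (z : ℝ) ≤ u ^ 2 := by
        rw [hz]
        push_cast
        have := Nat.floor_le hupos.le
        nlinarith
      have hlz : Real.log z ≤ 2 * v := by
        have h5 := Real.log_le_log (by linarith) hzu
        rw [Real.log_pow] at h5
        rw [hv]
        exact_mod_cast h5
      have hlz0 : 0 < Real.log z := Real.log_pos (by linarith)
      have h6 := Real.log_le_log hlz0 hlz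
      rw [Real.log_mul (by norm_num) hvpos.ne'] at h6
      have h7 : Real.log 2 < 1 := by
        have := Real.log_two_lt_d9
        linarith
      linarith
    · -- the large primes
      obtain ⟨s, hs⟩ : ∃ s, s = f.primeFactors.filter (fun q => ¬ q < z) := ⟨_, rfl⟩
      rw [← hs]
      have hsq : ∀ q ∈ s, u ≤ (q : ℝ) := by
        intro q hq
        rw [hs, mem_filter] at hq
        have h1 : ⌊u⌋₊ + 1 ≤ q := by omega
        have h2 := Nat.lt_floor_add_one u
        have h3 : ((⌊u⌋₊ + 1 : ℕ) : ℝ) ≤ q := by exact_mod_cast h1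
        push_cast at h3
        linarith
      have hprod : u ^ s.card ≤ (f : ℝ) := by
        have h1 : ∏ _q ∈ s, u ≤ ∏ q ∈ s, (q : ℝ) :=
          Finset.prod_le_prod (fun i _ => hupos.le) fun q hq => hsq q hq
        rw [Finset.prod_const] at h1
        refine h1.trans ?_
        have h2 : ∏ q ∈ s, q ∣ f := by
          refine (Finset.prod_dvd_prod_of_subset s f.primeFactors (fun q => q) ?_).trans
            (Nat.prod_primeFactors_dvd f)
          rw [hs]
          exact Finset.filter_subset _ _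
        have h3 := Nat.le_of_dvd hf h2
        have h4 : ((∏ q ∈ s, q : ℕ) : ℝ) ≤ f := by exact_mod_cast h3
        rwa [Nat.cast_prod] at h4
      have hcard : (s.card : ℝ) * v ≤ 2 * u := by
        have h1 : u ^ s.card ≤ x ^ 2 := by
          refine hprod.trans (hfx.trans ?_)
          nlinarith
        have h2 := Real.log_le_log (by positivity) h1
        rw [Real.log_pow, Real.log_pow, ← hv, ← hu] at h2
        exact_mod_cast h2
      have hterm : ∀ q ∈ s, (q : ℝ) ^ (-1 + a) ≤ v ^ (1 - e) / u := by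
        intro q hq
        have h1 : (q : ℝ) ^ (-1 + a) ≤ u ^ (-1 + a) :=
          Real.rpow_le_rpow_of_nonpos hupos (hsq q hq) (by linarith)
        refine h1.trans (le_of_eq ?_)
        rw [Real.rpow_add hupos, Real.rpow_neg_one, hua]
        field_simp
      have h1 := Finset.sum_le_card_nsmul s _ _ hterm
      refine h1.trans ?_
      rw [nsmul_eq_mul]
      have h2 : v ^ (1 - e) ≤ v := by
        have h3 := Real.rpow_le_rpow_of_exponent_le (by linarith : (1 : ℝ) ≤ v)
          (by linarith : 1 - e ≤ 1)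
        rwa [Real.rpow_one] at h3
      have h3 : (s.card : ℝ) * (v ^ (1 - e) / u) ≤ s.card * (v / u) := by
        apply mul_le_mul_of_nonneg_left _ (Nat.cast_nonneg _)
        exact div_le_div_of_nonneg_right h2 hupos.le
      refine h3.trans ?_
      rw [← mul_div_assoc, div_le_iff₀ hupos]
      exact hcard
  rw [← ha]
  refine hux.trans (le_of_eq ?_)
  rw [← hu, Real.rpow_def_of_pos hupos, ← hv, mul_comm]

end Pool.Agent.H99.PC
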