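import Pool.Agent.H99.PC.La1
import Pool.Agent.H99.PC.La2
import Pool.Agent.H99.PC.Lb

/-!
[H99 PC LA] Lemma A, final assembly.
PROOF. Put h = e/10, a = (1 - e/3) lam x, d = (1-e) lam x, B = 2/h + 1. For x large lam x is so small that d <= h/2,
a <= 1, and (1-4h) a - d = lam x ((1 - 2e/5)(1 - e/3) - (1 - e)) >= lam x (e/4) > 0. Let m = floor of
log_2 ((log x)^B): 2^m <= (log x)^B < 2^(m+1). Primes p <= 2^m: la1 with M = 2^m, c = 1/4: <= (log x)^(1/4)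
(the filtered range (range (N+1)) is contained in Ioc 0 (2^m) union Ioc (2^m) N, since primes are > 0). Primes in
(2^m, N]: la2. Its terms: 4/(2h-d) <= 4/h; f.primeFactors.card <= log_2 f <= 2 log (x+1) <= 4 log x (2^card <= f), the
same for g; (2^m)^(-(h-d)) <= ((log x)^B / 2)^(-h/2) <= 2 (log x)^(-1-h/2)... <= 2 (log x)^(-1) (B h/2 = 1 + h/2), so the
second term is <= 8 * 8 log x * 2 / log x * (4/h) = 512/h; third: E a f, E a g <= (log x)^(1/10) (lemB with e/3 in place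
of e, c = 1/10) and 2/((1-4h)a-d) <= 8/(e lam x) <= (8/e) loglog x. Sum <= (log x)^(1/4) + 4/h + 512/h +
(48/e) (log x)^(1/5) loglog x <= (log x)^(1/2) for x large (growth).
-/

namespace Pool.Agent.H99.PC

open Finset Classical Filter Topology

private theorem la_growth (e h : ℝ) (he : 0 < e) (hh : 0 < h) :
    ∀ᶠ u : ℝ in atTop, u ^ (1 / 4 : ℝ) + 4 / h + 512 / h +
      (48 / e) * (u ^ (1 / 10 : ℝ) * u ^ (1 / 10 : ℝ)) * Real.log u ≤ u ^ (1 / 2 : ℝ) := by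
  have t1 : ∀ᶠ u : ℝ in atTop, (4 : ℝ) ≤ u ^ (1 / 4 : ℝ) :=
    (tendsto_rpow_atTop (by norm_num)).eventually_ge_atTop 4
  have t2 : ∀ᶠ u : ℝ in atTop, (4 * (516 / h) : ℝ) ≤ u ^ (1 / 2 : ℝ) :=
    (tendsto_rpow_atTop (by norm_num)).eventually_ge_atTop _
  have t3 : ∀ᶠ u : ℝ in atTop, (4 : ℝ) ≤ u ^ (1 / 5 : ℝ) :=
    (tendsto_rpow_atTop (by norm_num)).eventually_ge_atTop 4
  have t4 : ∀ᶠ u : ℝ in atTop, ‖Real.log u‖ ≤ (e / 48) * ‖u ^ (1 / 10 : ℝ)‖ :=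
    (isLittleO_log_rpow_atTop (by norm_num : (0 : ℝ) < 1 / 10)).bound (by positivity)
  filter_upwards [t1, t2, t3, t4, eventually_ge_atTop (1 : ℝ)] with u h1 h2 h3 h4 h5
  have hu0 : 0 < u := by linarith
  have e1 : u ^ (1 / 2 : ℝ) = u ^ (1 / 4 : ℝ) * u ^ (1 / 4 : ℝ) := by
    rw [← Real.rpow_add hu0]; norm_num
  have e2 : u ^ (1 / 2 : ℝ) = u ^ (1 / 5 : ℝ) * (u ^ (1 / 10 : ℝ) * u ^ (1 / 10 : ℝ) * u ^ (1 / 10 : ℝ)) := by
    rw [← Real.rpow_add hu0, ← Real.rpow_add hu0, ← Real.rpow_add hu0]; norm_num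
  have p1 : 0 < u ^ (1 / 4 : ℝ) := Real.rpow_pos_of_pos hu0 _
  have p2 : 0 < u ^ (1 / 10 : ℝ) := Real.rpow_pos_of_pos hu0 _
  have a1 : u ^ (1 / 4 : ℝ) ≤ u ^ (1 / 2 : ℝ) / 4 := by
    rw [e1]; nlinarith
  have a2 : 4 / h + 512 / h ≤ u ^ (1 / 2 : ℝ) / 4 := by
    have : 4 / h + 512 / h = 516 / h := by rw [← add_div]; norm_num
    rw [this]; linarith
  have a3 : (48 / e) * (u ^ (1 / 10 : ℝ) * u ^ (1 / 10 : ℝ)) * Real.log u ≤ u ^ (1 / 2 : ℝ) / 4 := by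
    have hl : Real.log u ≤ (e / 48) * u ^ (1 / 10 : ℝ) := by
      rw [Real.norm_eq_abs, Real.norm_eq_abs, abs_of_pos p2] at h4
      exact le_trans (le_abs_self _) h4
    have hq : 0 < u ^ (1 / 10 : ℝ) * u ^ (1 / 10 : ℝ) * u ^ (1 / 10 : ℝ) := by positivity
    calc (48 / e) * (u ^ (1 / 10 : ℝ) * u ^ (1 / 10 : ℝ)) * Real.log u
        ≤ (48 / e) * (u ^ (1 / 10 : ℝ) * u ^ (1 / 10 : ℝ)) * ((e / 48) * u ^ (1 / 10 : ℝ)) :=
          mul_le_mul_of_nonneg_left hl (by positivity)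
      _ = u ^ (1 / 10 : ℝ) * u ^ (1 / 10 : ℝ) * u ^ (1 / 10 : ℝ) := by field_simp
      _ ≤ u ^ (1 / 2 : ℝ) / 4 := by rw [e2]; nlinarith
  linarith

private theorem la_card (x : ℝ) (hx : 2 ≤ x) (f : ℕ) (hf : 0 < f) (hfx : (f : ℝ) ≤ x + 1) :
    (f.primeFactors.card : ℝ) ≤ 4 * Real.log x := by
  have h1 : 2 ^ f.primeFactors.card ≤ f := by
    calc 2 ^ f.primeFactors.card = ∏ _p ∈ f.primeFactors, 2 := by rw [Finset.prod_const]
      _ ≤ ∏ p ∈ f.primeFactors, p := Finset.prod_le_prod' (fun p hp => (Nat.prime_of_mem_primeFactors hp).two_le)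
      _ ≤ f := Nat.le_of_dvd hf (Nat.prod_primeFactors_dvd f)
  have h2 : (2 : ℝ) ^ f.primeFactors.card ≤ x ^ 2 := by
    have h3 : ((2 ^ f.primeFactors.card : ℕ) : ℝ) ≤ (f : ℝ) := by exact_mod_cast h1
    push_cast at h3
    nlinarith
  have h4 := Real.log_le_log (by positivity) h2
  rw [Real.log_pow, Real.log_pow] at h4
  push_cast at h4
  have h5 := Real.log_two_gt_d9
  have h6 : (0 : ℝ) ≤ f.primeFactors.card := Nat.cast_nonneg _
  nlinarith

private theorem la_pow (u h d : ℝ) (m : ℕ) (hu : 1 ≤ u) (hh : 0 < h) (hh1 : h ≤ 1)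
    (hd : d ≤ h / 2) (hm : u ^ (2 / h + 1) < (2 : ℝ) ^ (m + 1)) :
    ((2 : ℝ) ^ m) ^ (-(h - d)) ≤ 2 / u := by
  have hu0 : 0 < u := by linarith
  have hb : (1 : ℝ) ≤ (2 : ℝ) ^ m := one_le_pow₀ (by norm_num)
  have h1 : ((2 : ℝ) ^ m) ^ (-(h - d)) ≤ ((2 : ℝ) ^ m) ^ (-(h / 2)) :=
    Real.rpow_le_rpow_of_exponent_le hb (by linarith)
  have hB0 : 0 < u ^ (2 / h + 1) := Real.rpow_pos_of_pos hu0 _
  have h2 : u ^ (2 / h + 1) / 2 ≤ (2 : ℝ) ^ m := by
    rw [pow_succ] at hm; linarith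
  have h3 : ((2 : ℝ) ^ m) ^ (-(h / 2)) ≤ (u ^ (2 / h + 1) / 2) ^ (-(h / 2)) :=
    Real.rpow_le_rpow_of_nonpos (by positivity) h2 (by linarith)
  have h4 : (u ^ (2 / h + 1) / 2) ^ (-(h / 2)) = u ^ (-(1 + h / 2)) * (2 : ℝ) ^ (h / 2) := by
    rw [Real.div_rpow hB0.le (by norm_num), ← Real.rpow_mul hu0.le, Real.rpow_neg (by norm_num : (0:ℝ) ≤ 2),
      div_inv_eq_mul]
    congr 2
    field_simp
  have h5 : (2 : ℝ) ^ (h / 2) ≤ 2 := by
    calc (2 : ℝ) ^ (h / 2) ≤ (2 : ℝ) ^ (1 : ℝ) :=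
          Real.rpow_le_rpow_of_exponent_le (by norm_num) (by linarith)
      _ = 2 := Real.rpow_one 2
  have h6 : u ^ (-(1 + h / 2)) ≤ u⁻¹ := by
    calc u ^ (-(1 + h / 2)) ≤ u ^ (-1 : ℝ) := Real.rpow_le_rpow_of_exponent_le hu (by linarith)
      _ = u⁻¹ := Real.rpow_neg_one u
  calc ((2 : ℝ) ^ m) ^ (-(h - d)) ≤ u ^ (-(1 + h / 2)) * (2 : ℝ) ^ (h / 2) := by
        rw [← h4]; exact le_trans h1 h3
    _ ≤ u⁻¹ * 2 := mul_le_mul h6 h5 (by positivity) (by positivity)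
    _ = 2 / u := by rw [inv_mul_eq_div]

private theorem la_E_nonneg (a : ℝ) (f : ℕ) : 0 ≤ E a f := by
  unfold E
  exact Finset.sum_nonneg (fun k _ => Real.rpow_nonneg (Nat.cast_nonneg _) _)

theorem lemA (e : ℝ) (he : 0 < e) (he1 : e < 1) :
    ∃ x0 : ℝ, ∀ x : ℝ, x0 ≤ x → ∀ f g : ℕ, 0 < f → 0 < g → (f : ℝ) ≤ x + 1 → (g : ℝ) ≤ x + 1 →
      Nat.gcd f g ∣ 2 → ∀ N : ℕ, (N : ℝ) ≤ x →
      ∑ p ∈ (range (N + 1)).filter (fun p => Pr f g p), (p : ℝ) ^ (-1 + (1 - e) * lam x) ≤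
        Real.log x ^ (1 / 2 : ℝ) := by
  set h : ℝ := e / 10 with hh
  have hh0 : 0 < h := by rw [hh]; positivity
  have hh8 : h ≤ 1 / 8 := by rw [hh]; linarith
  obtain ⟨x1, H1⟩ := la1 e (2 / h + 1) (1 / 4) he he1 (by positivity) (by norm_num)
  obtain ⟨x2, H2⟩ := lemB (e / 3) (1 / 10) (by positivity) (by linarith) (by norm_num)
  have tl : Tendsto Real.log atTop atTop := Real.tendsto_log_atTop
  have tll : Tendsto (fun x => Real.log (Real.log x)) atTop atTop := tl.comp tl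
  have tlll : Tendsto (fun x => Real.log (Real.log (Real.log x))) atTop atTop := tl.comp tll
  have c1 : ∀ᶠ x : ℝ in atTop, 1 ≤ Real.log x := tl.eventually_ge_atTop 1
  have c2 : ∀ᶠ x : ℝ in atTop, 1 ≤ Real.log (Real.log x) := tll.eventually_ge_atTop 1
  have c3 : ∀ᶠ x : ℝ in atTop, 1 ≤ Real.log (Real.log (Real.log x)) := tlll.eventually_ge_atTop 1
  have c4 : ∀ᶠ x : ℝ in atTop, lam x < h / 2 := by
    have t0 : Tendsto (fun w : ℝ => Real.log w / w) atTop (𝓝 0) :=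
      Real.isLittleO_log_id_atTop.tendsto_div_nhds_zero
    have t1 : Tendsto lam atTop (𝓝 0) := t0.comp tll
    exact t1.eventually_lt_const (by positivity)
  have c5 : ∀ᶠ x : ℝ in atTop, (Real.log x) ^ (1 / 4 : ℝ) + 4 / h + 512 / h +
      (48 / e) * ((Real.log x) ^ (1 / 10 : ℝ) * (Real.log x) ^ (1 / 10 : ℝ)) * Real.log (Real.log x) ≤
      (Real.log x) ^ (1 / 2 : ℝ) := tl.eventually (la_growth e h he hh0)
  have call := c1.and (c2.and (c3.and (c4.and (c5.and (eventually_ge_atTop (2 : ℝ))))))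
  obtain ⟨x3, H3⟩ := eventually_atTop.mp call
  refine ⟨max x1 (max x2 x3), ?_⟩
  intro x hx f g hf hg hfx hgx hfg N hN
  have hx1 : x1 ≤ x := le_trans (le_max_left _ _) hx
  have hx2 : x2 ≤ x := le_trans (le_trans (le_max_left _ _) (le_max_right _ _)) hx
  have hx3 : x3 ≤ x := le_trans (le_trans (le_max_right _ _) (le_max_right _ _)) hx
  obtain ⟨d1, d2, d3, d4, d5, d6⟩ := H3 x hx3
  set u : ℝ := Real.log x with hu
  have hu0 : 0 < u := by linarith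
  have hll0 : 0 < Real.log u := by linarith
  set L : ℝ := lam x with hL
  have hLdef : L = Real.log (Real.log u) / Real.log u := rfl
  have hL0 : 0 < L := by rw [hLdef]; apply div_pos <;> linarith
  have hL1 : 1 / L ≤ Real.log u := by
    rw [hLdef, one_div_div]
    exact div_le_self hll0.le d3
  -- the exponent
  set B : ℝ := 2 / h + 1 with hB
  have hB0 : 0 < B := by rw [hB]; positivity
  have huB : 1 ≤ u ^ B := Real.one_le_rpow d1 hB0.le
  set q : ℕ := ⌊u ^ B⌋₊ with hq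
  have hq1 : 1 ≤ q := by rw [hq]; exact Nat.le_floor (by exact_mod_cast huB)
  set m : ℕ := Nat.log 2 q with hm
  have hm1 : ((2 ^ m : ℕ) : ℝ) ≤ u ^ B := by
    have h1 : 2 ^ m ≤ q := Nat.pow_log_le_self 2 (by omega)
    calc ((2 ^ m : ℕ) : ℝ) ≤ (q : ℝ) := by exact_mod_cast h1
      _ ≤ u ^ B := Nat.floor_le (by linarith)
  have hm2 : u ^ B < (2 : ℝ) ^ (m + 1) := by
    have h1 : q < 2 ^ (m + 1) := Nat.lt_pow_succ_log_self (by norm_num) q
    have h2 : u ^ B < (q : ℝ) + 1 := Nat.lt_floor_add_one _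
    have h3 : ((q + 1 : ℕ) : ℝ) ≤ ((2 ^ (m + 1) : ℕ) : ℝ) := by exact_mod_cast h1
    push_cast at h3
    linarith
  -- splitting
  have hsub : (range (N + 1)).filter (fun p => Pr f g p) ⊆
      Ioc 0 (2 ^ m) ∪ (Ioc (2 ^ m) N).filter (fun p => Pr f g p) := by
    intro p hp
    rw [Finset.mem_filter, Finset.mem_range] at hp
    rw [Finset.mem_union, Finset.mem_Ioc, Finset.mem_filter, Finset.mem_Ioc]
    have hp0 : 0 < p := hp.2.1.pos
    by_cases hc : p ≤ 2 ^ m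
    · left; exact ⟨hp0, hc⟩
    · right; exact ⟨⟨not_le.mp hc, by omega⟩, hp.2⟩
  have hnn : ∀ p : ℕ, 0 ≤ (p : ℝ) ^ (-1 + (1 - e) * L) := fun p => Real.rpow_nonneg (Nat.cast_nonneg _) _
  have hsum : ∑ p ∈ (range (N + 1)).filter (fun p => Pr f g p), (p : ℝ) ^ (-1 + (1 - e) * L) ≤
      ∑ p ∈ Ioc (0 : ℕ) (2 ^ m), (p : ℝ) ^ (-1 + (1 - e) * L) +
      ∑ p ∈ (Ioc (2 ^ m) N).filter (fun p => Pr f g p), (p : ℝ) ^ (-1 + (1 - e) * L) := by
    refine le_trans (Finset.sum_le_sum_of_subset_of_nonneg hsub (fun p _ _ => hnn p)) ?_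
    rw [← Finset.sum_union_inter]
    exact le_add_of_nonneg_right (Finset.sum_nonneg (fun p _ => hnn p))
  have hA := H1 x hx1 (2 ^ m) hm1
  -- second part
  set d : ℝ := (1 - e) * L with hd
  set a : ℝ := (1 - e / 3) * L with ha
  have hd0 : 0 ≤ d := by rw [hd]; apply mul_nonneg <;> linarith
  have hdL : d ≤ L := by rw [hd]; nlinarith
  have hdh2 : d ≤ h / 2 := by linarith
  have hdh : d < h := by linarith
  have ha1 : a ≤ 1 := by
    have : a ≤ L := by rw [ha]; nlinarith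
    linarith
  have hgap : L * (e / 4) ≤ (1 - 4 * h) * a - d := by
    have h1 : (1 - 4 * h) * a - d = L * ((1 - 2 * e / 5) * (1 - e / 3) - (1 - e)) := by
      rw [ha, hd, hh]; ring
    rw [h1]
    apply mul_le_mul_of_nonneg_left _ hL0.le
    nlinarith
  have hLe : 0 < L * (e / 4) := by positivity
  have had : d < (1 - 4 * h) * a := by linarith
  have hC := la2 f g m N hf hg hfg h a d hh0 hh8 hd0 hdh ha1 had
  have hEf : E a f ≤ u ^ (1 / 10 : ℝ) := H2 x hx2 f hf hfx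
  have hEg : E a g ≤ u ^ (1 / 10 : ℝ) := H2 x hx2 g hg hgx
  have hEf0 := la_E_nonneg a f
  have hEg0 := la_E_nonneg a g
  have hcf := la_card x d6 f hf hfx
  have hcg := la_card x d6 g hg hgx
  have hp := la_pow u h d m d1 hh0 (by linarith) hdh2 hm2
  have hp0 : 0 ≤ ((2 : ℝ) ^ m) ^ (-(h - d)) := Real.rpow_nonneg (by positivity) _
  have T1 : 4 / (2 * h - d) ≤ 4 / h := by
    apply div_le_div_of_nonneg_left (by norm_num) hh0; linarith
  have T2a : 2 / (h - d) ≤ 4 / h := by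
    rw [div_le_div_iff₀ (by linarith) hh0]; nlinarith
  have T2 : 8 * ((f.primeFactors.card : ℝ) + g.primeFactors.card) * ((2 : ℝ) ^ m) ^ (-(h - d)) *
      (2 / (h - d)) ≤ 512 / h := by
    have hsumc : (f.primeFactors.card : ℝ) + g.primeFactors.card ≤ 8 * u := by linarith
    have hcn : (0 : ℝ) ≤ (f.primeFactors.card : ℝ) + g.primeFactors.card := by positivity
    have s1 : 8 * ((f.primeFactors.card : ℝ) + g.primeFactors.card) * ((2 : ℝ) ^ m) ^ (-(h - d)) ≤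
        8 * (8 * u) * (2 / u) :=
      mul_le_mul (by linarith) hp hp0 (by positivity)
    have s2 : 8 * (8 * u) * (2 / u) = 128 := by field_simp; norm_num
    have s3 : 0 ≤ 2 / (h - d) := div_nonneg (by norm_num) (by linarith)
    calc _ ≤ (8 * (8 * u) * (2 / u)) * (4 / h) := mul_le_mul s1 T2a s3 (by positivity)
      _ = 512 / h := by rw [s2]; ring
  have T3 : 6 * E a f * E a g * (2 / ((1 - 4 * h) * a - d)) ≤
      (48 / e) * (u ^ (1 / 10 : ℝ) * u ^ (1 / 10 : ℝ)) * Real.log u := by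
    have s1 : 2 / ((1 - 4 * h) * a - d) ≤ (8 / e) * Real.log u := by
      calc 2 / ((1 - 4 * h) * a - d) ≤ 2 / (L * (e / 4)) :=
            div_le_div_of_nonneg_left (by norm_num) hLe hgap
        _ = (8 / e) * (1 / L) := by field_simp; norm_num
        _ ≤ (8 / e) * Real.log u := mul_le_mul_of_nonneg_left hL1 (by positivity)
    have s2 : E a f * E a g ≤ u ^ (1 / 10 : ℝ) * u ^ (1 / 10 : ℝ) :=
      mul_le_mul hEf hEg hEg0 (le_trans hEf0 hEf)
    have s3 : 0 ≤ 2 / ((1 - 4 * h) * a - d) := div_nonneg (by norm_num) (by linarith)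
    calc 6 * E a f * E a g * (2 / ((1 - 4 * h) * a - d))
        = 6 * (E a f * E a g) * (2 / ((1 - 4 * h) * a - d)) := by ring
      _ ≤ 6 * (u ^ (1 / 10 : ℝ) * u ^ (1 / 10 : ℝ)) * ((8 / e) * Real.log u) := by
          apply mul_le_mul _ s1 s3
          · have : 0 ≤ u ^ (1 / 10 : ℝ) := Real.rpow_nonneg hu0.le _
            positivity
          · linarith
      _ = (48 / e) * (u ^ (1 / 10 : ℝ) * u ^ (1 / 10 : ℝ)) * Real.log u := by ring
  linarith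

end Pool.Agent.H99.PC
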