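import Pool.Agent.H99.PC.Fi0
import Pool.Agent.H99.PC.La

/-!
[H99 PC FIN] the theorem.
PROOF. Let L = exp(log x * lam x), X = floor x, e' = e/8 (take e <= 1 without loss, the bound is weaker for larger e),
y = ceil(L^2) (so L^2 <= y <= 2 L^2), D = x / L (>= 1 for x large as log x * lam x <= log x), a = (1 - e') lam x,
S = (log x)^(1/2) (lemA with e', N = X). main_bound: 2D = 2x/L; 7X/sqrt y <= 7x/L; the last term:
(1 + log(X+1))^2 <= (3 log x)^2; (D/y)^(-a) <= (x/(2 L^3))^(-a) = x^(-a) (2 L^3)^a = L^(-(1-e')) 2^a L^(3a), 2^a <= 2,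
3a <= e' for x large (lam_facts); exp(2S) and (log x)^2 by growth2 with c = e': total <= 2x * L^(-1+e') * L^(e') * L^(e')
* const. Everything <= x L^(-1+e) for x large.
-/

namespace Pool.Agent.H99.PC

open Finset Classical

theorem count_sel (e : ℝ) (he : 0 < e) : ∃ x0 : ℝ, ∀ x : ℝ, x0 ≤ x →
    (((range (⌊x⌋₊ + 1)).filter (fun n => Sel n)).card : ℝ) ≤
      x * Real.exp (-(1 - e) * (Real.log x * lam x)) := by
  obtain ⟨e', he'⟩ : ∃ e', e' = min e 1 / 8 := ⟨_, rfl⟩
  have he'0 : 0 < e' := by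
    rw [he']
    have : 0 < min e 1 := lt_min he one_pos
    positivity
  have he'1 : e' ≤ 1 / 8 := by
    rw [he']
    have : min e 1 ≤ 1 := min_le_right _ _
    linarith
  have he'e : 4 * e' ≤ e := by
    rw [he']
    have : min e 1 ≤ e := min_le_left _ _
    linarith
  obtain ⟨x1, hx1⟩ := lemA e' he'0 (by linarith)
  obtain ⟨x2, hx2⟩ := lam_facts (e' / 3) (by positivity)
  obtain ⟨x3, hx3⟩ := growth2 100 e' he'0
  refine ⟨max x1 (max x2 x3), fun x hx => ?_⟩
  have hxx1 : x1 ≤ x := (le_max_left _ _).trans hx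
  have hxx2 : x2 ≤ x := (le_max_left _ _).trans ((le_max_right _ _).trans hx)
  have hxx3 : x3 ≤ x := (le_max_right _ _).trans ((le_max_right _ _).trans hx)
  obtain ⟨f1, f2, f3, f4, f5, f6, -, -, -⟩ := hx2 x hxx2
  have hA := hx1 x hxx1
  have hG := hx3 x hxx3
  have hx0 : 0 < x := by linarith
  obtain ⟨t, ht⟩ : ∃ t, t = Real.log x := ⟨_, rfl⟩
  obtain ⟨l, hl⟩ : ∃ l, l = lam x := ⟨_, rfl⟩
  obtain ⟨v, hv⟩ : ∃ v, v = t * l := ⟨_, rfl⟩
  obtain ⟨S, hS⟩ : ∃ S, S = t ^ (1 / 2 : ℝ) := ⟨_, rfl⟩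
  rw [← ht] at f2 hA hG ⊢
  rw [← hl] at f5 f6 hA hG ⊢
  rw [← hv] at hG ⊢
  rw [← hS] at hA hG
  have ht0 : 0 < t := by linarith
  have hv0 : 0 < v := by
    rw [hv]
    positivity
  have hS0 : 0 < S := by
    rw [hS]
    exact Real.rpow_pos_of_pos ht0 _
  have hl1 : l ≤ 1 / 24 := by linarith
  have hvt : v ≤ t := by
    rw [hv]
    nlinarith
  have hxe : x = Real.exp t := by rw [ht, Real.exp_log hx0]
  obtain ⟨X, hX⟩ : ∃ X : ℕ, X = ⌊x⌋₊ := ⟨_, rfl⟩
  obtain ⟨y, hy⟩ : ∃ y : ℕ, y = ⌈Real.exp (2 * v)⌉₊ := ⟨_, rfl⟩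
  obtain ⟨a, ha⟩ : ∃ a : ℝ, a = (1 - e') * l := ⟨_, rfl⟩
  have hXx : (X : ℝ) ≤ x := by
    rw [hX]
    exact Nat.floor_le hx0.le
  have he2v : 1 ≤ Real.exp (2 * v) := Real.one_le_exp (by linarith)
  have hy1 : Real.exp (2 * v) ≤ y := by
    rw [hy]
    exact Nat.le_ceil _
  have hy2 : (y : ℝ) ≤ 2 * Real.exp (2 * v) := by
    have h := Nat.ceil_lt_add_one (Real.exp_pos (2 * v)).le
    rw [← hy] at h
    linarith
  have hyN : 1 ≤ y := by
    have : (1 : ℝ) ≤ y := he2v.trans hy1
    exact_mod_cast this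
  have ha0 : 0 ≤ a := by
    rw [ha]
    exact mul_nonneg (by linarith) f5.le
  have hal : a ≤ l := by
    rw [ha]
    nlinarith
  have hD : 1 ≤ x * Real.exp (-v) := by
    rw [hxe, ← Real.exp_add]
    exact Real.one_le_exp (by linarith)
  have hmb := main_bound X y (x * Real.exp (-v)) a S hyN hD ha0 (by linarith)
    (fun f g hf hg hfX hgX hgcd => by
      have hf' : (f : ℝ) ≤ x + 1 := by
        have : (f : ℝ) ≤ X + 1 := by exact_mod_cast hfX
        linarith
      have hg' : (g : ℝ) ≤ x + 1 := by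
        have : (g : ℝ) ≤ X + 1 := by exact_mod_cast hgX
        linarith
      rw [ha]
      exact hA f g hf hg hf' hg' hgcd X hXx)
  rw [← hX]
  refine hmb.trans ?_
  -- the three terms
  have hsq : Real.exp v ≤ Real.sqrt y := by
    apply Real.le_sqrt_of_sq_le
    rw [← Real.exp_nat_mul]
    push_cast
    exact hy1
  have t2 : 7 * (X : ℝ) / Real.sqrt y ≤ 7 * x * Real.exp (-v) := by
    have h1 : 7 * (X : ℝ) / Real.sqrt y ≤ 7 * x / Real.exp v := by
      have h2 := Real.exp_pos v
      gcongr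
    rw [Real.exp_neg, ← div_eq_mul_inv]
    exact h1
  have hlogX : 1 + Real.log ((X : ℝ) + 1) ≤ 3 * t := by
    have h1 : Real.log ((X : ℝ) + 1) ≤ Real.log (2 * x) := by
      apply Real.log_le_log (by positivity)
      linarith
    rw [Real.log_mul (by norm_num) hx0.ne', ← ht] at h1
    have h2 : Real.log 2 < 0.7 := by
      have := Real.log_two_lt_d9
      linarith
    linarith
  have hlogX0 : 0 ≤ 1 + Real.log ((X : ℝ) + 1) := by
    have : 0 ≤ Real.log ((X : ℝ) + 1) := Real.log_nonneg (by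
      have : (0 : ℝ) ≤ X := Nat.cast_nonneg X
      linarith)
    linarith
  have hDy : (x * Real.exp (-v) / y) ^ (-a) ≤ Real.exp (-(1 - 2 * e') * v + 1) := by
    have hy0 : (0 : ℝ) < y := by linarith
    have h1 : Real.exp (t - 3 * v - 1) ≤ x * Real.exp (-v) / y := by
      rw [le_div_iff₀ hy0]
      calc Real.exp (t - 3 * v - 1) * y ≤ Real.exp (t - 3 * v - 1) * (2 * Real.exp (2 * v)) :=
            mul_le_mul_of_nonneg_left hy2 (Real.exp_pos _).le
        _ = 2 * Real.exp (-1) * (x * Real.exp (-v)) := by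
            rw [hxe]
            have h3 : Real.exp (t - 3 * v - 1) =
                Real.exp (-1) * Real.exp t * Real.exp (-v) * Real.exp (-(2 * v)) := by
              rw [← Real.exp_add, ← Real.exp_add, ← Real.exp_add]
              congr 1
              ring
            have h4 : Real.exp (-(2 * v)) * Real.exp (2 * v) = 1 := by
              rw [← Real.exp_add]
              simp
            rw [h3]
            linear_combination (2 * Real.exp (-1) * Real.exp t * Real.exp (-v)) * h4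
        _ ≤ 1 * (x * Real.exp (-v)) := by
            apply mul_le_mul_of_nonneg_right _ (by positivity)
            have h5 : (2 : ℝ) ≤ Real.exp 1 := by
              have := Real.add_one_le_exp (1 : ℝ)
              linarith
            have h6 : Real.exp 1 * Real.exp (-1) = 1 := by
              rw [← Real.exp_add]
              simp
            have h7 := Real.exp_pos (-1 : ℝ)
            nlinarith
        _ = x * Real.exp (-v) := one_mul _
    have h2 : (x * Real.exp (-v) / y) ^ (-a) ≤ Real.exp (t - 3 * v - 1) ^ (-a) :=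
      Real.rpow_le_rpow_of_nonpos (Real.exp_pos _) h1 (by linarith)
    refine h2.trans ?_
    rw [← Real.exp_mul]
    apply Real.exp_le_exp.2
    have h3 : a * t = (1 - e') * v := by
      rw [ha, hv]
      ring
    have h4 : 3 * a * v ≤ e' * v := by
      apply mul_le_mul_of_nonneg_right _ hv0.le
      linarith
    nlinarith
  have t3 : 2 * (X : ℝ) * ((1 + Real.log ((X : ℝ) + 1)) ^ 2 * (x * Real.exp (-v) / y) ^ (-a) *
      Real.exp (2 * S)) ≤ x * Real.exp (-(1 - 3 * e') * v) := by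
    have h1 : (1 + Real.log ((X : ℝ) + 1)) ^ 2 ≤ (3 * t) ^ 2 :=
      pow_le_pow_left₀ hlogX0 hlogX 2
    have h2 : (0 : ℝ) ≤ (x * Real.exp (-v) / y) ^ (-a) := by positivity
    have h3 : 18 * Real.exp 1 * t ^ 2 * Real.exp (2 * S) ≤ Real.exp (e' * v) := by
      refine le_trans ?_ hG
      have h4 : t ^ 2 ≤ t ^ (100 : ℝ) := by
        rw [← Real.rpow_natCast]
        exact Real.rpow_le_rpow_of_exponent_le f2 (by norm_num)
      have h5 : Real.exp (2 * S) ≤ Real.exp (100 * S) := Real.exp_le_exp.2 (by linarith)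
      have h6 : 18 * Real.exp 1 ≤ 100 := by
        have := Real.exp_one_lt_d9
        linarith
      have h7 : 0 ≤ t ^ 2 := by positivity
      gcongr
    calc 2 * (X : ℝ) * ((1 + Real.log ((X : ℝ) + 1)) ^ 2 * (x * Real.exp (-v) / y) ^ (-a) *
          Real.exp (2 * S))
        ≤ 2 * x * ((3 * t) ^ 2 * Real.exp (-(1 - 2 * e') * v + 1) * Real.exp (2 * S)) := by
          gcongr
      _ = x * Real.exp (-(1 - 2 * e') * v) *
          (18 * Real.exp 1 * t ^ 2 * Real.exp (2 * S)) := by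
          rw [Real.exp_add]
          ring
      _ ≤ x * Real.exp (-(1 - 2 * e') * v) * Real.exp (e' * v) := by
          apply mul_le_mul_of_nonneg_left h3 (by positivity)
      _ = x * Real.exp (-(1 - 3 * e') * v) := by
          rw [mul_assoc, ← Real.exp_add]
          congr 2
          ring
  have hE : 10 ≤ Real.exp (e' * v) := by
    refine le_trans ?_ hG
    have h1 : 1 ≤ t ^ (100 : ℝ) := Real.one_le_rpow f2 (by norm_num)
    have h2 : 1 ≤ Real.exp (100 * S) := Real.one_le_exp (by positivity)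
    nlinarith
  have h9 : Real.exp (-v) ≤ Real.exp (-(1 - 3 * e') * v) := Real.exp_le_exp.2 (by nlinarith)
  have h10 : Real.exp (e' * v) * Real.exp (-(1 - 3 * e') * v) ≤ Real.exp (-(1 - e) * v) := by
    rw [← Real.exp_add]
    apply Real.exp_le_exp.2
    nlinarith
  have h11 : 10 * Real.exp (-(1 - 3 * e') * v) ≤ Real.exp (-(1 - e) * v) :=
    (mul_le_mul_of_nonneg_right hE (Real.exp_pos _).le).trans h10
  have h12 : x * (10 * Real.exp (-(1 - 3 * e') * v)) ≤ x * Real.exp (-(1 - e) * v) :=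
    mul_le_mul_of_nonneg_left h11 hx0.le
  have h13 : x * Real.exp (-v) ≤ x * Real.exp (-(1 - 3 * e') * v) :=
    mul_le_mul_of_nonneg_left h9 hx0.le
  linarith

end Pool.Agent.H99.PC
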