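import Pool.Agent.H99.PC.Zr

/-!
[H99 PC KO] orders and Selfridge numbers.
PROOF. ko p = orderOf 2 in ZMod p; 2 is a unit for odd p (ZMod.pow_card_sub_one_eq_one), so the order is positive and
divides p - 1. If Sel n and p | n: n odd gives p <> 2; n % 5 in {2,3} gives p <> 5; 2^(n-1) = 1 mod p
(Nat.ModEq.of_dvd) gives ko p | n - 1 (orderOf_dvd_iff_pow_eq_one, ZMod.natCast_eq_natCast_iff); p | F_(n+1) gives
zr p | n + 1 by zr_spec. kl d and zl d are lcm's (Finset.lcm_dvd), so kl d | n - 1, zl d | n + 1, and a common divisor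
divides (n + 1) - (n - 1) = 2. d | n and kl d | n - 1 with gcd(n, n - 1) = 1: coprime; the same for n + 1.
-/

namespace Pool.Agent.H99.PC

theorem ko_dvd_iff {p m : ℕ} : ko p ∣ m ↔ p ∣ 2 ^ m - 1 := by
  have h1 : 1 ≤ 2 ^ m := Nat.one_le_two_pow
  rw [ko, orderOf_dvd_iff_pow_eq_one, ← ZMod.natCast_eq_zero_iff, Nat.cast_sub h1]
  push_cast
  rw [sub_eq_zero]

theorem ko_dvd (p : ℕ) (hp : p.Prime) (h2 : p ≠ 2) : ko p ∣ p - 1 := by
  have : Fact p.Prime := ⟨hp⟩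
  have h2ne : (2 : ZMod p) ≠ 0 := by
    intro h
    have h3 : ((2 : ℕ) : ZMod p) = 0 := by exact_mod_cast h
    rw [ZMod.natCast_eq_zero_iff] at h3
    exact h2 ((Nat.prime_dvd_prime_iff_eq hp Nat.prime_two).1 h3)
  rw [ko, orderOf_dvd_iff_pow_eq_one]
  exact ZMod.pow_card_sub_one_eq_one h2ne

theorem ko_pos (p : ℕ) (hp : p.Prime) (h2 : p ≠ 2) : 0 < ko p :=
  Nat.pos_of_dvd_of_pos (ko_dvd p hp h2) (by have := hp.two_le; omega)

theorem sel_prime (n p : ℕ) (hn : Sel n) (hp : p.Prime) (hpn : p ∣ n) :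
    p ≠ 2 ∧ p ≠ 5 ∧ ko p ∣ n - 1 ∧ zr p ∣ n + 1 := by
  obtain ⟨hodd, h5, hpow, hfib, -⟩ := hn
  refine ⟨?_, ?_, ?_, ?_⟩
  · rintro rfl
    rw [Nat.odd_iff] at hodd
    omega
  · rintro rfl
    omega
  · rw [ko_dvd_iff]
    exact (Nat.modEq_iff_dvd' Nat.one_le_two_pow).1 (hpow.symm.of_dvd hpn)
  · rw [zr_spec p hp]
    exact hpn.trans hfib

theorem sel_div (n d : ℕ) (hn : Sel n) (hd : d ∣ n) :
    0 < kl d ∧ 0 < zl d ∧ kl d ∣ n - 1 ∧ zl d ∣ n + 1 ∧ Nat.gcd (kl d) (zl d) ∣ 2 ∧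
      Nat.Coprime d (kl d) ∧ Nat.Coprime d (zl d) := by
  have hn5 : n ≠ 0 ∧ n ≠ 1 := by
    obtain ⟨-, h5, -⟩ := hn
    constructor <;> rintro rfl <;> omega
  have h1 : kl d ∣ n - 1 := by
    unfold kl
    refine Finset.lcm_dvd fun p hp => ?_
    have h2 := Nat.mem_primeFactors.1 hp
    exact (sel_prime n p hn h2.1 (h2.2.1.trans hd)).2.2.1
  have h2 : zl d ∣ n + 1 := by
    unfold zl
    refine Finset.lcm_dvd fun p hp => ?_
    have h2 := Nat.mem_primeFactors.1 hp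
    exact (sel_prime n p hn h2.1 (h2.2.1.trans hd)).2.2.2
  have h3 : 0 < kl d := Nat.pos_of_dvd_of_pos h1 (by omega)
  have h4 : 0 < zl d := Nat.pos_of_dvd_of_pos h2 (by omega)
  refine ⟨h3, h4, h1, h2, ?_, ?_, ?_⟩
  · have h5 : Nat.gcd (kl d) (zl d) ∣ (n + 1) - (n - 1) :=
      Nat.dvd_sub ((Nat.gcd_dvd_right _ _).trans h2) ((Nat.gcd_dvd_left _ _).trans h1)
    have h6 : (n + 1) - (n - 1) = 2 := by omega
    rwa [h6] at h5
  · have h5 : Nat.Coprime n (n - 1) := by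
      have h7 : Nat.gcd n (n - 1) ∣ n - (n - 1) :=
        Nat.dvd_sub (Nat.gcd_dvd_left _ _) (Nat.gcd_dvd_right _ _)
      have h8 : n - (n - 1) = 1 := by omega
      rw [h8] at h7
      exact Nat.dvd_one.1 h7
    exact (h5.coprime_dvd_left hd).coprime_dvd_right h1
  · have h5 : Nat.Coprime n (n + 1) := by
      have h7 : Nat.gcd n (n + 1) ∣ (n + 1) - n :=
        Nat.dvd_sub (Nat.gcd_dvd_right _ _) (Nat.gcd_dvd_left _ _)
      have h8 : (n + 1) - n = 1 := by omega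
      rw [h8] at h7
      exact Nat.dvd_one.1 h7
    exact (h5.coprime_dvd_left hd).coprime_dvd_right h2

end Pool.Agent.H99.PC
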