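import Pool.Agent.H99.PC.Lam

/-!
[H99 PC LA1] the small primes in Lemma A.
PROOF. For 1 <= p <= M <= (log x)^B: p^(-1+d) = p^d / p <= ((log x)^B)^d / p, and ((log x)^B)^d =
((log x)^(lam x))^(B (1-e)) = (loglog x)^(B(1-e)); sum_{p <= M} 1/p <= 1 + log M <= 1 + B loglog x
(harmonic_le_one_add_log). So the sum is <= (loglog x)^(B(1-e)) (1 + B loglog x) <= (log x)^c by growth.
-/

namespace Pool.Agent.H99.PC

open Finset

theorem la1 (e B c : ℝ) (he : 0 < e) (he1 : e < 1) (hB : 0 < B) (hc : 0 < c) :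
    ∃ x0 : ℝ, ∀ x : ℝ, x0 ≤ x → ∀ M : ℕ, (M : ℝ) ≤ Real.log x ^ B →
      ∑ p ∈ Ioc 0 M, (p : ℝ) ^ (-1 + (1 - e) * lam x) ≤ Real.log x ^ c := by
  obtain ⟨x1, h1⟩ := lam_facts 1 one_pos
  obtain ⟨x2, h2⟩ := growth (B + 1) c hc
  refine ⟨max x1 x2, fun x hx M hM => ?_⟩
  obtain ⟨hx3, hL, hLL, hLLL, hl0, hl1, -, hll, -⟩ := h1 x ((le_max_left _ _).trans hx)
  have hg := h2 x ((le_max_right _ _).trans hx)
  refine le_trans ?_ hg
  obtain ⟨u, hu⟩ : ∃ u, u = Real.log (Real.log x) := ⟨_, rfl⟩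
  obtain ⟨L, hL'⟩ : ∃ L, L = Real.log x := ⟨_, rfl⟩
  rw [← hL'] at hu hL hM hll
  rw [← hL', ← hu]
  rw [← hL', ← hu] at hLL
  rw [← hu] at hll
  have hL0 : 0 < L := by linarith
  have hu0 : 0 < u := by linarith
  have hd0 : 0 ≤ (1 - e) * lam x := mul_nonneg (by linarith) hl0.le
  have hpt : ∀ p ∈ Ioc 0 M, (p : ℝ) ^ (-1 + (1 - e) * lam x) ≤ (p : ℝ)⁻¹ * u ^ B := by
    intro p hp
    rw [mem_Ioc] at hp
    have hp0 : (0 : ℝ) < p := by exact_mod_cast hp.1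
    rw [Real.rpow_add hp0, Real.rpow_neg_one]
    refine mul_le_mul_of_nonneg_left ?_ (by positivity)
    have h3 : (p : ℝ) ≤ L ^ B := le_trans (by exact_mod_cast hp.2) hM
    calc (p : ℝ) ^ ((1 - e) * lam x) ≤ (L ^ B) ^ ((1 - e) * lam x) :=
          Real.rpow_le_rpow hp0.le h3 hd0
      _ = (L ^ lam x) ^ (B * (1 - e)) := by
          rw [← Real.rpow_mul hL0.le, ← Real.rpow_mul hL0.le]
          congr 1
          ring
      _ = u ^ (B * (1 - e)) := by rw [hll]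
      _ ≤ u ^ B := Real.rpow_le_rpow_of_exponent_le hLL (by nlinarith)
  refine (sum_le_sum hpt).trans ?_
  rw [← sum_mul]
  have hharm : ∑ p ∈ Ioc 0 M, (p : ℝ)⁻¹ ≤ 1 + B * u := by
    rcases Nat.eq_zero_or_pos M with h0 | h0
    · rw [h0]
      simp
      positivity
    · have h3 := harmonic_le_one_add_log M
      rw [harmonic_eq_sum_Icc] at h3
      push_cast at h3
      have h4 : Ioc 0 M = Icc 1 M := by
        ext k
        rw [mem_Ioc, mem_Icc]
        omega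
      rw [h4]
      refine h3.trans ?_
      have h5 : Real.log M ≤ B * u := by
        have h6 := Real.log_le_log (by exact_mod_cast h0) hM
        rwa [Real.log_rpow hL0, ← hu] at h6
      linarith
  have huB : 0 ≤ u ^ B := Real.rpow_nonneg hu0.le _
  calc (∑ p ∈ Ioc 0 M, (p : ℝ)⁻¹) * u ^ B ≤ (1 + B * u) * u ^ B :=
        mul_le_mul_of_nonneg_right hharm huB
    _ ≤ ((B + 1) * u) * u ^ B := mul_le_mul_of_nonneg_right (by linarith) huB
    _ = (B + 1) * u ^ (B + 1) := by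
        rw [Real.rpow_add hu0, Real.rpow_one]
        ring

end Pool.Agent.H99.PC
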