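import Pool.Agent.H99.PC.Defs

/-!
[H99 PC LAM] the parameter lam x = logloglog x / loglog x and growth facts.
PROOF. All by limits: log x, loglog x, logloglog x tend to infinity; lam x -> 0 (log u / u -> 0 with u = loglog x);
1 / lam x = loglog x / logloglog x <= loglog x when logloglog x >= 1; (log x)^(lam x) = exp (loglog x * lam x) =
exp (logloglog x) = loglog x; x^(lam x) = exp (log x * lam x).
growth: with u = loglog x: C u^C <= exp (c u) for u large (isLittleO_rpow_exp..., Real.isLittleO_pow_exp_atTop or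
tendsto_rpow_mul_exp_neg...), (log x)^c = exp (c u).
growth2: A * log x * log x ... : see statement: exp(C * sqrt(log x)) * (log x)^C <= exp (c log x lam x): take logs:
C sqrt(log x) + C loglog x <= c log x lam x, true as log x * lam x >= log x / loglog x and sqrt(v) * log v = o(v).
-/

namespace Pool.Agent.H99.PC

private theorem lam_t1 : Filter.Tendsto (fun x : ℝ => Real.log (Real.log x)) Filter.atTop
    Filter.atTop := Real.tendsto_log_atTop.comp Real.tendsto_log_atTop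

private theorem lam_t2 : Filter.Tendsto (fun x : ℝ => Real.log (Real.log (Real.log x)))
    Filter.atTop Filter.atTop := Real.tendsto_log_atTop.comp lam_t1

theorem lam_facts (c : ℝ) (hc : 0 < c) : ∃ x0 : ℝ, ∀ x : ℝ, x0 ≤ x →
    3 ≤ x ∧ 1 ≤ Real.log x ∧ 1 ≤ Real.log (Real.log x) ∧ 1 ≤ Real.log (Real.log (Real.log x)) ∧
      0 < lam x ∧ lam x ≤ c ∧ 1 / lam x ≤ Real.log (Real.log x) ∧
      Real.log x ^ lam x = Real.log (Real.log x) ∧ x ^ lam x = Real.exp (Real.log x * lam x) := by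
  have e1 : ∀ᶠ x : ℝ in Filter.atTop, 3 ≤ x := Filter.eventually_ge_atTop 3
  have e2 : ∀ᶠ x : ℝ in Filter.atTop, 1 ≤ Real.log x :=
    Real.tendsto_log_atTop.eventually_ge_atTop 1
  have e3 : ∀ᶠ x : ℝ in Filter.atTop, 1 ≤ Real.log (Real.log x) :=
    lam_t1.eventually_ge_atTop 1
  have e4 : ∀ᶠ x : ℝ in Filter.atTop, 1 ≤ Real.log (Real.log (Real.log x)) :=
    lam_t2.eventually_ge_atTop 1
  have e5 : ∀ᶠ x : ℝ in Filter.atTop,
      ‖Real.log (Real.log (Real.log x))‖ ≤ c * ‖id (Real.log (Real.log x))‖ :=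
    lam_t1.eventually (Real.isLittleO_log_id_atTop.bound hc)
  obtain ⟨x0, h⟩ := Filter.eventually_atTop.1 (e1.and (e2.and (e3.and (e4.and e5))))
  refine ⟨x0, fun x hx => ?_⟩
  obtain ⟨h1, h2, h3, h4, h5⟩ := h x hx
  obtain ⟨u, hu⟩ : ∃ u, u = Real.log (Real.log x) := ⟨_, rfl⟩
  obtain ⟨w, hw⟩ : ∃ w, w = Real.log u := ⟨_, rfl⟩
  have hl : lam x = w / u := by rw [lam, hw, hu]
  rw [← hu] at h3 h4 h5
  rw [← hw] at h4 h5
  rw [hl, ← hu, ← hw]
  have hu0 : 0 < u := by linarith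
  have hw0 : 0 < w := by linarith
  rw [id, Real.norm_of_nonneg hw0.le, Real.norm_of_nonneg hu0.le] at h5
  refine ⟨h1, h2, h3, h4, by positivity, ?_, ?_, ?_, ?_⟩
  · rw [div_le_iff₀ hu0]
    exact h5
  · rw [one_div, inv_div, div_le_iff₀ hw0]
    nlinarith
  · rw [Real.rpow_def_of_pos (by linarith), ← hu, mul_div_cancel₀ w hu0.ne', hw,
      Real.exp_log hu0]
  · rw [Real.rpow_def_of_pos (by linarith)]

theorem growth (C c : ℝ) (hc : 0 < c) : ∃ x0 : ℝ, ∀ x : ℝ, x0 ≤ x →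
    C * Real.log (Real.log x) ^ C ≤ Real.log x ^ c := by
  have e1 : ∀ᶠ t : ℝ in Filter.atTop, C * Real.log t ^ C ≤ t ^ c := by
    have h := (isLittleO_log_rpow_rpow_atTop C hc).bound (c := 1 / (|C| + 1)) (by positivity)
    filter_upwards [h, Filter.eventually_ge_atTop (1 : ℝ)] with t ht ht1
    have h0 : 0 ≤ Real.log t := Real.log_nonneg ht1
    rw [Real.norm_of_nonneg (Real.rpow_nonneg h0 _),
      Real.norm_of_nonneg (Real.rpow_nonneg (by linarith) _)] at ht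
    have h1 : 0 ≤ Real.log t ^ C := Real.rpow_nonneg h0 _
    have h2 : 0 ≤ t ^ c := Real.rpow_nonneg (by linarith) _
    calc C * Real.log t ^ C ≤ (|C| + 1) * Real.log t ^ C :=
          mul_le_mul_of_nonneg_right (by linarith [le_abs_self C]) h1
      _ ≤ (|C| + 1) * (1 / (|C| + 1) * t ^ c) := mul_le_mul_of_nonneg_left ht (by positivity)
      _ = t ^ c := by field_simp
  obtain ⟨x0, h⟩ := Filter.eventually_atTop.1 (Real.tendsto_log_atTop.eventually e1)
  exact ⟨x0, fun x hx => h x hx⟩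

theorem growth2 (C c : ℝ) (hc : 0 < c) : ∃ x0 : ℝ, ∀ x : ℝ, x0 ≤ x →
    C * Real.log x ^ C * Real.exp (C * Real.log x ^ (1 / 2 : ℝ)) ≤
      Real.exp (c * (Real.log x * lam x)) := by
  obtain ⟨K, hK⟩ : ∃ K : ℝ, K = |C| + 1 := ⟨_, rfl⟩
  have hKC : C ≤ K := by
    rw [hK]
    linarith [le_abs_self C]
  have hK0 : 0 < K := by
    rw [hK]
    positivity
  -- `K t^K ≤ exp (t^(1/2))`
  have e1 : ∀ᶠ t : ℝ in Filter.atTop, K * t ^ K ≤ Real.exp (t ^ (1 / 2 : ℝ)) := by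
    have h1 := (isLittleO_rpow_exp_atTop (2 * K)).bound (c := 1 / K) (by positivity)
    have h2 : Filter.Tendsto (fun t : ℝ => t ^ (1 / 2 : ℝ)) Filter.atTop Filter.atTop :=
      tendsto_rpow_atTop (by norm_num)
    filter_upwards [h2.eventually h1, Filter.eventually_ge_atTop (1 : ℝ)] with t ht ht1
    have ht0 : 0 ≤ t := by linarith
    rw [Real.norm_of_nonneg (Real.rpow_nonneg (Real.rpow_nonneg ht0 _) _),
      Real.norm_of_nonneg (Real.exp_pos _).le, ← Real.rpow_mul ht0] at ht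
    have h3 : (1 / 2 : ℝ) * (2 * K) = K := by ring
    rw [h3] at ht
    calc K * t ^ K ≤ K * (1 / K * Real.exp (t ^ (1 / 2 : ℝ))) :=
          mul_le_mul_of_nonneg_left ht hK0.le
      _ = Real.exp (t ^ (1 / 2 : ℝ)) := by field_simp
  have e2 : ∀ᶠ t : ℝ in Filter.atTop, (K + 1) * Real.log t ≤ c * t ^ (1 / 2 : ℝ) := by
    have h := (isLittleO_log_rpow_atTop (r := 1 / 2) (by norm_num)).bound
      (c := c / (K + 1)) (by positivity)
    filter_upwards [h, Filter.eventually_ge_atTop (1 : ℝ)] with t ht ht1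
    have h0 : 0 ≤ Real.log t := Real.log_nonneg ht1
    rw [Real.norm_of_nonneg h0, Real.norm_of_nonneg (Real.rpow_nonneg (by linarith) _)] at ht
    calc (K + 1) * Real.log t ≤ (K + 1) * (c / (K + 1) * t ^ (1 / 2 : ℝ)) :=
          mul_le_mul_of_nonneg_left ht (by positivity)
      _ = c * t ^ (1 / 2 : ℝ) := by field_simp
  have e3 : ∀ᶠ t : ℝ in Filter.atTop, 1 ≤ Real.log (Real.log t) :=
    lam_t1.eventually_ge_atTop 1
  have e4 : ∀ᶠ t : ℝ in Filter.atTop, 1 ≤ Real.log t :=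
    Real.tendsto_log_atTop.eventually_ge_atTop 1
  obtain ⟨x0, h⟩ := Filter.eventually_atTop.1 (Real.tendsto_log_atTop.eventually
    (e1.and (e2.and (e3.and (e4.and (Filter.eventually_ge_atTop (1 : ℝ)))))))
  refine ⟨x0, fun x hx => ?_⟩
  obtain ⟨h1, h2, h3, h4, h5⟩ := h x hx
  obtain ⟨t, ht⟩ : ∃ t, t = Real.log x := ⟨_, rfl⟩
  have hl : lam x = Real.log (Real.log t) / Real.log t := by rw [lam, ht]
  rw [hl]
  rw [← ht] at h1 h2 h3 h4 h5 ⊢
  have ht0 : 0 < t := by linarith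
  have hs0 : 0 < t ^ (1 / 2 : ℝ) := Real.rpow_pos_of_pos ht0 _
  have k1 : C * t ^ C ≤ K * t ^ K := by
    have h6 : t ^ C ≤ t ^ K := Real.rpow_le_rpow_of_exponent_le h5 hKC
    have h7 : 0 ≤ t ^ C := Real.rpow_nonneg ht0.le _
    calc C * t ^ C ≤ K * t ^ C := mul_le_mul_of_nonneg_right hKC h7
      _ ≤ K * t ^ K := mul_le_mul_of_nonneg_left h6 hK0.le
  have k2 : Real.exp (C * t ^ (1 / 2 : ℝ)) ≤ Real.exp (K * t ^ (1 / 2 : ℝ)) :=
    Real.exp_le_exp.2 (mul_le_mul_of_nonneg_right hKC hs0.le)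
  have k3 : t ^ (1 / 2 : ℝ) * t ^ (1 / 2 : ℝ) = t := by
    rw [← Real.rpow_add ht0]
    norm_num
  have k4 : (K + 1) * t ^ (1 / 2 : ℝ) ≤ c * (t * (Real.log (Real.log t) / Real.log t)) := by
    have hlt : 0 < Real.log t := by linarith
    have h8 : c * (t * (Real.log (Real.log t) / Real.log t)) =
        c * t * Real.log (Real.log t) / Real.log t := by ring
    rw [h8, le_div_iff₀ hlt]
    calc (K + 1) * t ^ (1 / 2 : ℝ) * Real.log t = (K + 1) * Real.log t * t ^ (1 / 2 : ℝ) := by ring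
      _ ≤ c * t ^ (1 / 2 : ℝ) * t ^ (1 / 2 : ℝ) := mul_le_mul_of_nonneg_right h2 hs0.le
      _ = c * t * 1 := by rw [mul_assoc, k3, mul_one]
      _ ≤ c * t * Real.log (Real.log t) := mul_le_mul_of_nonneg_left h3 (by positivity)
  calc C * t ^ C * Real.exp (C * t ^ (1 / 2 : ℝ))
      ≤ K * t ^ K * Real.exp (K * t ^ (1 / 2 : ℝ)) := by
        have h9 : 0 ≤ K * t ^ K := by positivity
        exact mul_le_mul k1 k2 (Real.exp_pos _).le h9
    _ ≤ Real.exp (t ^ (1 / 2 : ℝ)) * Real.exp (K * t ^ (1 / 2 : ℝ)) :=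
        mul_le_mul_of_nonneg_right h1 (Real.exp_pos _).le
    _ = Real.exp ((K + 1) * t ^ (1 / 2 : ℝ)) := by
        rw [← Real.exp_add]
        congr 1
        ring
    _ ≤ _ := Real.exp_le_exp.2 k4

end Pool.Agent.H99.PC
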