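import Pool.Agent.H99.PC.Cnt

/-!
[H99 PC LC1] Lemma C, one block.
PROOF. 1/(p ko p) <= (1/P) (1/ko p). Primes with ko p <= sqrt P: group by k = ko p: at most k primes for each k
(card_ko), so sum 1/ko p <= sum_{1 <= k <= sqrt P} k * (1/k) <= sqrt P. The others: each 1/ko p <= 1/sqrt P, at most P
primes: <= sqrt P. Total <= (1/P) * 2 sqrt P = 2 / sqrt P.
-/

namespace Pool.Agent.H99.PC

open Finset Classical

private theorem ko_pos' {p : ℕ} (hp : p.Prime) (h2 : p ≠ 2) : 0 < ko p := by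
  haveI : Fact p.Prime := ⟨hp⟩
  unfold ko
  have h20 : (2 : ZMod p) ≠ 0 := by
    intro h
    have h1 : ((2 : ℕ) : ZMod p) = 0 := by exact_mod_cast h
    rw [ZMod.natCast_eq_zero_iff] at h1
    exact h2 ((Nat.prime_dvd_prime_iff_eq hp Nat.prime_two).mp h1)
  rw [orderOf_pos_iff]
  rw [isOfFinOrder_iff_pow_eq_one]
  exact ⟨p - 1, Nat.sub_pos_of_lt hp.one_lt, ZMod.pow_card_sub_one_eq_one h20⟩

theorem lc1 (P : ℕ) (hP : 1 ≤ P) :
    ∑ p ∈ (Ioc P (2 * P)).filter (fun p => p.Prime ∧ p ≠ 2), 1 / ((p : ℝ) * ko p) ≤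
      2 / Real.sqrt P := by
  have hP0 : (0 : ℝ) < P := by exact_mod_cast hP
  have hs0 : 0 < Real.sqrt P := Real.sqrt_pos.mpr hP0
  have hss : Real.sqrt P * Real.sqrt P = P := Real.mul_self_sqrt hP0.le
  set S := (Ioc P (2 * P)).filter (fun p => p.Prime ∧ p ≠ 2) with hS
  have hmem : ∀ p ∈ S, P < p ∧ p ≤ 2 * P ∧ p.Prime ∧ p ≠ 2 := by
    intro p hp
    rw [hS, Finset.mem_filter, Finset.mem_Ioc] at hp
    exact ⟨hp.1.1, hp.1.2, hp.2.1, hp.2.2⟩
  have hstep1 : ∑ p ∈ S, 1 / ((p : ℝ) * ko p) ≤ ∑ p ∈ S, (1 / (P : ℝ)) * (1 / (ko p : ℝ)) := by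
    apply Finset.sum_le_sum
    intro p hp
    obtain ⟨h1, h2, h3, h4⟩ := hmem p hp
    have hk : (0 : ℝ) < ko p := by exact_mod_cast ko_pos' h3 h4
    have hpp : (P : ℝ) ≤ p := by exact_mod_cast h1.le
    rw [← one_div_mul_one_div]
    apply mul_le_mul_of_nonneg_right _ (by positivity)
    exact one_div_le_one_div_of_le hP0 hpp
  rw [← Finset.mul_sum] at hstep1
  have hsplit : ∑ p ∈ S, (1 / (ko p : ℝ)) =
      ∑ p ∈ S.filter (fun p => ko p ≤ Nat.sqrt P), (1 / (ko p : ℝ)) +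
      ∑ p ∈ S.filter (fun p => ¬ ko p ≤ Nat.sqrt P), (1 / (ko p : ℝ)) :=
    (Finset.sum_filter_add_sum_filter_not S _ _).symm
  have hA : ∑ p ∈ S.filter (fun p => ko p ≤ Nat.sqrt P), (1 / (ko p : ℝ)) ≤ Real.sqrt P := by
    have hmaps : ∀ p ∈ S.filter (fun p => ko p ≤ Nat.sqrt P), ko p ∈ Icc 1 (Nat.sqrt P) := by
      intro p hp
      rw [Finset.mem_filter] at hp
      obtain ⟨h1, h2, h3, h4⟩ := hmem p hp.1
      rw [Finset.mem_Icc]
      exact ⟨ko_pos' h3 h4, hp.2⟩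
    rw [← Finset.sum_fiberwise_of_maps_to hmaps]
    have hk : ∀ k ∈ Icc 1 (Nat.sqrt P),
        ∑ p ∈ (S.filter (fun p => ko p ≤ Nat.sqrt P)).filter (fun p => ko p = k),
          (1 / (ko p : ℝ)) ≤ 1 := by
      intro k hk
      rw [Finset.mem_Icc] at hk
      have hk0 : (0 : ℝ) < k := by exact_mod_cast hk.1
      have h1 : ∑ p ∈ (S.filter (fun p => ko p ≤ Nat.sqrt P)).filter (fun p => ko p = k),
          (1 / (ko p : ℝ)) =
          ∑ p ∈ (S.filter (fun p => ko p ≤ Nat.sqrt P)).filter (fun p => ko p = k),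
          (1 / (k : ℝ)) := by
        apply Finset.sum_congr rfl
        intro p hp
        rw [Finset.mem_filter] at hp
        rw [hp.2]
      rw [h1, Finset.sum_const, nsmul_eq_mul]
      have hcard : ((S.filter (fun p => ko p ≤ Nat.sqrt P)).filter (fun p => ko p = k)).card ≤ k := by
        refine le_trans (Finset.card_le_card ?_) (card_ko (2 * P + 1) k hk.1)
        intro p hp
        rw [Finset.mem_filter, Finset.mem_filter] at hp
        obtain ⟨h1, h2, h3, h4⟩ := hmem p hp.1.1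
        rw [Finset.mem_filter, Finset.mem_range]
        exact ⟨by omega, h3, h4, hp.2⟩
      have hcard' : (((S.filter (fun p => ko p ≤ Nat.sqrt P)).filter (fun p => ko p = k)).card : ℝ) ≤ k := by
        exact_mod_cast hcard
      calc _ ≤ (k : ℝ) * (1 / k) := mul_le_mul_of_nonneg_right hcard' (by positivity)
        _ = 1 := by field_simp
    calc _ ≤ ∑ k ∈ Icc 1 (Nat.sqrt P), (1 : ℝ) := Finset.sum_le_sum hk
      _ = (Nat.sqrt P : ℝ) := by rw [Finset.sum_const, nsmul_eq_mul, Nat.card_Icc]; simp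
      _ ≤ Real.sqrt P := by
        apply Real.le_sqrt_of_sq_le
        have := Nat.sqrt_le' P
        exact_mod_cast this
  have hB : ∑ p ∈ S.filter (fun p => ¬ ko p ≤ Nat.sqrt P), (1 / (ko p : ℝ)) ≤ Real.sqrt P := by
    have h1 : ∀ p ∈ S.filter (fun p => ¬ ko p ≤ Nat.sqrt P), (1 / (ko p : ℝ)) ≤ 1 / Real.sqrt P := by
      intro p hp
      rw [Finset.mem_filter] at hp
      apply one_div_le_one_div_of_le hs0
      rw [Real.sqrt_le_left (by positivity)]
      have h2 : Nat.sqrt P < ko p := not_le.mp hp.2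
      have h3 : P < ko p ^ 2 := Nat.sqrt_lt'.mp h2
      exact_mod_cast h3.le
    have hcard : (S.filter (fun p => ¬ ko p ≤ Nat.sqrt P)).card ≤ P := by
      refine le_trans (Finset.card_le_card (Finset.filter_subset _ _)) ?_
      refine le_trans (Finset.card_le_card (Finset.filter_subset _ _)) ?_
      rw [Nat.card_Ioc]; omega
    have hcard' : ((S.filter (fun p => ¬ ko p ≤ Nat.sqrt P)).card : ℝ) ≤ P := by exact_mod_cast hcard
    calc _ ≤ ∑ p ∈ S.filter (fun p => ¬ ko p ≤ Nat.sqrt P), 1 / Real.sqrt P := Finset.sum_le_sum h1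
      _ = ((S.filter (fun p => ¬ ko p ≤ Nat.sqrt P)).card : ℝ) * (1 / Real.sqrt P) := by
        rw [Finset.sum_const, nsmul_eq_mul]
      _ ≤ P * (1 / Real.sqrt P) := mul_le_mul_of_nonneg_right hcard' (by positivity)
      _ = Real.sqrt P := by
        rw [mul_one_div, div_eq_iff hs0.ne', hss]
  have htot : ∑ p ∈ S, (1 / (ko p : ℝ)) ≤ 2 * Real.sqrt P := by rw [hsplit]; linarith
  calc ∑ p ∈ S, 1 / ((p : ℝ) * ko p) ≤ (1 / (P : ℝ)) * ∑ p ∈ S, (1 / (ko p : ℝ)) := hstep1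
    _ ≤ (1 / (P : ℝ)) * (2 * Real.sqrt P) := mul_le_mul_of_nonneg_left htot (by positivity)
    _ = 2 / Real.sqrt P := by
      rw [one_div_mul_eq_div, div_eq_div_iff hP0.ne' hs0.ne', mul_assoc, hss]

end Pool.Agent.H99.PC
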