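import Mathlib

/-! Abstract inverse limit: nested finite families of pairwise disjoint compact sets with diameters
tending to zero and bounded sum of diameters. -/

set_option autoImplicit false

namespace Pool.Agent.H99.PC

open Set Filter Topology MeasureTheory Metric

section
variable {Y α : Type*} [MetricSpace Y] [MeasurableSpace Y] [BorelSpace Y]

/-- union of the sets of a stage -/
def stageUnion (N : α → Set Y) (T : ℕ → List α) (m : ℕ) : Set Y := {x | ∃ a ∈ T m, x ∈ N a}

/-- the limit set -/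
def limSet (N : α → Set Y) (T : ℕ → List α) : Set Y := ⋂ m, stageUnion N T m

omit [MeasurableSpace Y] [BorelSpace Y] in
lemma stageUnion_eq (N : α → Set Y) (T : ℕ → List α) (m : ℕ) :
    stageUnion N T m = ⋃ a ∈ {a | a ∈ T m}, N a := by
  ext x
  simp [stageUnion]

omit [MeasurableSpace Y] [BorelSpace Y] in
lemma stageUnion_compact (N : α → Set Y) (T : ℕ → List α) (m : ℕ)
    (hcomp : ∀ a ∈ T m, IsCompact (N a)) : IsCompact (stageUnion N T m) := by
  rw [stageUnion_eq]
  apply Set.Finite.isCompact_biUnion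
  · exact List.finite_toSet (T m)
  · intro a ha
    exact hcomp a ha

omit [MeasurableSpace Y] [BorelSpace Y] in
lemma stageUnion_anti (N : α → Set Y) (T : ℕ → List α)
    (hnest : ∀ m, ∀ a ∈ T (m+1), ∃ a' ∈ T m, N a ⊆ N a') (m : ℕ) :
    stageUnion N T (m+1) ⊆ stageUnion N T m := by
  rintro x ⟨a, ha, hx⟩
  obtain ⟨a', ha', h⟩ := hnest m a ha
  exact ⟨a', ha', h hx⟩

omit [MeasurableSpace Y] [BorelSpace Y] in
lemma limSet_compact (N : α → Set Y) (T : ℕ → List α)
    (hcomp : ∀ m, ∀ a ∈ T m, IsCompact (N a)) : IsCompact (limSet N T) := by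
  apply IsCompact.of_isClosed_subset (stageUnion_compact N T 0 (hcomp 0))
  · exact isClosed_iInter (fun m => (stageUnion_compact N T m (hcomp m)).isClosed)
  · exact iInter_subset _ 0

omit [MeasurableSpace Y] [BorelSpace Y] in
/-- values of continuous functions pass to the limit -/
lemma limSet_value (N : α → Set Y) (T : ℕ → List α)
    (hcomp : ∀ m, ∀ a ∈ T m, IsCompact (N a))
    (hnest : ∀ m, ∀ a ∈ T (m+1), ∃ a' ∈ T m, N a ⊆ N a')
    (g : Y → ℝ) (hg : Continuous g) (v : ℝ) (h : ∀ m, ∃ x ∈ stageUnion N T m, v ≤ g x) :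
    ∃ x ∈ limSet N T, v ≤ g x := by
  have hc : ∀ m, IsCompact (stageUnion N T m ∩ {x | v ≤ g x}) := fun m =>
    (stageUnion_compact N T m (hcomp m)).inter_right (isClosed_le continuous_const hg)
  have := IsCompact.nonempty_iInter_of_sequence_nonempty_isCompact_isClosed
    (fun m => stageUnion N T m ∩ {x | v ≤ g x})
    (fun m => inter_subset_inter_left _ (stageUnion_anti N T hnest m))
    (fun m => by
      obtain ⟨x, hx, hv⟩ := h m
      exact ⟨x, hx, hv⟩)
    (hc 0) (fun m => (hc m).isClosed)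
  obtain ⟨x, hx⟩ := this
  rw [mem_iInter] at hx
  exact ⟨x, mem_iInter.2 (fun m => (hx m).1), (hx 0).2⟩

omit [MeasurableSpace Y] [BorelSpace Y] in
lemma limSet_totallyDisconnected (N : α → Set Y) (T : ℕ → List α)
    (hcomp : ∀ m, ∀ a ∈ T m, IsCompact (N a))
    (hdisj : ∀ m, (T m).Pairwise (fun a b => Disjoint (N a) (N b)))
    (r : ℕ → ENNReal) (hr : Tendsto r atTop (𝓝 0))
    (hdiam : ∀ m, ∀ a ∈ T m, ediam (N a) ≤ r m) :
    IsTotallyDisconnected (limSet N T) := by
  intro t ht hconn x hx y hy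
  have key : ∀ m, edist x y ≤ r m := by
    intro m
    obtain ⟨a, ha, hxa⟩ := mem_iInter.1 (ht hx) m
    have hsub : y ∈ N a := by
      by_contra hya
      set F : Set Y := ⋃ b ∈ {b | b ∈ T m ∧ Disjoint (N a) (N b)}, N b with hF
      have hFc : IsClosed F := by
        apply Set.Finite.isClosed_biUnion
        · exact (List.finite_toSet (T m)).subset (fun b hb => hb.1)
        · intro b hb
          exact (hcomp m b hb.1).isClosed
      have hsymm : Std.Symm (fun a b : α => Disjoint (N a) (N b)) := ⟨fun a b h => h.symm⟩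
      have hcover : t ⊆ N a ∪ F := by
        intro z hz
        obtain ⟨b, hb, hzb⟩ := mem_iInter.1 (ht hz) m
        by_cases hab : a = b
        · left; rw [hab]; exact hzb
        · right
          have := (hdisj m).forall ha hb hab
          exact mem_biUnion (show b ∈ {b | b ∈ T m ∧ Disjoint (N a) (N b)} from ⟨hb, this⟩) hzb
      have h1 := isPreconnected_closed_iff.1 hconn (N a) F (hcomp m a ha).isClosed hFc hcover
        ⟨x, hx, hxa⟩ (by
          rcases hcover hy with h | h
          · exact absurd h hya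
          · exact ⟨y, hy, h⟩)
      obtain ⟨z, _, hz1, hz2⟩ := h1
      rw [hF, mem_iUnion₂] at hz2
      obtain ⟨b, hb, hzb⟩ := hz2
      exact (Set.disjoint_left.1 hb.2 hz1) hzb
    exact le_trans (Metric.edist_le_ediam_of_mem hxa hsub) (hdiam m a ha)
  have h0 : edist x y ≤ 0 := ge_of_tendsto' hr key
  exact edist_le_zero.1 h0

lemma limSet_finite_length (N : α → Set Y) (T : ℕ → List α)
    (r : ℕ → ENNReal) (hr : Tendsto r atTop (𝓝 0))
    (hdiam : ∀ m, ∀ a ∈ T m, ediam (N a) ≤ r m)
    (C : ENNReal) (hC : C < ⊤) (hsum : ∀ m, ((T m).map (fun a => ediam (N a))).sum ≤ C) :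
    μH[1] (limSet N T) < ⊤ := by
  have h := Measure.hausdorffMeasure_le_liminf_sum (ι := fun m => Fin (T m).length) 1
    (limSet N T) (l := atTop) r hr (fun m i => N ((T m).get i))
    (Eventually.of_forall (fun m i => hdiam m _ (List.get_mem _ _)))
    (Eventually.of_forall (fun m x hx => by
      obtain ⟨a, ha, hxa⟩ := mem_iInter.1 hx m
      obtain ⟨i, hi⟩ := List.get_of_mem ha
      rw [mem_iUnion]
      exact ⟨i, by rw [hi]; exact hxa⟩))
  refine lt_of_le_of_lt (le_trans h ?_) hC
  apply Filter.liminf_le_of_frequently_le'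
  apply Frequently.of_forall
  intro m
  refine le_trans (le_of_eq ?_) (hsum m)
  simp only [ENNReal.rpow_one]
  rw [← List.sum_ofFn]
  congr 1
  conv_rhs => rw [← List.ofFn_get (T m), List.map_ofFn]
  rfl

end

end Pool.Agent.H99.PC
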