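import Pool.Agent.H99.PC.Plate

/-! The local hull step for a plate. -/

set_option autoImplicit false

namespace Pool.Agent.H99.PC

open Complex Metric Set

section
variable {P : Plate} {S : Step} {om : ℝ}

lemma Seg.pt_re (s : Seg) (t y : ℝ) : (s.pt t y).re = s.o.re + s.w.re * t - s.w.im * y := by
  simp [Seg.pt]; ring

lemma Seg.pt_im (s : Seg) (t y : ℝ) : (s.pt t y).im = s.o.im + s.w.im * t + s.w.re * y := by
  simp [Seg.pt]; ring

/-- box coordinates of points of a cell -/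
lemma cell_box (s : Seg) (hw : ‖s.w‖ = 1) (hax : s.w.re = 0 ∨ s.w.im = 0) (hl : 0 ≤ s.len)
    (τ : ℝ) (β : ℂ) (h1 : -τ ≤ (s.co β).re) (h2 : (s.co β).re ≤ s.len + τ)
    (h3 : -τ ≤ (s.co β).im) (h4 : (s.co β).im ≤ τ) :
    (s.o.re + min 0 (s.w.re * s.len) - τ ≤ β.re ∧ β.re ≤ s.o.re + max 0 (s.w.re * s.len) + τ) ∧
    (s.o.im + min 0 (s.w.im * s.len) - τ ≤ β.im ∧ β.im ≤ s.o.im + max 0 (s.w.im * s.len) + τ) := by
  have hre : β.re = s.o.re + s.w.re * (s.co β).re - s.w.im * (s.co β).im := by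
    rw [← s.pt_re, s.pt_co hw]
  have him : β.im = s.o.im + s.w.im * (s.co β).re + s.w.re * (s.co β).im := by
    rw [← s.pt_im, s.pt_co hw]
  rw [hre, him]
  rcases unit_axis hw hax with ⟨e1, e2⟩ | ⟨e1, e2⟩ | ⟨e1, e2⟩ | ⟨e1, e2⟩ <;> rw [e1, e2] <;>
    simp only [one_mul, zero_mul, neg_mul, min_self, max_self]
  · rw [min_eq_left hl, max_eq_right hl]
    exact ⟨⟨by linarith, by linarith⟩, ⟨by linarith, by linarith⟩⟩
  · rw [min_eq_right (by linarith), max_eq_left (by linarith)]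
    exact ⟨⟨by linarith, by linarith⟩, ⟨by linarith, by linarith⟩⟩
  · rw [min_eq_left hl, max_eq_right hl]
    exact ⟨⟨by linarith, by linarith⟩, ⟨by linarith, by linarith⟩⟩
  · rw [min_eq_right (by linarith), max_eq_left (by linarith)]
    exact ⟨⟨by linarith, by linarith⟩, ⟨by linarith, by linarith⟩⟩

open Classical in
lemma mem_poles {κ : ℤ × ℤ} : κ ∈ poles P S ↔
    ∃ k, κ ∈ poleBox (P.segs k) S.τ S.d ∧ lat S.d κ ∈ (P.segs k).nb (3 * S.τ) := by
  simp [poles]

lemma pole_exists (hP : P.Good om) (hS : S.OK P om) (k : Fin 5) (a b : ℝ) (ha : 0 ≤ a)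
    (hb : b ≤ (P.segs k).len) {β : ℂ} (hβ : β ∈ cellRect (P.segs k) a b S.τ) :
    ∃ κ ∈ poles P S, ‖β - lat S.d κ‖ ≤ S.d := by
  have hd := hS.d_pos
  have hτ := hS.τ_pos
  have hdτ := hS.dτ
  set s := P.segs k with hs
  have hw : ‖s.w‖ = 1 := hP.unit k
  have hl : 0 ≤ s.len := hP.len0 k
  obtain ⟨h1, h2, h3, h4⟩ := hβ
  have hbox := cell_box s hw (hP.axis k) hl S.τ β (by linarith) (by linarith) h3 h4
  refine ⟨(⌊β.re / S.d + 1/2⌋, ⌊β.im / S.d + 1/2⌋), ?_, lat_near S.d hd β⟩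
  rw [mem_poles]
  refine ⟨k, ?_, ?_⟩
  rw [poleBox, Finset.mem_product, Finset.mem_Icc, Finset.mem_Icc]
  refine ⟨⟨?_, ?_⟩, ⟨?_, ?_⟩⟩
  · apply Int.floor_le_floor
    have := hbox.1.1
    gcongr
  · apply Int.floor_le_floor
    have := hbox.1.2
    gcongr
  · apply Int.floor_le_floor
    have := hbox.2.1
    gcongr
  · apply Int.floor_le_floor
    have := hbox.2.2
    gcongr
  · -- distance
    have hn := lat_near S.d hd β
    set q := lat S.d (⌊β.re / S.d + 1/2⌋, ⌊β.im / S.d + 1/2⌋) with hq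
    set t := (s.co β).re with ht
    set y := (s.co β).im with hy
    have hpt : s.pt t y = β := s.pt_co hw β
    refine ⟨max 0 (min t s.len), le_max_left _ _, max_le hl (min_le_right _ _), ?_⟩
    have hc : |t - max 0 (min t s.len)| ≤ S.τ := by
      rcases le_total t 0 with h | h
      · rw [max_eq_left (le_trans (min_le_left _ _) h), abs_of_nonpos (by linarith)]
        linarith
      · rcases le_total t s.len with h' | h'
        · rw [min_eq_left h', max_eq_right h]; simp; linarith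
        · rw [min_eq_right h', max_eq_right hl, abs_of_nonneg (by linarith)]
          linarith
    have hy' : |y - 0| ≤ S.τ := by
      rw [sub_zero, abs_le]; exact ⟨h3, h4⟩
    calc ‖q - s.pt (max 0 (min t s.len)) 0‖
        = ‖(s.pt t y - s.pt (max 0 (min t s.len)) 0) - (β - q)‖ := by rw [hpt]; congr 1; ring
      _ ≤ ‖s.pt t y - s.pt (max 0 (min t s.len)) 0‖ + ‖β - q‖ := norm_sub_le _ _
      _ ≤ (|t - max 0 (min t s.len)| + |y - 0|) + ‖β - q‖ := by
          gcongr
          exact s.norm_pt_sub_le hw _ _ _ _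
      _ ≤ 3 * S.τ := by linarith

/-- The local hull step. -/
lemma local_step {f : ℂ × ℂ → ℂ} (hf : Differentiable ℂ f) (hP : P.Good om) (hS : S.OK P om)
    {A σ : ℝ} (hcore : ∀ x ∈ P.core, ‖f x‖ ≤ A) (hfam : ∀ x ∈ fam P S, ‖f x‖ ≤ A)
    (hch : ∀ Q ∈ children P S, ∀ x ∈ Q.supp, ‖f x‖ ≤ σ) (hσA : σ < A) :
    ∀ x ∈ fam P S, ‖f x‖ < A := by
  rintro x ⟨k, i, hi, hx1, hx2⟩
  have hf' : Differentiable ℂ (fun x => f (emb P.sw x)) := hf.comp (emb_differentiable P.sw)
  have hA0 := cellA_nonneg (S := S) hP k i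
  have hAB := cellA_le_cellB (S := S) hP k i
  have hBl := cellB_le_len hP k i hi
  have key := cell_step hf' (P.segs k) (hP.unit k) P.G P.c (P.cellC S k i) P.ρ S.ρ' S.d S.τ
    (P.cellA S k i) (P.cellB S k i) S.r1 A σ om S.M hS.M_pos hS.d_pos hS.dτ hS.τom
    (hP.collar k) hA0 hAB hBl hS.ρ'_pos (by have := ρ'_le hS; have := hS.ρ'_pos; linarith)
    (cellC_sub hP hS k i hi) hS.r1_pos hS.hexp
    (fun β hβ φ hφ => hcore _ (by
      show _ ∧ _
      rw [emb_emb]; exact ⟨hβ, hφ⟩))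
    (fun β hβ φ hφ => hfam _ (by
      refine ⟨k, i, hi, ?_⟩
      rw [emb_emb]; exact ⟨hβ, hφ⟩))
    (fun j β hβ φ hφ => by
      apply hch (lamChild P S ⟨k, i⟩)
      · rw [mem_children]
        left
        exact ⟨⟨k, i⟩, mem_cells.2 hi, rfl⟩
      · show _ ∧ _
        have hsw : (lamChild P S ⟨k, i⟩).sw = P.sw := rfl
        rw [hsw, emb_emb]
        exact ⟨⟨j, hβ⟩, hφ⟩)
    (fun β hβ => by
      obtain ⟨κ, hκ, hd⟩ := pole_exists hP hS k _ _ hA0 hBl hβ
      refine ⟨lat S.d κ, hd, ?_⟩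
      intro β' φ' h1 h2 h3
      apply wChild_sheet hf κ σ _ β' φ' h1 h2 h3
      apply hch
      rw [mem_children]
      right
      exact ⟨κ, hκ, rfl⟩)
    hσA (emb P.sw x).1 hx1 (emb P.sw x).2 hx2
  simpa [emb_emb] using key

/-- the support is contained in the family -/
lemma supp_subset_fam (hP : P.Good om) (hS : S.OK P om) : P.supp ⊆ fam P S := by
  rintro x ⟨⟨k, t, ht0, ht1, ht⟩, hx2⟩
  obtain ⟨i, hi, hA, hB⟩ := exists_cell (S := S) hP k t ht0 ht1
  have hw := hP.unit k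
  set s := P.segs k with hs
  set β := (emb P.sw x).1 with hβ
  have e1 := abs_le.1 (s.co_re_sub_le hw β (s.pt t 0))
  have e2 := abs_le.1 (s.co_im_sub_le hw β (s.pt t 0))
  rw [s.co_pt_re hw] at e1
  rw [s.co_pt_im hw] at e2
  have hd := hS.d_pos
  have hM : (0:ℝ) < S.M := by exact_mod_cast hS.M_pos
  have hρ := hP.ρ_pos
  have hρ' := hS.ρ'_pos
  -- h ≤ τ - 3d because of growth
  have hτh : 0 < S.τ - P.h - 3 * S.d := by
    by_contra hcon
    push Not at hcon
    have h1 := hS.grow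
    have h2 : Real.exp ((S.τ - P.h - 3 * S.d) / (5 * S.M * S.d)) ≤ 1 := by
      rw [Real.exp_le_one_iff]
      apply div_nonpos_of_nonpos_of_nonneg hcon (by positivity)
    have h3 : S.ρ' * Real.exp ((S.τ - P.h - 3 * S.d) / (5 * S.M * S.d)) ≤ S.ρ' * 1 := by gcongr
    have h4 := ρ'_le hS
    linarith
  refine ⟨k, i, hi, ?_, ?_⟩
  · refine ⟨by linarith [e1.1], by linarith [e1.2], by linarith [e2.1], by linarith [e2.2]⟩
  · have hmI : S.τ - P.h ≤ mI s (P.cellA S k i) (P.cellB S k i) S.τ β := by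
      unfold mI
      refine le_min (le_min ?_ ?_) (le_min ?_ ?_) <;> linarith [e1.1, e1.2, e2.1, e2.2]
    have hR : 5/4 * P.ρ ≤
        Rf s (P.cellA S k i) (P.cellB S k i) S.τ S.d P.ρ S.ρ' S.M β := by
      unfold Rf
      refine le_min le_rfl (le_trans hS.grow ?_)
      gcongr
      exact le_trans (by linarith) (le_max_left _ _)
    refine le_trans ?_ hR
    calc ‖(emb P.sw x).2 - P.cellC S k i‖
        = ‖((emb P.sw x).2 - P.c) - (P.cellC S k i - P.c)‖ := by congr 1; ring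
      _ ≤ ‖(emb P.sw x).2 - P.c‖ + ‖P.cellC S k i - P.c‖ := norm_sub_le _ _
      _ ≤ P.ρ + P.ρ / 4 := by
          gcongr
          exact cellC_sub hP hS k i hi
      _ = 5/4 * P.ρ := by ring

/-- cores of the children -/
lemma child_core {f : ℂ × ℂ → ℂ} (hf : Differentiable ℂ f) (hP : P.Good om) (hS : S.OK P om)
    {A : ℝ} (hfam : ∀ x ∈ fam P S, ‖f x‖ ≤ A)
    (hch : ∀ Q ∈ children P S, ∀ x ∈ Q.supp, ‖f x‖ ≤ A) :
    ∀ Q ∈ children P S, ∀ x ∈ Q.core, ‖f x‖ ≤ A := by
  intro Q hQ x hx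
  rcases mem_children.1 hQ with ⟨p, hp, rfl⟩ | ⟨κ, hκ, rfl⟩
  · apply hfam
    refine ⟨p.1, p.2, mem_cells.1 hp, hx.1, ?_⟩
    refine le_trans hx.2 ?_
    apply le_Rf _ _ _ _ _ _ _ _ _ hS.d_pos hS.ρ'_pos.le
    have h1 := ρ'_le hS
    have h2 := hS.ρ'_pos
    show S.ρ' ≤ _
    linarith
  · obtain ⟨⟨h1, h2⟩, h3⟩ := hx
    have := wChild_sheet (P := P) (S := S) hf κ A (hch _ hQ) (emb (!P.sw) x).2 (emb (!P.sw) x).1
      h3 h1 h2
    rw [emb_not] at this
    simp only [Prod.fst_swap, Prod.snd_swap, Prod.mk.eta] at this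
    rw [emb_emb] at this
    exact this

lemma Seg.co_continuous (s : Seg) : Continuous s.co := by
  unfold Seg.co; fun_prop

lemma Rf_continuous (s : Seg) (a b τ d ρ ρ' : ℝ) (M : ℕ) :
    Continuous (Rf s a b τ d ρ ρ' M) := by
  unfold Rf mI
  have h1 : Continuous (fun β => (s.co β).re) := Complex.continuous_re.comp s.co_continuous
  have h2 : Continuous (fun β => (s.co β).im) := Complex.continuous_im.comp s.co_continuous
  fun_prop

lemma cellRect_closed (s : Seg) (a b τ : ℝ) : IsClosed (cellRect s a b τ) := by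
  have h1 : Continuous (fun β => (s.co β).re) := Complex.continuous_re.comp s.co_continuous
  have h2 : Continuous (fun β => (s.co β).im) := Complex.continuous_im.comp s.co_continuous
  exact (isClosed_le continuous_const h1).inter ((isClosed_le h1 continuous_const).inter
    ((isClosed_le continuous_const h2).inter (isClosed_le h2 continuous_const)))

lemma cellRect_bounded (s : Seg) (hw : ‖s.w‖ = 1) (a b τ : ℝ) :
    Bornology.IsBounded (cellRect s a b τ) := by
  apply (Metric.isBounded_closedBall (x := s.pt a 0) (r := |b - a| + 2 * |τ|)).subset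
  intro β hβ
  obtain ⟨h1, h2, h3, h4⟩ := hβ
  rw [mem_closedBall, dist_eq_norm, ← s.pt_co hw β]
  refine le_trans (s.norm_pt_sub_le hw _ _ _ _) ?_
  have e1 := le_abs_self (b - a)
  have e2 := le_abs_self τ
  have e3 : |(s.co β).re - a| ≤ |b - a| + |τ| := by
    rw [abs_le]; constructor <;> linarith [abs_nonneg (b - a)]
  have e4 : |(s.co β).im - 0| ≤ |τ| := by
    rw [abs_le]; constructor <;> linarith
  linarith

lemma fam_compact (hP : P.Good om) : IsCompact (fam P S) := by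
  have hcell : ∀ k i, IsCompact {x : ℂ × ℂ |
      (emb P.sw x).1 ∈ cellRect (P.segs k) (P.cellA S k i) (P.cellB S k i) S.τ ∧
      ‖(emb P.sw x).2 - P.cellC S k i‖ ≤
        Rf (P.segs k) (P.cellA S k i) (P.cellB S k i) S.τ S.d P.ρ S.ρ' S.M (emb P.sw x).1} := by
    intro k i
    set K : Set (ℂ × ℂ) := {x : ℂ × ℂ |
      x.1 ∈ cellRect (P.segs k) (P.cellA S k i) (P.cellB S k i) S.τ ∧
      ‖x.2 - P.cellC S k i‖ ≤
        Rf (P.segs k) (P.cellA S k i) (P.cellB S k i) S.τ S.d P.ρ S.ρ' S.M x.1} with hK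
    have hKc : IsCompact K := by
      apply Metric.isCompact_of_isClosed_isBounded
      · apply IsClosed.inter
        · exact (cellRect_closed _ _ _ _).preimage continuous_fst
        · have h1 : Continuous (fun x : ℂ × ℂ => ‖x.2 - P.cellC S k i‖) :=
            (continuous_snd.sub continuous_const).norm
          exact isClosed_le h1 ((Rf_continuous _ _ _ _ _ _ _ _).comp continuous_fst)
      · apply ((cellRect_bounded (P.segs k) (hP.unit k) (P.cellA S k i) (P.cellB S k i)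
          S.τ).prod (Metric.isBounded_closedBall (x := P.cellC S k i) (r := 5/4 * P.ρ))).subset
        rintro x ⟨h1, h2⟩
        refine ⟨h1, ?_⟩
        rw [mem_closedBall, dist_eq_norm]
        exact le_trans h2 (Rf_le_left _ _ _ _ _ _ _ _ _)
    have : (emb P.sw) '' K = {x : ℂ × ℂ |
      (emb P.sw x).1 ∈ cellRect (P.segs k) (P.cellA S k i) (P.cellB S k i) S.τ ∧
      ‖(emb P.sw x).2 - P.cellC S k i‖ ≤
        Rf (P.segs k) (P.cellA S k i) (P.cellB S k i) S.τ S.d P.ρ S.ρ' S.M (emb P.sw x).1} := by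
      ext x
      constructor
      · rintro ⟨y, hy, rfl⟩
        simp only [Set.mem_ofPred_eq, emb_emb]
        exact hy
      · intro hx
        exact ⟨emb P.sw x, hx, emb_emb _ _⟩
    rw [← this]
    exact hKc.image (emb_continuous P.sw)
  have : fam P S = ⋃ k : Fin 5, ⋃ i ∈ Finset.range (P.num S k), {x : ℂ × ℂ |
      (emb P.sw x).1 ∈ cellRect (P.segs k) (P.cellA S k i) (P.cellB S k i) S.τ ∧
      ‖(emb P.sw x).2 - P.cellC S k i‖ ≤
        Rf (P.segs k) (P.cellA S k i) (P.cellB S k i) S.τ S.d P.ρ S.ρ' S.M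
          (emb P.sw x).1} := by
    ext x
    simp only [fam, Set.mem_ofPred_eq, mem_iUnion, Finset.mem_range, exists_prop]
  rw [this]
  apply isCompact_iUnion
  intro k
  apply Finset.isCompact_biUnion
  intro i _
  exact hcell k i

end

end Pool.Agent.H99.PC
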