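import Pool.Agent.H99.PC.Local

/-! Nesting, disjointness, cost of the children; compactness and diameter of `N`. -/

set_option autoImplicit false

namespace Pool.Agent.H99.PC

open Complex Metric Set

section
variable {P : Plate} {S : Step} {om : ℝ}

/-! ### child segments are near the cell interval -/

lemma clamp_near (a b τ t : ℝ) (hab : a ≤ b) (hτ : 0 ≤ τ) (h1 : a - τ ≤ t) (h2 : t ≤ b + τ) :
    ∃ t'', a ≤ t'' ∧ t'' ≤ b ∧ |t - t''| ≤ τ := by
  refine ⟨max a (min t b), le_max_left _ _, max_le hab (min_le_right _ _), ?_⟩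
  rcases le_total t a with h | h
  · rw [max_eq_left (le_trans (min_le_left _ _) h), abs_of_nonpos (by linarith)]
    linarith
  · rcases le_total t b with h' | h'
    · rw [min_eq_left h', max_eq_right h]; simpa using hτ
    · rw [min_eq_right h', max_eq_right hab, abs_of_nonneg (by linarith)]
      linarith

lemma childSegs_near (s : Seg) (hw : ‖s.w‖ = 1) (a b τ : ℝ) (hab : a ≤ b) (hτ : 0 ≤ τ)
    (j : Fin 5) (t : ℝ) (h0 : 0 ≤ t) (h1 : t ≤ (childSegs s a b τ j).len) :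
    ∃ t'', a ≤ t'' ∧ t'' ≤ b ∧ ‖(childSegs s a b τ j).pt t 0 - s.pt t'' 0‖ ≤ 2 * τ := by
  fin_cases j
  · simp only [childSegs, Fin.zero_eta, Matrix.cons_val_zero] at h1
    obtain ⟨t'', h2, h3, h4⟩ := clamp_near a b τ (a - τ + t) hab hτ (by linarith) (by linarith)
    refine ⟨t'', h2, h3, ?_⟩
    simp only [Fin.zero_eta]
    rw [childSegs_pt0]
    refine le_trans (s.norm_pt_sub_le hw _ _ _ _) ?_
    have : |-τ + 0 - 0| ≤ τ := by rw [abs_le]; constructor <;> linarith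
    linarith
  · simp only [childSegs, Fin.mk_one, Matrix.cons_val_one, Matrix.cons_val_zero] at h1
    refine ⟨b, hab, le_rfl, ?_⟩
    simp only [Fin.mk_one]
    rw [childSegs_pt1]
    refine le_trans (s.norm_pt_sub_le hw _ _ _ _) ?_
    have e1 : |b + τ - 0 - b| ≤ τ := by rw [abs_le]; constructor <;> linarith
    have e2 : |-τ + t - 0| ≤ τ := by rw [abs_le]; constructor <;> linarith
    linarith
  · simp only [childSegs, Fin.reduceFinMk, Matrix.cons_val] at h1
    refine ⟨b, hab, le_rfl, ?_⟩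
    simp only [Fin.reduceFinMk]
    rw [childSegs_pt2]
    refine le_trans (s.norm_pt_sub_le hw _ _ _ _) ?_
    have e1 : |b + τ - t - b| ≤ τ := by rw [abs_le]; constructor <;> linarith
    have e2 : |τ - 0 - 0| ≤ τ := by rw [abs_le]; constructor <;> linarith
    linarith
  · simp only [childSegs, Fin.reduceFinMk, Matrix.cons_val] at h1
    refine ⟨a, le_rfl, hab, ?_⟩
    simp only [Fin.reduceFinMk]
    rw [childSegs_pt3]
    refine le_trans (s.norm_pt_sub_le hw _ _ _ _) ?_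
    have e1 : |a + τ - t - a| ≤ τ := by rw [abs_le]; constructor <;> linarith
    have e2 : |τ - 0 - 0| ≤ τ := by rw [abs_le]; constructor <;> linarith
    linarith
  · simp only [childSegs, Fin.reduceFinMk, Matrix.cons_val] at h1
    refine ⟨a, le_rfl, hab, ?_⟩
    simp only [Fin.reduceFinMk]
    rw [childSegs_pt4]
    refine le_trans (s.norm_pt_sub_le hw _ _ _ _) ?_
    have e1 : |a - τ + 0 - a| ≤ τ := by rw [abs_le]; constructor <;> linarith
    have e2 : |τ - t - 0| ≤ τ := by rw [abs_le]; constructor <;> linarith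
    linarith

/-- points on the square sides -/
lemma squareSegs_pt (c : ℂ) (a : ℝ) (ha : 0 ≤ a) (j : Fin 5) (t : ℝ) (h0 : 0 ≤ t)
    (h1 : t ≤ (squareSegs c a j).len) :
    |((squareSegs c a j).pt t 0 - c).re| ≤ a ∧ |((squareSegs c a j).pt t 0 - c).im| ≤ a ∧
    (|((squareSegs c a j).pt t 0 - c).re| = a ∨ |((squareSegs c a j).pt t 0 - c).im| = a) := by
  fin_cases j
  · simp only [squareSegs, Fin.zero_eta, Matrix.cons_val_zero] at h1
    have hre : ((squareSegs c a 0).pt t 0 - c).re = -a + t := by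
      simp [squareSegs, Seg.pt]; try ring
    have him : ((squareSegs c a 0).pt t 0 - c).im = -a := by
      simp [squareSegs, Seg.pt]
    simp only [Fin.zero_eta]
    rw [hre, him, abs_neg, abs_of_nonneg ha]
    exact ⟨abs_le.2 ⟨by linarith, by linarith⟩, le_rfl, Or.inr rfl⟩
  · simp only [squareSegs, Fin.mk_one, Matrix.cons_val_one, Matrix.cons_val_zero] at h1
    have hre : ((squareSegs c a 1).pt t 0 - c).re = a := by
      simp [squareSegs, Seg.pt]
    have him : ((squareSegs c a 1).pt t 0 - c).im = -a + t := by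
      simp [squareSegs, Seg.pt]; try ring
    simp only [Fin.mk_one]
    rw [hre, him, abs_of_nonneg ha]
    exact ⟨le_rfl, abs_le.2 ⟨by linarith, by linarith⟩, Or.inl rfl⟩
  · simp only [squareSegs, Fin.reduceFinMk, Matrix.cons_val] at h1
    have hre : ((squareSegs c a 2).pt t 0 - c).re = a - t := by
      simp [squareSegs, Seg.pt]; try ring
    have him : ((squareSegs c a 2).pt t 0 - c).im = a := by
      simp [squareSegs, Seg.pt]
    simp only [Fin.reduceFinMk]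
    rw [hre, him, abs_of_nonneg ha]
    exact ⟨abs_le.2 ⟨by linarith, by linarith⟩, le_rfl, Or.inr rfl⟩
  · simp only [squareSegs, Fin.reduceFinMk, Matrix.cons_val] at h1
    have hre : ((squareSegs c a 3).pt t 0 - c).re = -a := by
      simp [squareSegs, Seg.pt]
    have him : ((squareSegs c a 3).pt t 0 - c).im = a - t := by
      simp [squareSegs, Seg.pt]; try ring
    simp only [Fin.reduceFinMk]
    rw [hre, him, abs_neg, abs_of_nonneg ha]
    exact ⟨le_rfl, abs_le.2 ⟨by linarith, by linarith⟩, Or.inl rfl⟩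
  · simp only [squareSegs, Fin.reduceFinMk, Matrix.cons_val] at h1
    have hre : ((squareSegs c a 4).pt t 0 - c).re = -a + t := by
      simp [squareSegs, Seg.pt]; try ring
    have him : ((squareSegs c a 4).pt t 0 - c).im = -a := by
      simp [squareSegs, Seg.pt]
    simp only [Fin.reduceFinMk]
    rw [hre, him, abs_neg, abs_of_nonneg ha]
    exact ⟨abs_le.2 ⟨by linarith, by linarith⟩, le_rfl, Or.inr rfl⟩

/-! ### nesting -/

lemma lam_base (hP : P.Good om) (hS : S.OK P om) (p : Σ _ : Fin 5, ℕ) (hp : p ∈ cells P S)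
    {β : ℂ} {η : ℝ} (hβ : β ∈ (lamChild P S p).segN η) :
    β ∈ (P.segs p.1).nb (η + 2 * S.τ) := by
  obtain ⟨j, t, h0, h1, h2⟩ := hβ
  obtain ⟨t'', h3, h4, h5⟩ := childSegs_near (P.segs p.1) (hP.unit p.1) (P.cellA S p.1 p.2)
    (P.cellB S p.1 p.2) S.τ (cellA_le_cellB hP _ _) hS.τ_pos.le j t h0 h1
  refine ⟨t'', le_trans (cellA_nonneg hP _ _) h3,
    le_trans h4 (cellB_le_len hP _ _ (mem_cells.1 hp)), ?_⟩
  change ‖β - (childSegs (P.segs p.1) (P.cellA S p.1 p.2) (P.cellB S p.1 p.2) S.τ j).pt t 0‖ ≤ η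
    at h2
  calc ‖β - (P.segs p.1).pt t'' 0‖
      = ‖(β - (childSegs (P.segs p.1) (P.cellA S p.1 p.2) (P.cellB S p.1 p.2) S.τ j).pt t 0) +
        ((childSegs (P.segs p.1) (P.cellA S p.1 p.2) (P.cellB S p.1 p.2) S.τ j).pt t 0 -
          (P.segs p.1).pt t'' 0)‖ := by congr 1; ring
    _ ≤ _ := norm_add_le _ _
    _ ≤ η + 2 * S.τ := by linarith

lemma Seg.nb_mono (s : Seg) {h h' : ℝ} (hh : h ≤ h') : s.nb h ⊆ s.nb h' := by
  rintro β ⟨t, h0, h1, h2⟩
  exact ⟨t, h0, h1, le_trans h2 hh⟩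

lemma lam_nest (hP : P.Good om) (hS : S.OK P om) (p : Σ _ : Fin 5, ℕ) (hp : p ∈ cells P S) :
    (lamChild P S p).N ⊆ P.N := by
  rintro x ⟨h1, h2⟩
  change (emb P.sw x).1 ∈ (lamChild P S p).segN (S.D / 10) at h1
  change ‖(emb P.sw x).2 - P.cellC S p.1 p.2‖ ≤ 10 * S.ρ' at h2
  refine ⟨⟨p.1, ?_⟩, ?_⟩
  · apply (P.segs p.1).nb_mono _ (lam_base hP hS p hp h1)
    have := hS.τD
    have := hS.Dl
    have := hS.τ_pos
    linarith
  · have h3 := cellC_sub hP hS p.1 p.2 (mem_cells.1 hp)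
    have h4 := ρ'_le hS
    have h5 := hS.ρ'_pos
    calc ‖(emb P.sw x).2 - P.c‖
        = ‖((emb P.sw x).2 - P.cellC S p.1 p.2) + (P.cellC S p.1 p.2 - P.c)‖ := by
          congr 1; ring
      _ ≤ _ := norm_add_le _ _
      _ ≤ 10 * P.ρ := by linarith

/-- base coordinate of `N` of a w-child is near the segments -/
lemma w_base (hP : P.Good om) (hS : S.OK P om) (κ : ℤ × ℤ) (hκ : κ ∈ poles P S) {x : ℂ × ℂ}
    (hx : x ∈ (wChild P S κ).N) :
    (∃ k, (emb P.sw x).1 ∈ (P.segs k).nb (3 * S.τ + 10 * S.r1)) ∧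
    ‖(emb P.sw x).1 - lat S.d κ‖ ≤ 10 * S.r1 ∧
    (∃ j, (emb P.sw x).2 ∈ (squareSegs P.c (4 * P.ρ) j).nb (8 * P.ρ / 10)) := by
  obtain ⟨⟨j, hj⟩, h2⟩ := hx
  change (emb (!P.sw) x).1 ∈ (squareSegs P.c (4 * P.ρ) j).nb (8 * P.ρ / 10) at hj
  change ‖(emb (!P.sw) x).2 - lat S.d κ‖ ≤ 10 * S.r1 at h2
  rw [emb_not] at hj h2
  simp only [Prod.fst_swap, Prod.snd_swap] at hj h2
  obtain ⟨k, _, t, h0, h1, h3⟩ := mem_poles.1 hκ
  refine ⟨⟨k, t, h0, h1, ?_⟩, h2, ⟨j, hj⟩⟩
  calc ‖(emb P.sw x).1 - (P.segs k).pt t 0‖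
      = ‖((emb P.sw x).1 - lat S.d κ) + (lat S.d κ - (P.segs k).pt t 0)‖ := by congr 1; ring
    _ ≤ _ := norm_add_le _ _
    _ ≤ 3 * S.τ + 10 * S.r1 := by linarith

lemma w_fiber_bounds (hP : P.Good om) {φ : ℂ} {j : Fin 5}
    (hφ : φ ∈ (squareSegs P.c (4 * P.ρ) j).nb (8 * P.ρ / 10)) :
    ‖φ - P.c‖ ≤ 10 * P.ρ ∧ 3 * P.ρ ≤ ‖φ - P.c‖ := by
  have hρ := hP.ρ_pos
  obtain ⟨t, h0, h1, h2⟩ := hφ
  obtain ⟨e1, e2, e3⟩ := squareSegs_pt P.c (4 * P.ρ) (by linarith) j t h0 h1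
  set q := (squareSegs P.c (4 * P.ρ) j).pt t 0 with hq
  have hup : ‖q - P.c‖ ≤ 8 * P.ρ := by
    refine le_trans (Complex.norm_le_abs_re_add_abs_im _) (by linarith)
  have hlow : 4 * P.ρ ≤ ‖q - P.c‖ := by
    rcases e3 with e | e
    · rw [← e]; exact Complex.abs_re_le_norm _
    · rw [← e]; exact Complex.abs_im_le_norm _
  constructor
  · calc ‖φ - P.c‖ = ‖(φ - q) + (q - P.c)‖ := by congr 1; ring
      _ ≤ _ := norm_add_le _ _
      _ ≤ 10 * P.ρ := by linarith
  · have : ‖q - P.c‖ ≤ ‖φ - q‖ + ‖φ - P.c‖ := by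
      calc ‖q - P.c‖ = ‖(φ - P.c) - (φ - q)‖ := by congr 1; ring
        _ ≤ ‖φ - P.c‖ + ‖φ - q‖ := norm_sub_le _ _
        _ = _ := add_comm _ _
    linarith

lemma small_facts (hP : P.Good om) (hS : S.OK P om) : 3 * S.τ + 10 * S.r1 ≤ P.l / 10 := by
  have h1 := hS.τD
  have h2 := hS.Dl
  have h3 := hS.pgap
  have h4 := hS.dτ
  have h5 := hS.r1_pos
  linarith

lemma w_nest (hP : P.Good om) (hS : S.OK P om) (κ : ℤ × ℤ) (hκ : κ ∈ poles P S) :
    (wChild P S κ).N ⊆ P.N := by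
  intro x hx
  obtain ⟨⟨k, hk⟩, _, ⟨j, hj⟩⟩ := w_base hP hS κ hκ hx
  exact ⟨⟨k, (P.segs k).nb_mono (small_facts hP hS) hk⟩, (w_fiber_bounds hP hj).1⟩

lemma child_nest (hP : P.Good om) (hS : S.OK P om) : ∀ Q ∈ children P S, Q.N ⊆ P.N := by
  intro Q hQ
  rcases mem_children.1 hQ with ⟨p, hp, rfl⟩ | ⟨κ, hκ, rfl⟩
  · exact lam_nest hP hS p hp
  · exact w_nest hP hS κ hκ

/-! ### disjointness -/

lemma cellC_dist (hP : P.Good om) (hS : S.OK P om) (p q : Σ _ : Fin 5, ℕ)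
    (hp : p ∈ cells P S) (hq : q ∈ cells P S) (hpq : p ≠ q) :
    20 * S.ρ' < ‖P.cellC S p.1 p.2 - P.cellC S q.1 q.2‖ := by
  have hN := cellN_pos (P := P) (S := S)
  have hρ := hP.ρ_pos
  have hp' := lt_of_lt_of_le (mem_cells.1 hp) (num_le_cellN hP hS p.1)
  have hq' := lt_of_lt_of_le (mem_cells.1 hq) (num_le_cellN hP hS q.1)
  set n := P.cellN S with hn
  have hne : ((p.1 : ℕ) * n + p.2 : ℕ) ≠ ((q.1 : ℕ) * n + q.2 : ℕ) := by
    intro h
    apply hpq
    have hn0 : 0 < n := by omega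
    have h1 : (p.1 : ℕ) = (q.1 : ℕ) := by
      have := congrArg (· / n) h
      simp only [Nat.mul_comm _ n, Nat.mul_add_div hn0, Nat.div_eq_of_lt hp',
        Nat.div_eq_of_lt hq'] at this
      simpa using this
    have h2 : p.2 = q.2 := by rw [h1] at h; omega
    obtain ⟨p1, p2⟩ := p
    obtain ⟨q1, q2⟩ := q
    simp only at h1 h2
    have h3 : p1 = q1 := Fin.ext h1
    subst h3; subst h2; rfl
  have hdist : (1:ℝ) ≤ |(((p.1 : ℕ) * n + p.2 : ℕ) : ℝ) - (((q.1 : ℕ) * n + q.2 : ℕ) : ℝ)| := by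
    have h3 : ((((p.1 : ℕ) * n + p.2 : ℕ) : ℤ) - (((q.1 : ℕ) * n + q.2 : ℕ) : ℤ)) ≠ 0 := by
      intro h
      apply hne
      omega
    have h4 := Int.one_le_abs h3
    exact_mod_cast h4
  have hdiff : P.cellC S p.1 p.2 - P.cellC S q.1 q.2 =
      (((P.ρ / (20 * n)) * ((((p.1 : ℕ) * n + p.2 : ℕ) : ℝ) - (((q.1 : ℕ) * n + q.2 : ℕ) : ℝ)) : ℝ) : ℂ) := by
    unfold Plate.cellC
    rw [← hn]
    push_cast
    ring
  rw [hdiff, Complex.norm_real, Real.norm_eq_abs, abs_mul, abs_of_nonneg (by positivity)]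
  have h5 := hS.gap
  rw [← hn] at h5
  have h6 : 20 * S.ρ' < P.ρ / (20 * n) := by
    rw [lt_div_iff₀ (by positivity)]
    linarith
  calc 20 * S.ρ' < P.ρ / (20 * n) := h6
    _ = P.ρ / (20 * n) * 1 := (mul_one _).symm
    _ ≤ _ := by gcongr

lemma lat_dist (d : ℝ) (hd : 0 < d) (κ κ' : ℤ × ℤ) (h : κ ≠ κ') : d ≤ ‖lat d κ - lat d κ'‖ := by
  have key : ∀ x y : ℤ, x ≠ y → d ≤ |d * x - d * y| := by
    intro x y hxy
    rw [← mul_sub, abs_mul, abs_of_pos hd]
    have h1 : (1:ℝ) ≤ |(x:ℝ) - y| := by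
      have := Int.one_le_abs (sub_ne_zero.2 hxy)
      exact_mod_cast this
    nlinarith
  by_cases h1 : κ.1 = κ'.1
  · have h2 : κ.2 ≠ κ'.2 := fun h2 => h (Prod.ext h1 h2)
    refine le_trans (key _ _ h2) ?_
    have := Complex.abs_im_le_norm (lat d κ - lat d κ')
    simpa [lat] using this
  · refine le_trans (key _ _ h1) ?_
    have := Complex.abs_re_le_norm (lat d κ - lat d κ')
    simpa [lat] using this

lemma child_disjoint (hP : P.Good om) (hS : S.OK P om) :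
    (children P S).Pairwise (fun Q Q' => Disjoint Q.N Q'.N) := by
  unfold children
  rw [List.pairwise_append]
  refine ⟨?_, ?_, ?_⟩
  · rw [List.pairwise_map]
    apply List.Nodup.pairwise_of_forall_ne (Finset.nodup_toList _)
    intro p hp q hq hpq
    rw [Finset.mem_toList] at hp hq
    rw [Set.disjoint_left]
    rintro x ⟨_, h1⟩ ⟨_, h2⟩
    change ‖(emb P.sw x).2 - P.cellC S p.1 p.2‖ ≤ 10 * S.ρ' at h1
    change ‖(emb P.sw x).2 - P.cellC S q.1 q.2‖ ≤ 10 * S.ρ' at h2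
    have h3 := cellC_dist hP hS p q hp hq hpq
    have h4 : ‖P.cellC S p.1 p.2 - P.cellC S q.1 q.2‖ ≤ 20 * S.ρ' := by
      calc ‖P.cellC S p.1 p.2 - P.cellC S q.1 q.2‖
          = ‖((emb P.sw x).2 - P.cellC S q.1 q.2) - ((emb P.sw x).2 - P.cellC S p.1 p.2)‖ := by
            congr 1; ring
        _ ≤ _ := norm_sub_le _ _
        _ ≤ 20 * S.ρ' := by linarith
    linarith
  · rw [List.pairwise_map]
    apply List.Nodup.pairwise_of_forall_ne (Finset.nodup_toList _)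
    intro κ hκ κ' hκ' hne
    rw [Finset.mem_toList] at hκ hκ'
    rw [Set.disjoint_left]
    intro x h1 h2
    have e1 := (w_base hP hS κ hκ h1).2.1
    have e2 := (w_base hP hS κ' hκ' h2).2.1
    have h3 := lat_dist S.d hS.d_pos κ κ' hne
    have h4 : ‖lat S.d κ - lat S.d κ'‖ ≤ 20 * S.r1 := by
      calc ‖lat S.d κ - lat S.d κ'‖
          = ‖((emb P.sw x).1 - lat S.d κ') - ((emb P.sw x).1 - lat S.d κ)‖ := by
            congr 1; ring
        _ ≤ _ := norm_sub_le _ _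
        _ ≤ 20 * S.r1 := by linarith
    linarith [hS.pgap]
  · intro Q hQ Q' hQ'
    rw [List.mem_map] at hQ hQ'
    obtain ⟨p, hp, rfl⟩ := hQ
    obtain ⟨κ, hκ, rfl⟩ := hQ'
    rw [Finset.mem_toList] at hp hκ
    rw [Set.disjoint_left]
    rintro x ⟨_, h1⟩ h2
    change ‖(emb P.sw x).2 - P.cellC S p.1 p.2‖ ≤ 10 * S.ρ' at h1
    obtain ⟨_, _, ⟨j, hj⟩⟩ := w_base hP hS κ hκ h2
    have h3 := (w_fiber_bounds hP hj).2
    have h4 := cellC_sub hP hS p.1 p.2 (mem_cells.1 hp)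
    have h5 : ‖(emb P.sw x).2 - P.c‖ ≤ 10 * S.ρ' + P.ρ / 4 := by
      calc ‖(emb P.sw x).2 - P.c‖
          = ‖((emb P.sw x).2 - P.cellC S p.1 p.2) + (P.cellC S p.1 p.2 - P.c)‖ := by
            congr 1; ring
        _ ≤ _ := norm_add_le _ _
        _ ≤ _ := by linarith
    have h6 := ρ'_le hS
    have h7 := hS.ρ'_pos
    linarith

/-! ### cost -/

lemma cells_card (hP : P.Good om) (hS : S.OK P om) : ((cells P S).card : ℝ) ≤ P.W / S.D + 5 := by
  unfold cells
  rw [Finset.card_sigma]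
  simp only [Finset.card_range]
  push_cast
  have hD := hS.D_pos
  have h1 : ∀ k, (P.num S k : ℝ) ≤ (P.segs k).len / S.D + 1 := by
    intro k
    unfold Plate.num
    push_cast
    have := Nat.floor_le (div_nonneg (hP.len0 k) hD.le)
    linarith
  calc ∑ k, (P.num S k : ℝ) ≤ ∑ k, ((P.segs k).len / S.D + 1) := Finset.sum_le_sum (fun k _ => h1 k)
    _ = (∑ k, (P.segs k).len) / S.D + 5 := by
        rw [Finset.sum_add_distrib, ← Finset.sum_div]
        simp
    _ ≤ P.W / S.D + 5 := by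
        have := hP.lenW
        gcongr

lemma icc_card_le (x y : ℝ) (hxy : x ≤ y) :
    ((Finset.Icc ⌊x⌋ ⌊y⌋).card : ℝ) ≤ y - x + 2 := by
  rw [Int.card_Icc]
  have h1 := Int.floor_le_floor hxy
  have h2 : (((⌊y⌋ + 1 - ⌊x⌋).toNat : ℤ) : ℝ) = ((⌊y⌋ + 1 - ⌊x⌋ : ℤ) : ℝ) := by
    rw [Int.toNat_of_nonneg (by linarith)]
  have h3 : (((⌊y⌋ + 1 - ⌊x⌋).toNat : ℕ) : ℝ) = (((⌊y⌋ + 1 - ⌊x⌋).toNat : ℤ) : ℝ) := by
    norm_cast
  rw [h3, h2]
  push_cast
  have := Int.floor_le y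
  have := Int.lt_floor_add_one x
  linarith

lemma poleBox_card (s : Seg) (hw : ‖s.w‖ = 1) (hax : s.w.re = 0 ∨ s.w.im = 0)
    (hl : 0 ≤ s.len) (τ d : ℝ) (hτ : 0 ≤ τ) (hd : 0 < d) :
    ((poleBox s τ d).card : ℝ) ≤ ((s.len + 2 * τ) / d + 2) * (2 * τ / d + 2) := by
  unfold poleBox
  rw [Finset.card_product]
  push_cast
  have key : ∀ (o A : ℝ), ((Finset.Icc ⌊(o + min 0 A - τ) / d + 1/2⌋
      ⌊(o + max 0 A + τ) / d + 1/2⌋).card : ℝ) ≤ (|A| + 2 * τ) / d + 2 := by
    intro o A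
    have h0 : max 0 A - min 0 A = |A| := by
      rcases le_total 0 A with h | h
      · rw [max_eq_right h, min_eq_left h, abs_of_nonneg h]; ring
      · rw [max_eq_left h, min_eq_right h, abs_of_nonpos h]; ring
    refine le_trans (icc_card_le _ _ ?_) (le_of_eq ?_)
    · have : min 0 A ≤ max 0 A := min_le_max
      gcongr
      linarith
    · rw [← h0]; field_simp; ring
  have k1 := key s.o.re (s.w.re * s.len)
  have k2 := key s.o.im (s.w.im * s.len)
  have hpos : 0 ≤ (s.len + 2 * τ) / d + 2 := by positivity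
  have hpos2 : 0 ≤ 2 * τ / d + 2 := by positivity
  rcases unit_axis hw hax with ⟨e1, e2⟩ | ⟨e1, e2⟩ | ⟨e1, e2⟩ | ⟨e1, e2⟩
  · rw [e1, one_mul, abs_of_nonneg hl] at k1
    rw [e2, zero_mul, abs_zero, zero_add] at k2
    rw [e1, e2, one_mul, zero_mul]
    exact mul_le_mul k1 k2 (by positivity) hpos
  · rw [e1, neg_one_mul, abs_neg, abs_of_nonneg hl] at k1
    rw [e2, zero_mul, abs_zero, zero_add] at k2
    rw [e1, e2, neg_one_mul, zero_mul]
    exact mul_le_mul k1 k2 (by positivity) hpos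
  · rw [e1, zero_mul, abs_zero, zero_add] at k1
    rw [e2, one_mul, abs_of_nonneg hl] at k2
    rw [e1, e2, one_mul, zero_mul, mul_comm ((s.len + 2 * τ) / d + 2)]
    exact mul_le_mul k1 k2 (by positivity) hpos2
  · rw [e1, zero_mul, abs_zero, zero_add] at k1
    rw [e2, neg_one_mul, abs_neg, abs_of_nonneg hl] at k2
    rw [e1, e2, neg_one_mul, zero_mul, mul_comm ((s.len + 2 * τ) / d + 2)]
    exact mul_le_mul k1 k2 (by positivity) hpos2

open Classical in
lemma poles_card (hP : P.Good om) (hS : S.OK P om) : ((poles P S).card : ℝ) ≤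
    ((P.W + 10 * S.τ) / S.d + 10) * (2 * S.τ / S.d + 2) := by
  have hd := hS.d_pos
  have hτ := hS.τ_pos
  have h1 : ((poles P S).card : ℝ) ≤ ∑ k, ((poleBox (P.segs k) S.τ S.d).card : ℝ) := by
    have : (poles P S).card ≤ ∑ k, (poleBox (P.segs k) S.τ S.d).card := by
      unfold poles
      refine le_trans Finset.card_biUnion_le ?_
      apply Finset.sum_le_sum
      intro k _
      exact Finset.card_filter_le _ _
    exact_mod_cast this
  refine le_trans h1 ?_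
  calc ∑ k, ((poleBox (P.segs k) S.τ S.d).card : ℝ)
      ≤ ∑ k, (((P.segs k).len + 2 * S.τ) / S.d + 2) * (2 * S.τ / S.d + 2) :=
        Finset.sum_le_sum (fun k _ =>
          poleBox_card (P.segs k) (hP.unit k) (hP.axis k) (hP.len0 k) S.τ S.d hτ.le hd)
    _ = (((∑ k, (P.segs k).len) + 10 * S.τ) / S.d + 10) * (2 * S.τ / S.d + 2) := by
        rw [← Finset.sum_mul, Finset.sum_add_distrib, ← Finset.sum_div, Finset.sum_add_distrib]
        simp only [Finset.sum_const, Finset.card_univ, Fintype.card_fin, nsmul_eq_mul]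
        norm_num
        ring_nf
        simp
    _ ≤ _ := by
        have := hP.lenW
        gcongr

lemma children_cost (hP : P.Good om) (hS : S.OK P om) :
    ((children P S).map Plate.W).sum ≤ (P.W / S.D + 5) * (S.D + 10 * S.τ) +
      ((P.W + 10 * S.τ) / S.d + 10) * (2 * S.τ / S.d + 2) * (32 * P.ρ) := by
  unfold children
  rw [List.map_append, List.sum_append, List.map_map, List.map_map]
  have h1 : (Plate.W ∘ lamChild P S) = fun _ => S.D + 10 * S.τ := by funext p; rfl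
  have h2 : (Plate.W ∘ wChild P S) = fun _ => 32 * P.ρ := by funext p; rfl
  rw [h1, h2]
  simp only [List.map_const', List.sum_replicate, Finset.length_toList, nsmul_eq_mul]
  have hD := hS.D_pos
  have hτ := hS.τ_pos
  have hρ := hP.ρ_pos
  have e1 := cells_card hP hS
  have e2 := poles_card hP hS
  gcongr

/-! ### children are good -/

lemma lam_good (hP : P.Good om) (hS : S.OK P om) (p : Σ _ : Fin 5, ℕ) (hp : p ∈ cells P S) :
    (lamChild P S p).Good (2 * S.τ) := by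
  have hD := hS.D_pos
  have hτ := hS.τ_pos
  have hτD := hS.τD
  have hd := hS.d_pos
  have hdτ := hS.dτ
  have hAB := cellA_le_cellB (S := S) hP p.1 p.2
  have hBA := cellB_sub_cellA_le hP hS p.1 p.2
  have hw := hP.unit p.1
  set s := P.segs p.1 with hs
  set a := P.cellA S p.1 p.2 with ha
  set b := P.cellB S p.1 p.2 with hb
  have hsegs : (lamChild P S p).segs = childSegs s a b S.τ := rfl
  have hax := hP.axis p.1
  rw [← hs] at hax
  have hun : ∀ k, ‖(childSegs s a b S.τ k).w‖ = 1 := by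
    intro k
    fin_cases k <;> simp [childSegs, hw]
  have hlen : ∀ k, 0 ≤ (childSegs s a b S.τ k).len := by
    intro k
    fin_cases k <;> simp [childSegs] <;> linarith
  refine ⟨hD, ?_, ?_, hun, ?_, hlen, ?_, ?_, ?_, hS.ρ'_pos, hS.ρ'D, ?_, ?_⟩
  · show S.D ≤ S.D + 10 * S.τ; linarith
  · show S.D + 10 * S.τ ≤ 5 * S.D; linarith
  · intro k
    rw [hsegs]
    fin_cases k <;> simp [childSegs] <;> tauto
  · rw [hsegs]
    show _ ≤ S.D + 10 * S.τ
    simp only [Fin.sum_univ_five, childSegs, Matrix.cons_val]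
    linarith
  · intro k t h0 h1
    rw [hsegs] at h1 ⊢
    show ‖_ - s.pt a 0‖ ≤ 2 * S.D
    obtain ⟨t'', h2, h3, h4⟩ := childSegs_near s hw a b S.τ hAB hτ.le k t h0 h1
    have h5 : ‖s.pt t'' 0 - s.pt a 0‖ ≤ S.D := by
      refine le_trans (s.norm_pt_sub_le hw _ _ _ _) ?_
      rw [sub_zero, abs_zero, add_zero, abs_of_nonneg (by linarith)]
      linarith
    calc ‖(childSegs s a b S.τ k).pt t 0 - s.pt a 0‖
        = ‖((childSegs s a b S.τ k).pt t 0 - s.pt t'' 0) + (s.pt t'' 0 - s.pt a 0)‖ := by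
          congr 1; ring
      _ ≤ _ := norm_add_le _ _
      _ ≤ 2 * S.D := by linarith
  · intro k t y h0 h1 h2 h3
    rw [hsegs] at h1 ⊢
    show _ ∈ cellRect s a b S.τ
    have key : ∀ t' y', a - S.τ ≤ t' → t' ≤ b + S.τ → -S.τ ≤ y' → y' ≤ S.τ →
        s.pt t' y' ∈ cellRect s a b S.τ := by
      intro t' y' e1 e2 e3 e4
      refine ⟨?_, ?_, ?_, ?_⟩
      · rwa [s.co_pt_re hw]
      · rwa [s.co_pt_re hw]
      · rwa [s.co_pt_im hw]
      · rwa [s.co_pt_im hw]
    fin_cases k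
    · simp only [childSegs, Fin.zero_eta, Matrix.cons_val_zero] at h1
      simp only [Fin.zero_eta]
      rw [childSegs_pt0]
      apply key <;> linarith
    · simp only [childSegs, Fin.mk_one, Matrix.cons_val_one, Matrix.cons_val_zero] at h1
      simp only [Fin.mk_one]
      rw [childSegs_pt1]
      apply key <;> linarith
    · simp only [childSegs, Fin.reduceFinMk, Matrix.cons_val] at h1
      simp only [Fin.reduceFinMk]
      rw [childSegs_pt2]
      apply key <;> linarith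
    · simp only [childSegs, Fin.reduceFinMk, Matrix.cons_val] at h1
      simp only [Fin.reduceFinMk]
      rw [childSegs_pt3]
      apply key <;> linarith
    · simp only [childSegs, Fin.reduceFinMk, Matrix.cons_val] at h1
      simp only [Fin.reduceFinMk]
      rw [childSegs_pt4]
      apply key <;> linarith
  · show 0 ≤ 3 * S.d; linarith
  · show 3 * S.d ≤ S.D / 10; linarith

lemma w_good (hP : P.Good om) (hS : S.OK P om) (κ : ℤ × ℤ) :
    (wChild P S κ).Good (8 * P.ρ) := by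
  have hρ := hP.ρ_pos
  have hr := hS.r1_pos
  have hsegs : (wChild P S κ).segs = squareSegs P.c (4 * P.ρ) := rfl
  have hlen : ∀ k, 0 ≤ (squareSegs P.c (4 * P.ρ) k).len := by
    intro k
    fin_cases k <;> simp [squareSegs] <;> linarith
  refine ⟨?_, ?_, ?_, squareSegs_unit _ _, ?_, hlen, ?_, ?_, ?_, hr, hS.r1ρ, le_rfl, ?_⟩
  · show 0 < 8 * P.ρ; linarith
  · show 8 * P.ρ ≤ 32 * P.ρ; linarith
  · show 32 * P.ρ ≤ 5 * (8 * P.ρ); linarith
  · intro k
    rw [hsegs]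
    fin_cases k <;> simp [squareSegs]
  · rw [hsegs]
    show _ ≤ 32 * P.ρ
    simp only [Fin.sum_univ_five, squareSegs, Matrix.cons_val]
    linarith
  · intro k t h0 h1
    rw [hsegs] at h1 ⊢
    show ‖_ - P.c‖ ≤ 2 * (8 * P.ρ)
    obtain ⟨e1, e2, _⟩ := squareSegs_pt P.c (4 * P.ρ) (by linarith) k t h0 h1
    exact le_trans (Complex.norm_le_abs_re_add_abs_im _) (by linarith)
  · intro k t y h0 h1 h2 h3
    rw [hsegs] at h1 ⊢
    show |_| ≤ _ ∧ |_| ≤ _
    set a := 4 * P.ρ with ha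
    have h3' : y ≤ 2 * a := by linarith
    have key : ∀ v : ℂ, -a ≤ v.re → v.re ≤ a → -a ≤ v.im → v.im ≤ a →
        |v.re| ≤ a ∧ |v.im| ≤ a := by
      intro v e1 e2 e3 e4
      exact ⟨abs_le.2 ⟨e1, e2⟩, abs_le.2 ⟨e3, e4⟩⟩
    fin_cases k
    · simp only [squareSegs, Fin.zero_eta, Matrix.cons_val_zero] at h1
      apply key <;> simp [squareSegs, Seg.pt] <;> linarith
    · simp only [squareSegs, Fin.mk_one, Matrix.cons_val_one, Matrix.cons_val_zero] at h1
      apply key <;> simp [squareSegs, Seg.pt] <;> linarith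
    · simp only [squareSegs, Fin.reduceFinMk, Matrix.cons_val] at h1
      apply key <;> simp [squareSegs, Seg.pt] <;> linarith
    · simp only [squareSegs, Fin.reduceFinMk, Matrix.cons_val] at h1
      apply key <;> simp [squareSegs, Seg.pt] <;> linarith
    · simp only [squareSegs, Fin.reduceFinMk, Matrix.cons_val] at h1
      apply key <;> simp [squareSegs, Seg.pt] <;> linarith
  · show 0 ≤ 8 * P.ρ / 10; linarith

lemma Plate.Good.mono {om' : ℝ} (hP : P.Good om) (h : om' ≤ om) : P.Good om' :=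
  ⟨hP.l_pos, hP.lW, hP.W5, hP.unit, hP.axis, hP.len0, hP.lenW, hP.diam,
    fun k t y h0 h1 h2 h3 => hP.collar k t y h0 h1 h2 (le_trans h3 h), hP.ρ_pos, hP.ρl,
    hP.h0, hP.hl⟩

/-! ### compactness and diameter of N -/

lemma Seg.nb_compact (s : Seg) (η : ℝ) : IsCompact (s.nb η) := by
  have h1 : s.nb η = (fun p : ℝ × ℂ => s.pt p.1 0 + p.2) '' (Icc 0 s.len ×ˢ closedBall 0 η) := by
    ext β
    constructor
    · rintro ⟨t, h0, h1, h2⟩
      refine ⟨(t, β - s.pt t 0), ⟨⟨h0, h1⟩, ?_⟩, by simp⟩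
      simpa using h2
    · rintro ⟨⟨t, v⟩, ⟨⟨h0, h1⟩, h2⟩, rfl⟩
      refine ⟨t, h0, h1, ?_⟩
      simpa using h2
  rw [h1]
  apply (isCompact_Icc.prod (isCompact_closedBall _ _)).image
  unfold Seg.pt
  fun_prop

lemma N_compact (P : Plate) : IsCompact P.N := by
  have hK : IsCompact (P.segN (P.l / 10) ×ˢ closedBall P.c (10 * P.ρ)) := by
    apply IsCompact.prod _ (isCompact_closedBall _ _)
    have : P.segN (P.l / 10) = ⋃ k, (P.segs k).nb (P.l / 10) := by
      ext β; simp [Plate.segN]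
    rw [this]
    exact isCompact_iUnion (fun k => (P.segs k).nb_compact _)
  have : P.N = emb P.sw '' (P.segN (P.l / 10) ×ˢ closedBall P.c (10 * P.ρ)) := by
    ext x
    constructor
    · rintro ⟨h1, h2⟩
      refine ⟨emb P.sw x, ⟨h1, ?_⟩, emb_emb _ _⟩
      rwa [mem_closedBall, dist_eq_norm]
    · rintro ⟨y, ⟨h1, h2⟩, rfl⟩
      refine ⟨?_, ?_⟩
      · rw [emb_emb]; exact h1
      · rw [emb_emb]; rwa [mem_closedBall, dist_eq_norm] at h2
  rw [this]
  exact hK.image (emb_continuous _)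

lemma emb_dist (b : Bool) (x y : ℂ × ℂ) : dist (emb b x) (emb b y) = dist x y := by
  cases b
  · simp [emb]
  · simp [emb, Prod.dist_eq, max_comm]

lemma N_diam (hP : P.Good om) {x y : ℂ × ℂ} (hx : x ∈ P.N) (hy : y ∈ P.N) :
    dist x y ≤ 5 * P.l := by
  have hl := hP.l_pos
  have key : ∀ x ∈ P.N, ‖(emb P.sw x).1 - P.z‖ ≤ 2.1 * P.l := by
    rintro x ⟨⟨k, t, h0, h1, h2⟩, _⟩
    calc ‖(emb P.sw x).1 - P.z‖
        = ‖((emb P.sw x).1 - (P.segs k).pt t 0) + ((P.segs k).pt t 0 - P.z)‖ := by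
          congr 1; ring
      _ ≤ _ := norm_add_le _ _
      _ ≤ 2.1 * P.l := by linarith [hP.diam k t h0 h1]
  rw [← emb_dist P.sw, Prod.dist_eq]
  apply max_le
  · rw [dist_eq_norm]
    have h1 := key x hx
    have h2 := key y hy
    calc ‖(emb P.sw x).1 - (emb P.sw y).1‖
        = ‖((emb P.sw x).1 - P.z) - ((emb P.sw y).1 - P.z)‖ := by congr 1; ring
      _ ≤ _ := norm_sub_le _ _
      _ ≤ 5 * P.l := by linarith
  · rw [dist_eq_norm]
    have h1 := hx.2
    have h2 := hy.2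
    have h3 := hP.ρl
    calc ‖(emb P.sw x).2 - (emb P.sw y).2‖
        = ‖((emb P.sw x).2 - P.c) - ((emb P.sw y).2 - P.c)‖ := by congr 1; ring
      _ ≤ _ := norm_sub_le _ _
      _ ≤ 5 * P.l := by linarith

lemma supp_subset_N (hP : P.Good om) : P.supp ⊆ P.N := by
  rintro x ⟨⟨k, hk⟩, h2⟩
  refine ⟨⟨k, (P.segs k).nb_mono hP.hl hk⟩, le_trans h2 ?_⟩
  have := hP.ρ_pos
  linarith

end

end Pool.Agent.H99.PC
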