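import Pool.Agent.H99.PC.Nest

/-! Explicit parameters of the refinement steps. -/

set_option autoImplicit false

namespace Pool.Agent.H99.PC

open Complex Metric Set

noncomputable def dl (m : ℕ) : ℝ := (1/2) ^ m / 128
noncomputable def th (m : ℕ) : ℝ := ((1/2) ^ m) ^ 2 / 16384
noncomputable def ka (m : ℕ) : ℝ := ((1/2) ^ m) ^ 6 / 2 ^ 40
noncomputable def bb (m : ℕ) : ℝ := ((1/2) ^ m) ^ 12 / 2 ^ 80
noncomputable def aa (m : ℕ) : ℝ := 3 * ((1/2) ^ m) ^ 5 / 2 ^ 28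
noncomputable def oo (m : ℕ) : ℝ := (1/2) ^ m / 32

lemma half_pos' (m : ℕ) : (0:ℝ) < (1/2) ^ m := by positivity
lemma half_le (m : ℕ) : ((1/2 : ℝ)) ^ m ≤ 1 := pow_le_one₀ (by norm_num) (by norm_num)

lemma bb_succ (m : ℕ) : bb (m+1) = bb m / 4096 := by
  unfold bb; rw [pow_succ]; ring

noncomputable def stepOf (m : ℕ) (P : Plate) : Step where
  D := dl m * P.l
  τ := th m * P.l
  d := ka m * P.l
  M := 18 * m + 129
  ρ' := bb (m+1) * (dl m * P.l)
  r1 := bb (m+1) * (8 * P.ρ)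

structure LG (m : ℕ) (P : Plate) : Prop where
  good : P.Good (oo m * P.l)
  hρ : P.ρ = bb m * P.l
  hh : P.h ≤ aa m * P.l

lemma pow_le_of (e : ℝ) (h0 : 0 < e) (h1 : e ≤ 1) {j k : ℕ} (h : j ≤ k) : e ^ k ≤ e ^ j :=
  pow_le_pow_of_le_one h0.le h1 h

lemma two_pow_ge (m : ℕ) : ((m:ℝ) + 1) ≤ 2 ^ m := by
  have : m + 1 ≤ 2 ^ m := Nat.lt_two_pow_self
  exact_mod_cast this

lemma exp_ge_two_pow (n : ℕ) : (2:ℝ) ^ n ≤ Real.exp n := by
  have h1 : (2:ℝ) ≤ Real.exp 1 := by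
    have := Real.add_one_le_exp (1:ℝ); linarith
  calc (2:ℝ) ^ n ≤ (Real.exp 1) ^ n := by gcongr
    _ = Real.exp n := by rw [← Real.exp_nat_mul]; simp

set_option maxHeartbeats 2000000 in
lemma step_ok {m : ℕ} {P : Plate} (h : LG m P) : (stepOf m P).OK P (oo m * P.l) := by
  have hl := h.good.l_pos
  have hρ := h.hρ
  have hρpos := h.good.ρ_pos
  set e : ℝ := (1/2) ^ m with he
  have he0 : 0 < e := half_pos' m
  have he1 : e ≤ 1 := half_le m
  have hm2 : e * 2 ^ m = 1 := by rw [he, ← mul_pow]; norm_num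
  have e2 : e ^ 2 ≤ e := by nlinarith
  have e6 : e ^ 6 ≤ e ^ 2 := pow_le_of e he0 he1 (by norm_num)
  have e5 : e ^ 5 ≤ e ^ 2 := pow_le_of e he0 he1 (by norm_num)
  have hdl : dl m = e / 128 := rfl
  have hth : th m = e ^ 2 / 16384 := rfl
  have hka : ka m = e ^ 6 / 2 ^ 40 := rfl
  have hbb : bb m = e ^ 12 / 2 ^ 80 := rfl
  have hb1 : bb (m+1) = e ^ 12 / 2 ^ 92 := by rw [bb_succ, hbb]; ring
  have haa : aa m = 3 * e ^ 5 / 2 ^ 28 := rfl
  have hoo : oo m = e / 32 := rfl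
  have hdlpos : 0 < dl m := by rw [hdl]; positivity
  have hthpos : 0 < th m := by rw [hth]; positivity
  have hkapos : 0 < ka m := by rw [hka]; positivity
  have hbpos : 0 < bb m := by rw [hbb]; positivity
  have hb1pos : 0 < bb (m+1) := by rw [hb1]; positivity
  have e12 : e ^ 12 ≤ 1 := pow_le_one₀ he0.le he1
  have hMreal : ((18 * m + 129 : ℕ) : ℝ) = 18 * m + 129 := by push_cast; ring
  clear_value e
  refine ⟨?_, ?_, ?_, ?_, ?_, ?_, ?_, ?_, ?_, ?_, ?_, ?_, ?_, ?_, ?_, ?_⟩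
  · show 0 < dl m * P.l; positivity
  · show dl m * P.l ≤ P.l / 20
    rw [hdl]; nlinarith
  · show 0 < th m * P.l; positivity
  · show 10 * (th m * P.l) ≤ dl m * P.l
    rw [hdl, hth]
    have : 10 * (e ^ 2 / 16384) ≤ e / 128 := by linarith
    nlinarith
  · show 0 < ka m * P.l; positivity
  · show 3 * (ka m * P.l) ≤ th m * P.l
    rw [hka, hth]
    have : 3 * (e ^ 6 / 2 ^ 40) ≤ e ^ 2 / 16384 := by
      have : 3 * (e ^ 6 / 2 ^ 40) ≤ 3 * (e ^ 2 / 2 ^ 40) := by gcongr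
      refine le_trans this ?_
      have : 0 < e ^ 2 := by positivity
      linarith
    nlinarith
  · show th m * P.l + 3 * (ka m * P.l) ≤ oo m * P.l
    rw [hka, hth, hoo]
    have : e ^ 2 / 16384 + 3 * (e ^ 6 / 2 ^ 40) ≤ e / 32 := by
      have h1 : 3 * (e ^ 6 / 2 ^ 40) ≤ 3 * (e ^ 2 / 2 ^ 40) := by gcongr
      have : 0 < e ^ 2 := by positivity
      linarith
    nlinarith
  · show 0 < 18 * m + 129; omega
  · show 0 < bb (m+1) * (dl m * P.l); positivity
  · -- growth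
    show 5/4 * P.ρ ≤ bb (m+1) * (dl m * P.l) * Real.exp ((th m * P.l - P.h - 3 * (ka m * P.l)) /
      (5 * ((18 * m + 129 : ℕ) : ℝ) * (ka m * P.l)))
    rw [hMreal]
    have hx : (m:ℝ) + 20 ≤ (th m * P.l - P.h - 3 * (ka m * P.l)) /
      (5 * (18 * m + 129) * (ka m * P.l)) := by
      rw [le_div_iff₀ (by positivity)]
      have h1 : (th m / 2) * P.l ≤ th m * P.l - P.h - 3 * (ka m * P.l) := by
        have h2 := h.hh
        have h3 : aa m + 3 * ka m ≤ th m / 2 := by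
          rw [haa, hka, hth]
          have h1 : 3 * (e ^ 6 / 2 ^ 40) ≤ 3 * (e ^ 2 / 2 ^ 40) := by gcongr
          have h2 : 3 * e ^ 5 / 2 ^ 28 ≤ 3 * e ^ 2 / 2 ^ 28 := by gcongr
          have : 0 < e ^ 2 := by positivity
          linarith
        nlinarith
      refine le_trans ?_ h1
      have h4 : ((m:ℝ) + 20) * (5 * (18 * m + 129) * ka m) ≤ th m / 2 := by
        rw [hka, hth]
        -- (m+20)*5*(18m+129) * e^4 ≤ 2^25
        have h5 : ((m:ℝ) + 20) * (5 * (18 * m + 129)) * e ^ 4 ≤ 2 ^ 25 := by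
          have hm0 : (0:ℝ) ≤ m := by positivity
          have h6 : e * (m + 1) ≤ 1 := by
            have := two_pow_ge m
            nlinarith
          have h7 : ((m:ℝ) + 20) * (5 * (18 * m + 129)) ≤ 12900 * (m + 1) ^ 2 := by nlinarith
          have h8 : (e * (m + 1)) ^ 2 ≤ 1 := by
            apply pow_le_one₀ (by positivity) h6
          have h9 : e ^ 2 ≤ 1 := pow_le_one₀ he0.le he1
          calc ((m:ℝ) + 20) * (5 * (18 * m + 129)) * e ^ 4 ≤ 12900 * (m + 1) ^ 2 * e ^ 4 := by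
                gcongr
            _ = 12900 * (e * (m + 1)) ^ 2 * e ^ 2 := by ring
            _ ≤ 12900 * 1 * 1 := by gcongr
            _ ≤ 2 ^ 25 := by norm_num
        have h10 : ((m:ℝ) + 20) * (5 * (18 * m + 129) * (e ^ 6 / 2 ^ 40)) =
            (((m:ℝ) + 20) * (5 * (18 * m + 129)) * e ^ 4) * (e ^ 2 / 2 ^ 40) := by ring
        rw [h10]
        calc (((m:ℝ) + 20) * (5 * (18 * m + 129)) * e ^ 4) * (e ^ 2 / 2 ^ 40)
            ≤ 2 ^ 25 * (e ^ 2 / 2 ^ 40) := by gcongr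
          _ = e ^ 2 / 16384 / 2 := by ring
      calc ((m:ℝ) + 20) * (5 * (18 * m + 129) * (ka m * P.l))
          = (((m:ℝ) + 20) * (5 * (18 * m + 129) * ka m)) * P.l := by ring
        _ ≤ th m / 2 * P.l := by gcongr
    have hexp : (2:ℝ) ^ (m + 20) ≤ Real.exp ((th m * P.l - P.h - 3 * (ka m * P.l)) /
      (5 * (18 * m + 129) * (ka m * P.l))) := by
      refine le_trans (exp_ge_two_pow (m + 20)) ?_
      apply Real.exp_le_exp.2
      push_cast
      exact hx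
    refine le_trans ?_ (mul_le_mul_of_nonneg_left hexp (by positivity))
    rw [hρ, hbb, hb1, hdl]
    have : e ^ 12 / 2 ^ 92 * (e / 128 * P.l) * 2 ^ (m + 20) =
        (e * 2 ^ m) * (e ^ 12 * P.l) * (2 ^ 20 / (2 ^ 92 * 128)) := by
      rw [pow_add]; ring
    rw [this, hm2]
    have : 0 < e ^ 12 * P.l := by positivity
    have h3 : 5 / 4 * (e ^ 12 / 2 ^ 80 * P.l) = (e ^ 12 * P.l) * (5 / 4 / 2 ^ 80) := by ring
    rw [h3, one_mul]
    exact mul_le_mul_of_nonneg_left (by norm_num) this.le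
  · show 0 < bb (m+1) * (8 * P.ρ); positivity
  · show ka m * P.l ≤ bb (m+1) * (8 * P.ρ) * Real.exp ((18 * m + 129 : ℕ) : ℝ)
    refine le_trans ?_ (mul_le_mul_of_nonneg_left (exp_ge_two_pow (18 * m + 129))
      (by positivity))
    rw [hρ, hbb, hb1, hka]
    have : e ^ 12 / 2 ^ 92 * (8 * (e ^ 12 / 2 ^ 80 * P.l)) * 2 ^ (18 * m + 129) =
        (e * 2 ^ m) ^ 18 * (e ^ 6 * P.l) * (8 * 2 ^ 129 / (2 ^ 92 * 2 ^ 80)) := by
      rw [pow_add, mul_comm 18 m, pow_mul]; ring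
    rw [this, hm2]
    apply le_of_eq
    ring
  · show 400 * (bb (m+1) * (dl m * P.l)) * (P.cellN (stepOf m P)) < P.ρ
    have hD : 0 < dl m * P.l := by positivity
    have h1 : (P.cellN (stepOf m P) : ℝ) * (dl m * P.l) ≤ 6 * P.l := by
      unfold Plate.cellN
      show ((⌊P.W / (dl m * P.l)⌋₊ + 1 : ℕ) : ℝ) * (dl m * P.l) ≤ 6 * P.l
      push_cast
      have h2 := Nat.floor_le (div_nonneg (le_trans hl.le h.good.lW) hD.le)
      have h3 : dl m * P.l ≤ P.l := by rw [hdl]; nlinarith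
      calc ((⌊P.W / (dl m * P.l)⌋₊ : ℝ) + 1) * (dl m * P.l)
          ≤ (P.W / (dl m * P.l) + 1) * (dl m * P.l) := by gcongr
        _ = P.W + dl m * P.l := by field_simp
        _ ≤ 6 * P.l := by linarith [h.good.W5]
    have h4 : 400 * (bb (m+1) * (dl m * P.l)) * (P.cellN (stepOf m P)) ≤
        400 * bb (m+1) * (6 * P.l) := by
      calc 400 * (bb (m+1) * (dl m * P.l)) * (P.cellN (stepOf m P))
          = 400 * bb (m+1) * ((P.cellN (stepOf m P)) * (dl m * P.l)) := by ring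
        _ ≤ _ := by gcongr
    refine lt_of_le_of_lt h4 ?_
    rw [hρ, bb_succ]
    have := mul_pos hbpos hl
    linarith
  · show 20 * (bb (m+1) * (8 * P.ρ)) < ka m * P.l
    rw [hρ, hbb, hb1, hka]
    have h1 : 20 * (e ^ 12 / 2 ^ 92 * (8 * (e ^ 12 / 2 ^ 80 * P.l))) =
        (e ^ 6 * P.l) * (e ^ 18 * (160 / (2 ^ 92 * 2 ^ 80))) := by ring
    have h2 : e ^ 6 / 2 ^ 40 * P.l = (e ^ 6 * P.l) * (1 / 2 ^ 40) := by ring
    rw [h1, h2]
    have h3 : 0 < e ^ 6 * P.l := by positivity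
    have h4 : e ^ 18 ≤ 1 := pow_le_one₀ he0.le he1
    have h5 : e ^ 18 * (160 / (2 ^ 92 * 2 ^ 80)) < 1 / 2 ^ 40 := by
      calc e ^ 18 * (160 / (2 ^ 92 * 2 ^ 80)) ≤ 1 * (160 / (2 ^ 92 * 2 ^ 80)) := by gcongr
        _ < 1 / 2 ^ 40 := by norm_num
    exact mul_lt_mul_of_pos_left h5 h3
  · show bb (m+1) * (dl m * P.l) ≤ dl m * P.l / 100
    have h1 : bb (m+1) ≤ 1 / 100 := by
      rw [hb1]
      calc e ^ 12 / 2 ^ 92 ≤ 1 / 2 ^ 92 := by gcongr
        _ ≤ 1 / 100 := by norm_num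
    have h2 : 0 < dl m * P.l := mul_pos hdlpos hl
    calc bb (m+1) * (dl m * P.l) ≤ 1 / 100 * (dl m * P.l) :=
          mul_le_mul_of_nonneg_right h1 h2.le
      _ = dl m * P.l / 100 := by ring
  · show bb (m+1) * (8 * P.ρ) ≤ 8 * P.ρ / 100
    have h1 : bb (m+1) ≤ 1 / 100 := by
      rw [hb1]
      calc e ^ 12 / 2 ^ 92 ≤ 1 / 2 ^ 92 := by gcongr
        _ ≤ 1 / 100 := by norm_num
    calc bb (m+1) * (8 * P.ρ) ≤ 1 / 100 * (8 * P.ρ) :=
          mul_le_mul_of_nonneg_right h1 (by linarith)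
      _ = 8 * P.ρ / 100 := by ring

lemma children_LG {m : ℕ} {P : Plate} (h : LG m P) :
    ∀ Q ∈ children P (stepOf m P), LG (m+1) Q ∧ Q.l ≤ P.l / 10 := by
  intro Q hQ
  have hS := step_ok h
  have hl := h.good.l_pos
  have hρ := h.hρ
  have hρpos := h.good.ρ_pos
  set e : ℝ := (1/2) ^ m with he
  have he0 : 0 < e := half_pos' m
  have he1 : e ≤ 1 := half_le m
  have hdl : dl m = e / 128 := rfl
  have hth : th m = e ^ 2 / 16384 := rfl
  have hka : ka m = e ^ 6 / 2 ^ 40 := rfl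
  have haa : aa (m+1) = 3 * e ^ 5 / 2 ^ 33 := by
    unfold aa; rw [pow_succ]; ring
  have hoo : oo (m+1) = e / 64 := by unfold oo; rw [pow_succ]; ring
  clear_value e
  rcases mem_children.1 hQ with ⟨p, hp, rfl⟩ | ⟨κ, hκ, rfl⟩
  · refine ⟨⟨?_, ?_, ?_⟩, ?_⟩
    · apply (lam_good h.good hS p hp).mono
      show oo (m+1) * (dl m * P.l) ≤ 2 * (th m * P.l)
      rw [hoo, hdl, hth]
      apply le_of_eq; ring
    · rfl
    · show 3 * (ka m * P.l) ≤ aa (m+1) * (dl m * P.l)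
      rw [hka, haa, hdl]
      apply le_of_eq; ring
    · show dl m * P.l ≤ P.l / 10
      have := hS.Dl
      change dl m * P.l ≤ P.l / 20 at this
      linarith
  · refine ⟨⟨?_, ?_, ?_⟩, ?_⟩
    · apply (w_good h.good hS κ).mono
      show oo (m+1) * (8 * P.ρ) ≤ 8 * P.ρ
      rw [hoo]
      nlinarith
    · rfl
    · show (0:ℝ) ≤ aa (m+1) * (8 * P.ρ)
      rw [haa]; positivity
    · show 8 * P.ρ ≤ P.l / 10
      have := h.good.ρl
      linarith

lemma cost_LG {m : ℕ} {P : Plate} (h : LG m P) :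
    ((children P (stepOf m P)).map Plate.W).sum ≤ (1 + (1/2) ^ m) * P.W := by
  have hS := step_ok h
  refine le_trans (children_cost h.good hS) ?_
  have hl := h.good.l_pos
  have hρ := h.hρ
  have hlW := h.good.lW
  have hW : 0 < P.W := lt_of_lt_of_le hl hlW
  set e : ℝ := (1/2) ^ m with he
  have he0 : 0 < e := half_pos' m
  have he1 : e ≤ 1 := half_le m
  have hdl : dl m = e / 128 := rfl
  have hth : th m = e ^ 2 / 16384 := rfl
  have hka : ka m = e ^ 6 / 2 ^ 40 := rfl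
  have hbb : bb m = e ^ 12 / 2 ^ 80 := rfl
  have e2 : e ^ 2 ≤ e := by nlinarith
  have e62 : e ^ 6 ≤ e ^ 2 := pow_le_of e he0 he1 (by norm_num)
  show (P.W / (dl m * P.l) + 5) * (dl m * P.l + 10 * (th m * P.l)) +
      ((P.W + 10 * (th m * P.l)) / (ka m * P.l) + 10) * (2 * (th m * P.l) / (ka m * P.l) + 2) *
        (32 * P.ρ) ≤ (1 + e) * P.W
  have hdlpos : 0 < dl m := by rw [hdl]; positivity
  have hthpos : 0 < th m := by rw [hth]; positivity
  have hkapos : 0 < ka m := by rw [hka]; positivity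
  clear_value e
  have h1 : (P.W / (dl m * P.l) + 5) * (dl m * P.l + 10 * (th m * P.l)) =
      P.W * (1 + 10 * (th m / dl m)) + 5 * dl m * P.l + 50 * th m * P.l := by
    field_simp
    ring
  have h2 : P.W * (1 + 10 * (th m / dl m)) + 5 * dl m * P.l + 50 * th m * P.l ≤
      P.W * (1 + e / 2) := by
    have h3 : th m / dl m = e / 128 := by rw [hth, hdl]; field_simp; norm_num
    rw [h3, hdl, hth]
    have h4 : 5 * (e / 128) * P.l ≤ 5 * (e / 128) * P.W := by gcongr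
    have h5 : 50 * (e ^ 2 / 16384) * P.l ≤ 50 * (e / 16384) * P.W := by gcongr
    nlinarith
  have h6 : ((P.W + 10 * (th m * P.l)) / (ka m * P.l) + 10) ≤ 2 * P.W / (ka m * P.l) := by
    rw [div_add' _ _ _ (by positivity)]
    gcongr
    have h7 : th m * P.l ≤ P.W / 100 := by
      rw [hth]
      have : e ^ 2 / 16384 ≤ 1 / 100 := by linarith
      calc e ^ 2 / 16384 * P.l ≤ 1 / 100 * P.W := by gcongr
        _ = P.W / 100 := by ring
    have h8 : ka m * P.l ≤ P.W / 100 := by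
      have : ka m ≤ 1 / 100 := by
        rw [hka]
        have : e ^ 6 ≤ 1 := pow_le_one₀ he0.le he1
        calc e ^ 6 / 2 ^ 40 ≤ 1 / 2 ^ 40 := by gcongr
          _ ≤ _ := by norm_num
      calc ka m * P.l ≤ 1 / 100 * P.W := by gcongr
        _ = P.W / 100 := by ring
    linarith
  have h9 : (2 * (th m * P.l) / (ka m * P.l) + 2) ≤ 4 * (th m / ka m) := by
    have h10 : 2 * (th m * P.l) / (ka m * P.l) = 2 * (th m / ka m) := by field_simp
    rw [h10]
    have h11 : 1 ≤ th m / ka m := by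
      rw [le_div_iff₀ hkapos, hka, hth, one_mul]
      calc e ^ 6 / 2 ^ 40 ≤ e ^ 2 / 2 ^ 40 := by gcongr
        _ ≤ e ^ 2 / 16384 := by gcongr; norm_num
    linarith
  have h12 : ((P.W + 10 * (th m * P.l)) / (ka m * P.l) + 10) *
      (2 * (th m * P.l) / (ka m * P.l) + 2) * (32 * P.ρ) ≤ P.W * (e / 2) := by
    have hρ0 : 0 ≤ 32 * P.ρ := by linarith [h.good.ρ_pos]
    calc ((P.W + 10 * (th m * P.l)) / (ka m * P.l) + 10) *
      (2 * (th m * P.l) / (ka m * P.l) + 2) * (32 * P.ρ)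
        ≤ (2 * P.W / (ka m * P.l)) * (4 * (th m / ka m)) * (32 * P.ρ) := by
          gcongr
      _ = P.W * (256 * th m * bb m / ka m ^ 2) := by
          rw [hρ]; field_simp; ring
      _ ≤ P.W * (e / 2) := by
          have h13 : 256 * th m * bb m / ka m ^ 2 ≤ e / 2 := by
            rw [hth, hbb, hka]
            have : 256 * (e ^ 2 / 16384) * (e ^ 12 / 2 ^ 80) / (e ^ 6 / 2 ^ 40) ^ 2 =
                e ^ 2 / 64 := by field_simp; norm_num
            rw [this]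
            linarith
          exact mul_le_mul_of_nonneg_left h13 hW.le
  rw [h1]
  calc P.W * (1 + 10 * (th m / dl m)) + 5 * dl m * P.l + 50 * th m * P.l +
      ((P.W + 10 * (th m * P.l)) / (ka m * P.l) + 10) * (2 * (th m * P.l) / (ka m * P.l) + 2) *
        (32 * P.ρ) ≤ P.W * (1 + e / 2) + P.W * (e / 2) := add_le_add h2 h12
    _ = (1 + e) * P.W := by ring

end Pool.Agent.H99.PC
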