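import Pool.Agent.H99.PC.Cell

/-! Plates, their children, and the local hull step. -/

set_option autoImplicit false

namespace Pool.Agent.H99.PC

open Complex Metric Set

/-- swap of the two coordinates if `b` is true -/
def emb (b : Bool) (x : ℂ × ℂ) : ℂ × ℂ := if b then x.swap else x

lemma emb_emb (b : Bool) (x : ℂ × ℂ) : emb b (emb b x) = x := by
  cases b <;> simp [emb]

lemma emb_not (b : Bool) (x : ℂ × ℂ) : emb (!b) x = (emb b x).swap := by
  cases b <;> simp [emb]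

lemma emb_false : emb false = fun x : ℂ × ℂ => (x.1, x.2) := by
  funext x; simp [emb]

lemma emb_true : emb true = fun x : ℂ × ℂ => (x.2, x.1) := by
  funext x; simp [emb, Prod.swap]

lemma emb_continuous (b : Bool) : Continuous (emb b) := by
  cases b
  · rw [emb_false]; exact continuous_fst.prodMk continuous_snd
  · rw [emb_true]; exact continuous_snd.prodMk continuous_fst

lemma emb_differentiable (b : Bool) : Differentiable ℂ (emb b) := by
  cases b
  · rw [emb_false]; exact differentiable_fst.prodMk differentiable_snd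
  · rw [emb_true]; exact differentiable_snd.prodMk differentiable_fst

/-- A plate. -/
structure Plate where
  sw : Bool
  l : ℝ
  W : ℝ
  segs : Fin 5 → Seg
  G : Set ℂ
  z : ℂ
  c : ℂ
  ρ : ℝ
  h : ℝ

/-- union of neighbourhoods of the segments -/
def Plate.segN (P : Plate) (η : ℝ) : Set ℂ := {β | ∃ k, β ∈ (P.segs k).nb η}

def Plate.supp (P : Plate) : Set (ℂ × ℂ) :=
  {x | (emb P.sw x).1 ∈ P.segN P.h ∧ ‖(emb P.sw x).2 - P.c‖ ≤ P.ρ}

def Plate.core (P : Plate) : Set (ℂ × ℂ) :=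
  {x | (emb P.sw x).1 ∈ P.G ∧ ‖(emb P.sw x).2 - P.c‖ ≤ P.ρ}

def Plate.N (P : Plate) : Set (ℂ × ℂ) :=
  {x | (emb P.sw x).1 ∈ P.segN (P.l / 10) ∧ ‖(emb P.sw x).2 - P.c‖ ≤ 10 * P.ρ}

structure Plate.Good (P : Plate) (om : ℝ) : Prop where
  l_pos : 0 < P.l
  lW : P.l ≤ P.W
  W5 : P.W ≤ 5 * P.l
  unit : ∀ k, ‖(P.segs k).w‖ = 1
  axis : ∀ k, (P.segs k).w.re = 0 ∨ (P.segs k).w.im = 0
  len0 : ∀ k, 0 ≤ (P.segs k).len
  lenW : ∑ k, (P.segs k).len ≤ P.W
  diam : ∀ k t, 0 ≤ t → t ≤ (P.segs k).len → ‖(P.segs k).pt t 0 - P.z‖ ≤ 2 * P.l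
  collar : ∀ k t y, 0 ≤ t → t ≤ (P.segs k).len → 0 ≤ y → y ≤ om → (P.segs k).pt t y ∈ P.G
  ρ_pos : 0 < P.ρ
  ρl : P.ρ ≤ P.l / 100
  h0 : 0 ≤ P.h
  hl : P.h ≤ P.l / 10

/-- parameters of a refinement step -/
structure Step where
  D : ℝ
  τ : ℝ
  d : ℝ
  M : ℕ
  ρ' : ℝ
  r1 : ℝ

/-- bound on the number of cells of a segment -/
noncomputable def Plate.cellN (P : Plate) (S : Step) : ℕ := ⌊P.W / S.D⌋₊ + 1

/-- number of cells of segment `k` -/
noncomputable def Plate.num (P : Plate) (S : Step) (k : Fin 5) : ℕ := ⌊(P.segs k).len / S.D⌋₊ + 1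

structure Step.OK (S : Step) (P : Plate) (om : ℝ) : Prop where
  D_pos : 0 < S.D
  Dl : S.D ≤ P.l / 20
  τ_pos : 0 < S.τ
  τD : 10 * S.τ ≤ S.D
  d_pos : 0 < S.d
  dτ : 3 * S.d ≤ S.τ
  τom : S.τ + 3 * S.d ≤ om
  M_pos : 0 < S.M
  ρ'_pos : 0 < S.ρ'
  grow : 5 / 4 * P.ρ ≤ S.ρ' * Real.exp ((S.τ - P.h - 3 * S.d) / (5 * S.M * S.d))
  r1_pos : 0 < S.r1
  hexp : S.d ≤ S.r1 * Real.exp S.M
  gap : 400 * S.ρ' * (P.cellN S) < P.ρ
  pgap : 20 * S.r1 < S.d
  ρ'D : S.ρ' ≤ S.D / 100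
  r1ρ : S.r1 ≤ 8 * P.ρ / 100

noncomputable def Plate.cellA (P : Plate) (S : Step) (k : Fin 5) (i : ℕ) : ℝ :=
  i * ((P.segs k).len / P.num S k)

noncomputable def Plate.cellB (P : Plate) (S : Step) (k : Fin 5) (i : ℕ) : ℝ :=
  (i + 1) * ((P.segs k).len / P.num S k)

/-- fibre centre of a cell -/
noncomputable def Plate.cellC (P : Plate) (S : Step) (k : Fin 5) (i : ℕ) : ℂ :=
  P.c + ((P.ρ / (20 * P.cellN S) * ((k : ℕ) * P.cellN S + i : ℕ) : ℝ) : ℂ)

noncomputable def lamChild (P : Plate) (S : Step) (p : Σ _ : Fin 5, ℕ) : Plate where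
  sw := P.sw
  l := S.D
  W := S.D + 10 * S.τ
  segs := childSegs (P.segs p.1) (P.cellA S p.1 p.2) (P.cellB S p.1 p.2) S.τ
  G := cellRect (P.segs p.1) (P.cellA S p.1 p.2) (P.cellB S p.1 p.2) S.τ
  z := (P.segs p.1).pt (P.cellA S p.1 p.2) 0
  c := P.cellC S p.1 p.2
  ρ := S.ρ'
  h := 3 * S.d

/-- the four sides (and a degenerate fifth one) of a square with centre `c`, half side `a` -/
def squareSegs (c : ℂ) (a : ℝ) : Fin 5 → Seg :=
  ![⟨c + (-a - a * I), 1, 2 * a⟩,
    ⟨c + (a - a * I), I, 2 * a⟩,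
    ⟨c + (a + a * I), -1, 2 * a⟩,
    ⟨c + (-a + a * I), -I, 2 * a⟩,
    ⟨c + (-a - a * I), 1, 0⟩]

def square (c : ℂ) (a : ℝ) : Set ℂ := {φ | |(φ - c).re| ≤ a ∧ |(φ - c).im| ≤ a}

/-- lattice point -/
noncomputable def lat (d : ℝ) (κ : ℤ × ℤ) : ℂ := ⟨d * κ.1, d * κ.2⟩

noncomputable def wChild (P : Plate) (S : Step) (κ : ℤ × ℤ) : Plate where
  sw := !P.sw
  l := 8 * P.ρ
  W := 32 * P.ρ
  segs := squareSegs P.c (4 * P.ρ)
  G := square P.c (4 * P.ρ)
  z := P.c
  c := lat S.d κ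
  ρ := S.r1
  h := 0

noncomputable def poleBox (s : Seg) (τ d : ℝ) : Finset (ℤ × ℤ) :=
  Finset.Icc ⌊(s.o.re + min 0 (s.w.re * s.len) - τ) / d + 1/2⌋
      ⌊(s.o.re + max 0 (s.w.re * s.len) + τ) / d + 1/2⌋ ×ˢ
    Finset.Icc ⌊(s.o.im + min 0 (s.w.im * s.len) - τ) / d + 1/2⌋
      ⌊(s.o.im + max 0 (s.w.im * s.len) + τ) / d + 1/2⌋

open Classical in
noncomputable def poles (P : Plate) (S : Step) : Finset (ℤ × ℤ) :=
  Finset.univ.biUnion (fun k => (poleBox (P.segs k) S.τ S.d).filter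
    (fun κ => lat S.d κ ∈ (P.segs k).nb (3 * S.τ)))

noncomputable def cells (P : Plate) (S : Step) : Finset (Σ _ : Fin 5, ℕ) :=
  Finset.univ.sigma (fun k => Finset.range (P.num S k))

noncomputable def children (P : Plate) (S : Step) : List Plate :=
  (cells P S).toList.map (lamChild P S) ++ (poles P S).toList.map (wChild P S)

lemma mem_cells {P : Plate} {S : Step} {p : Σ _ : Fin 5, ℕ} :
    p ∈ cells P S ↔ p.2 < P.num S p.1 := by
  simp [cells]

lemma mem_children {P : Plate} {S : Step} {Q : Plate} :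
    Q ∈ children P S ↔ (∃ p ∈ cells P S, lamChild P S p = Q) ∨
      (∃ κ ∈ poles P S, wChild P S κ = Q) := by
  simp [children]

section
variable {P : Plate} {S : Step} {om : ℝ}

lemma num_pos (k : Fin 5) : (0:ℝ) < P.num S k := by
  unfold Plate.num; positivity

lemma cellA_nonneg (hP : P.Good om) (k : Fin 5) (i : ℕ) : 0 ≤ P.cellA S k i := by
  unfold Plate.cellA
  have := hP.len0 k
  have := num_pos (P := P) (S := S) k
  positivity

lemma cellA_le_cellB (hP : P.Good om) (k : Fin 5) (i : ℕ) : P.cellA S k i ≤ P.cellB S k i := by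
  unfold Plate.cellA Plate.cellB
  have := hP.len0 k
  have := num_pos (P := P) (S := S) k
  gcongr
  linarith

lemma cellB_le_len (hP : P.Good om) (k : Fin 5) (i : ℕ) (hi : i < P.num S k) :
    P.cellB S k i ≤ (P.segs k).len := by
  unfold Plate.cellB
  have h0 := hP.len0 k
  have h1 := num_pos (P := P) (S := S) k
  have h2 : ((i:ℝ) + 1) ≤ P.num S k := by exact_mod_cast hi
  rw [mul_div_assoc', div_le_iff₀ h1, mul_comm]
  gcongr

lemma cellB_sub_cellA_le (hP : P.Good om) (hS : S.OK P om) (k : Fin 5) (i : ℕ) :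
    P.cellB S k i - P.cellA S k i ≤ S.D := by
  unfold Plate.cellB Plate.cellA
  have h0 := hP.len0 k
  have h1 := num_pos (P := P) (S := S) k
  have hD := hS.D_pos
  have h3 : (P.segs k).len / S.D < P.num S k := by
    unfold Plate.num
    push_cast
    exact Nat.lt_floor_add_one _
  rw [← sub_mul, add_sub_cancel_left, one_mul, div_le_iff₀ h1]
  rw [div_lt_iff₀ hD] at h3
  linarith

/-- every parameter in `[0, len]` is in some cell -/
lemma exists_cell (hP : P.Good om) (k : Fin 5) (t : ℝ) (h0 : 0 ≤ t)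
    (h1 : t ≤ (P.segs k).len) :
    ∃ i, i < P.num S k ∧ P.cellA S k i ≤ t ∧ t ≤ P.cellB S k i := by
  have hn := num_pos (P := P) (S := S) k
  set n := P.num S k with hndef
  have hnpos : 0 < n := by exact_mod_cast hn
  rcases eq_or_lt_of_le (hP.len0 k) with hl | hl
  · refine ⟨0, hnpos, ?_, ?_⟩
    · unfold Plate.cellA; rw [← hl]; simp [h0]
    · unfold Plate.cellB; rw [← hl]; simp; linarith
  have hln : 0 < (P.segs k).len / n := by positivity
  set i0 := ⌊t / ((P.segs k).len / n)⌋₊ with hi0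
  have h2 : (i0:ℝ) ≤ t / ((P.segs k).len / n) := Nat.floor_le (by positivity)
  have h3 : t / ((P.segs k).len / n) < i0 + 1 := Nat.lt_floor_add_one _
  rw [le_div_iff₀ hln] at h2
  rw [div_lt_iff₀ hln] at h3
  by_cases hi : i0 < n
  · exact ⟨i0, hi, h2, h3.le⟩
  · -- t = len
    push Not at hi
    refine ⟨n - 1, by omega, ?_, ?_⟩
    · unfold Plate.cellA
      refine le_trans ?_ h2
      gcongr
      omega
    · unfold Plate.cellB
      rw [← hndef, Nat.cast_sub hnpos]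
      push_cast
      rw [sub_add_cancel, mul_div_cancel₀ _ hn.ne']
      exact h1

lemma num_le_cellN (hP : P.Good om) (hS : S.OK P om) (k : Fin 5) : P.num S k ≤ P.cellN S := by
  unfold Plate.num Plate.cellN
  have : (P.segs k).len ≤ P.W := le_trans
    (Finset.single_le_sum (f := fun k => (P.segs k).len) (fun i _ => hP.len0 i)
      (Finset.mem_univ k)) hP.lenW
  have hD := hS.D_pos
  gcongr

lemma cellN_pos : (0:ℝ) < P.cellN S := by
  unfold Plate.cellN; positivity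

lemma cellC_sub (hP : P.Good om) (hS : S.OK P om) (k : Fin 5) (i : ℕ) (hi : i < P.num S k) :
    ‖P.cellC S k i - P.c‖ ≤ P.ρ / 4 := by
  unfold Plate.cellC
  have hN := cellN_pos (P := P) (S := S)
  have hρ := hP.ρ_pos
  rw [add_sub_cancel_left, Complex.norm_real, Real.norm_eq_abs, abs_of_nonneg (by positivity)]
  have h1 : ((k : ℕ) * P.cellN S + i : ℕ) ≤ 5 * P.cellN S := by
    have h2 := num_le_cellN hP hS k
    have h3 : (k:ℕ) ≤ 4 := by omega
    nlinarith
  have h2 : (((k : ℕ) * P.cellN S + i : ℕ) : ℝ) ≤ 5 * P.cellN S := by exact_mod_cast h1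
  calc P.ρ / (20 * P.cellN S) * ((k : ℕ) * P.cellN S + i : ℕ)
      ≤ P.ρ / (20 * P.cellN S) * (5 * P.cellN S) := by gcongr
    _ = P.ρ / 4 := by field_simp; norm_num

/-- the family (union of the enlarged cells) -/
def fam (P : Plate) (S : Step) : Set (ℂ × ℂ) :=
  {x | ∃ k, ∃ i, i < P.num S k ∧
    (emb P.sw x).1 ∈ cellRect (P.segs k) (P.cellA S k i) (P.cellB S k i) S.τ ∧
    ‖(emb P.sw x).2 - P.cellC S k i‖ ≤
      Rf (P.segs k) (P.cellA S k i) (P.cellB S k i) S.τ S.d P.ρ S.ρ' S.M (emb P.sw x).1}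

lemma cellN_one : (1:ℝ) ≤ P.cellN S := by
  unfold Plate.cellN; push_cast
  have : (0:ℝ) ≤ (⌊P.W / S.D⌋₊ : ℝ) := by positivity
  linarith

lemma ρ'_le (hS : S.OK P om) : 400 * S.ρ' < P.ρ := by
  have h1 := hS.gap
  have h2 := cellN_one (P := P) (S := S)
  have h3 := hS.ρ'_pos
  nlinarith

/-! ### squares -/

lemma squareSegs_unit (c : ℂ) (a : ℝ) (k : Fin 5) : ‖(squareSegs c a k).w‖ = 1 := by
  fin_cases k <;> simp [squareSegs]

/-- points of the boundary of the square are on the sides -/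
lemma square_boundary (c : ℂ) (a : ℝ) (φ : ℂ) (h1 : |(φ - c).re| ≤ a)
    (h2 : |(φ - c).im| ≤ a) (h : |(φ - c).re| = a ∨ |(φ - c).im| = a) (η : ℝ) (hη : 0 ≤ η) :
    ∃ k, φ ∈ (squareSegs c a k).nb η := by
  rw [Complex.sub_re] at h1
  rw [Complex.sub_im] at h2
  rw [Complex.sub_re, Complex.sub_im] at h
  have e1 := abs_le.1 h1
  have e2 := abs_le.1 h2
  have key : ∀ (k : Fin 5) (t : ℝ), 0 ≤ t → t ≤ (squareSegs c a k).len →
      φ = (squareSegs c a k).pt t 0 → ∃ k, φ ∈ (squareSegs c a k).nb η := by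
    intro k t h0 h1 h
    refine ⟨k, t, h0, h1, ?_⟩
    rw [← h]; simpa using hη
  rcases h with h | h
  · rcases (abs_eq (by linarith [abs_nonneg (φ.re - c.re)])).1 h with h | h
    · -- right side
      apply key 1 (φ.im - c.im + a) (by linarith)
        (by simp only [squareSegs, Matrix.cons_val]; linarith)
      simp only [squareSegs, Seg.pt, Matrix.cons_val]
      apply Complex.ext
      · simp at h ⊢; linarith
      · simp; ring
    · apply key 3 (a - (φ.im - c.im)) (by linarith)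
        (by simp only [squareSegs, Matrix.cons_val]; linarith)
      simp only [squareSegs, Seg.pt, Matrix.cons_val]
      apply Complex.ext
      · simp at h ⊢; linarith
      · simp
  · rcases (abs_eq (by linarith [abs_nonneg (φ.im - c.im)])).1 h with h | h
    · apply key 2 (a - (φ.re - c.re)) (by linarith)
        (by simp only [squareSegs, Matrix.cons_val]; linarith)
      simp only [squareSegs, Seg.pt, Matrix.cons_val]
      apply Complex.ext
      · simp
      · simp at h ⊢; linarith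
    · apply key 0 (φ.re - c.re + a) (by linarith)
        (by simp only [squareSegs, Matrix.cons_val_zero]; linarith)
      simp only [squareSegs, Seg.pt, Matrix.cons_val_zero]
      apply Complex.ext
      · simp; ring
      · simp at h ⊢; linarith

/-- maximum principle for the cores of w-children -/
lemma wChild_sheet {f : ℂ × ℂ → ℂ} (hf : Differentiable ℂ f) (κ : ℤ × ℤ) (σ : ℝ)
    (h : ∀ x ∈ (wChild P S κ).supp, ‖f x‖ ≤ σ) (β φ : ℂ) (h1 : ‖β - lat S.d κ‖ ≤ S.r1)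
    (h2 : |(φ - P.c).re| ≤ 4 * P.ρ) (h3 : |(φ - P.c).im| ≤ 4 * P.ρ) :
    ‖f (emb P.sw (β, φ))‖ ≤ σ := by
  have hg : Differentiable ℂ (fun φ : ℂ => f (emb P.sw (β, φ))) :=
    hf.comp ((emb_differentiable P.sw).comp
      ((differentiable_const β).prodMk differentiable_id))
  refine square_max hg P.c (4 * P.ρ) σ ?_ φ h2 h3
  intro φ' e1 e2 e3
  apply h
  show _ ∧ _
  have hem : emb (wChild P S κ).sw (emb P.sw (β, φ')) = (φ', β) := by
    show emb (!P.sw) _ = _
    rw [emb_not, emb_emb]; rfl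
  rw [hem]
  refine ⟨?_, h1⟩
  exact square_boundary P.c (4 * P.ρ) φ' e1 e2 e3 0 le_rfl

/-! ### poles -/

lemma round_err (x : ℝ) : |x - ⌊x + 1/2⌋| ≤ 1/2 := by
  have h1 := Int.floor_le (x + 1/2)
  have h2 := Int.lt_floor_add_one (x + 1/2)
  rw [abs_le]; constructor <;> linarith

lemma lat_near (d : ℝ) (hd : 0 < d) (β : ℂ) :
    ‖β - lat d (⌊β.re / d + 1/2⌋, ⌊β.im / d + 1/2⌋)‖ ≤ d := by
  have key : ∀ x : ℝ, |x - d * ⌊x / d + 1/2⌋| ≤ d / 2 := by
    intro x
    have h1 := round_err (x / d)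
    have : x - d * ⌊x / d + 1/2⌋ = d * (x / d - ⌊x / d + 1/2⌋) := by
      rw [mul_sub, mul_div_cancel₀ _ hd.ne']
    rw [this, abs_mul, abs_of_pos hd]
    calc d * |x / d - ⌊x / d + 1/2⌋| ≤ d * (1/2) := by gcongr
      _ = d / 2 := by ring
  refine le_trans (Complex.norm_le_abs_re_add_abs_im _) ?_
  have h1 := key β.re
  have h2 := key β.im
  simp only [lat, Complex.sub_re, Complex.sub_im]
  linarith

lemma sq_eq_one_iff_of_side {x : ℝ} (h : x ^ 2 = 1) : x = 1 ∨ x = -1 := by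
  have : (x - 1) * (x + 1) = 0 := by nlinarith
  rcases mul_eq_zero.1 this with h | h
  · left; linarith
  · right; linarith

lemma unit_axis {w : ℂ} (hw : ‖w‖ = 1) (hax : w.re = 0 ∨ w.im = 0) :
    (w.re = 1 ∧ w.im = 0) ∨ (w.re = -1 ∧ w.im = 0) ∨ (w.re = 0 ∧ w.im = 1) ∨
      (w.re = 0 ∧ w.im = -1) := by
  have h1 : w.re ^ 2 + w.im ^ 2 = 1 := by
    have := Complex.sq_norm w
    rw [hw, Complex.normSq_apply] at this
    nlinarith
  rcases hax with h | h
  · rw [h] at h1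
    have : w.im ^ 2 = 1 := by linarith
    rcases sq_eq_one_iff_of_side this with h2 | h2 <;> simp_all
  · rw [h] at h1
    have : w.re ^ 2 = 1 := by linarith
    rcases sq_eq_one_iff_of_side this with h2 | h2 <;> simp_all

end

end Pool.Agent.H99.PC
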