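import Pool.Agent.H99.PC.Params
import Pool.Agent.H99.PC.Limit

/-! The tree of plates and the counterexample in `ℂ × ℂ`. -/

set_option autoImplicit false

namespace Pool.Agent.H99.PC

open Complex Metric Set Filter Topology MeasureTheory

/-- the initial plate -/
noncomputable def P0 : Plate where
  sw := false
  l := 1
  W := 4
  segs := squareSegs 0 (1/2)
  G := square 0 (1/2)
  z := 0
  c := 0
  ρ := bb 0
  h := 0

lemma bb_zero : bb 0 = 1 / 2 ^ 80 := by unfold bb; simp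

lemma P0_LG : LG 0 P0 := by
  have hb : bb 0 = 1 / 2 ^ 80 := bb_zero
  have hlen : ∀ k, 0 ≤ (squareSegs (0:ℂ) (1/2) k).len := by
    intro k
    fin_cases k <;> simp [squareSegs]
  refine ⟨⟨?_, ?_, ?_, squareSegs_unit _ _, ?_, hlen, ?_, ?_, ?_, ?_, ?_, le_rfl, ?_⟩, ?_, ?_⟩
  · show (0:ℝ) < 1; norm_num
  · show (1:ℝ) ≤ 4; norm_num
  · show (4:ℝ) ≤ 5 * 1; norm_num
  · intro k
    show (squareSegs (0:ℂ) (1/2) k).w.re = 0 ∨ (squareSegs (0:ℂ) (1/2) k).w.im = 0
    fin_cases k <;> simp [squareSegs]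
  · show ∑ k, (squareSegs (0:ℂ) (1/2) k).len ≤ 4
    simp only [Fin.sum_univ_five, squareSegs, Matrix.cons_val]
    norm_num
  · intro k t h0 h1
    show ‖(squareSegs (0:ℂ) (1/2) k).pt t 0 - 0‖ ≤ 2 * 1
    obtain ⟨e1, e2, _⟩ := squareSegs_pt 0 (1/2) (by norm_num) k t h0 h1
    exact le_trans (Complex.norm_le_abs_re_add_abs_im _) (by linarith)
  · intro k t y h0 h1 h2 h3
    have h3' : y ≤ 1 := by
      refine le_trans h3 ?_
      show oo 0 * 1 ≤ 1
      unfold oo; norm_num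
    show |((squareSegs (0:ℂ) (1/2) k).pt t y - 0).re| ≤ 1/2 ∧
      |((squareSegs (0:ℂ) (1/2) k).pt t y - 0).im| ≤ 1/2
    change t ≤ (squareSegs (0:ℂ) (1/2) k).len at h1
    have key : ∀ v : ℂ, -(1/2) ≤ v.re → v.re ≤ 1/2 → -(1/2) ≤ v.im → v.im ≤ 1/2 →
        |v.re| ≤ 1/2 ∧ |v.im| ≤ 1/2 := by
      intro v e1 e2 e3 e4
      exact ⟨abs_le.2 ⟨e1, e2⟩, abs_le.2 ⟨e3, e4⟩⟩
    fin_cases k
    · simp only [squareSegs, Fin.zero_eta, Matrix.cons_val_zero] at h1
      apply key <;> simp [squareSegs, Seg.pt] <;> linarith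
    · simp only [squareSegs, Fin.mk_one, Matrix.cons_val_one, Matrix.cons_val_zero] at h1
      apply key <;> simp [squareSegs, Seg.pt] <;> linarith
    · simp only [squareSegs, Fin.reduceFinMk, Matrix.cons_val] at h1
      apply key <;> simp [squareSegs, Seg.pt] <;> linarith
    · simp only [squareSegs, Fin.reduceFinMk, Matrix.cons_val] at h1
      apply key <;> simp [squareSegs, Seg.pt] <;> linarith
    · simp only [squareSegs, Fin.reduceFinMk, Matrix.cons_val] at h1
      apply key <;> simp [squareSegs, Seg.pt] <;> linarith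
  · show 0 < bb 0
    rw [hb]; positivity
  · show bb 0 ≤ 1 / 100
    rw [hb]; norm_num
  · show (0:ℝ) ≤ 1 / 10; norm_num
  · show bb 0 = bb 0 * 1
    ring
  · show (0:ℝ) ≤ aa 0 * 1
    unfold aa; positivity

/-- the tree of plates -/
noncomputable def tree : ℕ → List Plate
  | 0 => [P0]
  | m + 1 => (tree m).flatMap (fun P => children P (stepOf m P))

lemma mem_tree_succ {m : ℕ} {Q : Plate} :
    Q ∈ tree (m+1) ↔ ∃ P ∈ tree m, Q ∈ children P (stepOf m P) := by
  simp [tree, List.mem_flatMap]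

lemma tree_LG (m : ℕ) : ∀ P ∈ tree m, LG m P ∧ P.l ≤ (1/10) ^ m := by
  induction m with
  | zero =>
    intro P hP
    simp only [tree, List.mem_singleton] at hP
    subst hP
    exact ⟨P0_LG, by show (1:ℝ) ≤ _; simp⟩
  | succ m ih =>
    intro Q hQ
    obtain ⟨P, hP, hQP⟩ := mem_tree_succ.1 hQ
    obtain ⟨h1, h2⟩ := ih P hP
    obtain ⟨h3, h4⟩ := children_LG h1 Q hQP
    refine ⟨h3, ?_⟩
    rw [pow_succ]
    linarith

lemma tree_nest (m : ℕ) : ∀ Q ∈ tree (m+1), ∃ P ∈ tree m, Q.N ⊆ P.N := by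
  intro Q hQ
  obtain ⟨P, hP, hQP⟩ := mem_tree_succ.1 hQ
  have h1 := (tree_LG m P hP).1
  exact ⟨P, hP, child_nest h1.good (step_ok h1) Q hQP⟩

lemma tree_disj (m : ℕ) : (tree m).Pairwise (fun P Q => Disjoint P.N Q.N) := by
  induction m with
  | zero => simp [tree]
  | succ m ih =>
    show ((tree m).flatMap (fun P => children P (stepOf m P))).Pairwise _
    rw [List.pairwise_flatMap]
    constructor
    · intro P hP
      have h1 := (tree_LG m P hP).1
      exact child_disjoint h1.good (step_ok h1)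
    · apply ih.imp_of_mem
      intro P P' hP hP' hd Q hQ Q' hQ'
      have h1 := (tree_LG m P hP).1
      have h2 := (tree_LG m P' hP').1
      exact Set.disjoint_of_subset (child_nest h1.good (step_ok h1) Q hQ)
        (child_nest h2.good (step_ok h2) Q' hQ') hd

lemma sum_flatMap_le (l : List Plate) (F : Plate → List Plate) (c : ℝ)
    (h : ∀ P ∈ l, ((F P).map Plate.W).sum ≤ c * P.W) :
    ((l.flatMap F).map Plate.W).sum ≤ c * (l.map Plate.W).sum := by
  induction l with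
  | nil => simp
  | cons a l ih =>
    simp only [List.flatMap_cons, List.map_append, List.sum_append, List.map_cons, List.sum_cons]
    have h1 := h a (by simp)
    have h2 := ih (fun P hP => h P (by simp [hP]))
    linarith

lemma tree_cost (m : ℕ) :
    ((tree m).map Plate.W).sum ≤ 4 * Real.exp (2 - 2 * (1/2) ^ m) := by
  induction m with
  | zero =>
    simp [tree, P0]
  | succ m ih =>
    have h1 : ((tree (m+1)).map Plate.W).sum ≤ (1 + (1/2) ^ m) * ((tree m).map Plate.W).sum :=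
      sum_flatMap_le _ _ _ (fun P hP => cost_LG (tree_LG m P hP).1)
    have h2 : (1:ℝ) + (1/2) ^ m ≤ Real.exp ((1/2) ^ m) := by
      have := Real.add_one_le_exp (((1:ℝ)/2) ^ m)
      linarith
    have h3 : 0 ≤ ((tree m).map Plate.W).sum := by
      apply List.sum_nonneg
      intro x hx
      rw [List.mem_map] at hx
      obtain ⟨P, hP, rfl⟩ := hx
      have := (tree_LG m P hP).1.good
      linarith [this.l_pos, this.lW]
    calc ((tree (m+1)).map Plate.W).sum ≤ (1 + (1/2) ^ m) * ((tree m).map Plate.W).sum := h1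
      _ ≤ Real.exp ((1/2) ^ m) * (4 * Real.exp (2 - 2 * (1/2) ^ m)) := by
          apply mul_le_mul h2 ih h3 (Real.exp_pos _).le
      _ = 4 * Real.exp (2 - 2 * (1/2) ^ (m+1)) := by
          rw [mul_left_comm, ← Real.exp_add]
          congr 2
          rw [pow_succ]; ring

/-- the global hull step -/
lemma fam_le {f : ℂ × ℂ → ℂ} (hf : Differentiable ℂ f) (m : ℕ)
    (hinv : ∀ A : ℝ, (∀ P ∈ tree m, ∀ x ∈ P.supp, ‖f x‖ ≤ A) →
      ∀ P ∈ tree m, ∀ x ∈ P.core, ‖f x‖ ≤ A)
    (σ : ℝ) (hσ : ∀ Q ∈ tree (m+1), ∀ x ∈ Q.supp, ‖f x‖ ≤ σ) :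
    ∀ P ∈ tree m, ∀ x ∈ fam P (stepOf m P), ‖f x‖ ≤ σ := by
  by_contra hcon
  push Not at hcon
  obtain ⟨P1, hP1, x1, hx1, hlt⟩ := hcon
  set K : Set (ℂ × ℂ) := ⋃ P ∈ {P | P ∈ tree m}, fam P (stepOf m P) with hK
  have hKc : IsCompact K := by
    apply Set.Finite.isCompact_biUnion (List.finite_toSet (tree m))
    intro P hP
    exact fam_compact (tree_LG m P hP).1.good
  have hx1K : x1 ∈ K := mem_biUnion (show P1 ∈ {P | P ∈ tree m} from hP1) hx1
  obtain ⟨x, hxK, hmax⟩ := hKc.exists_isMaxOn ⟨x1, hx1K⟩ (hf.continuous.norm.continuousOn)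
  have hle : ∀ y ∈ K, ‖f y‖ ≤ ‖f x‖ := fun y hy => hmax hy
  have hσA : σ < ‖f x‖ := lt_of_lt_of_le hlt (hle x1 hx1K)
  have hfam : ∀ P ∈ tree m, ∀ y ∈ fam P (stepOf m P), ‖f y‖ ≤ ‖f x‖ := fun P hP y hy =>
    hle y (mem_biUnion (show P ∈ {P | P ∈ tree m} from hP) hy)
  have hsupp : ∀ P ∈ tree m, ∀ y ∈ P.supp, ‖f y‖ ≤ ‖f x‖ := by
    intro P hP y hy
    have h1 := (tree_LG m P hP).1
    exact hfam P hP y (supp_subset_fam h1.good (step_ok h1) hy)
  have hcore := hinv _ hsupp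
  rw [hK, mem_iUnion₂] at hxK
  obtain ⟨P, hP, hxP⟩ := hxK
  have h1 := (tree_LG m P hP).1
  have := local_step hf h1.good (step_ok h1) (hcore P hP) (hfam P hP)
    (fun Q hQ y hy => hσ Q (mem_tree_succ.2 ⟨P, hP, hQ⟩) y hy) hσA x hxP
  exact lt_irrefl _ this

lemma inv_all {f : ℂ × ℂ → ℂ} (hf : Differentiable ℂ f) (m : ℕ) :
    ∀ A : ℝ, (∀ P ∈ tree m, ∀ x ∈ P.supp, ‖f x‖ ≤ A) →
      ∀ P ∈ tree m, ∀ x ∈ P.core, ‖f x‖ ≤ A := by
  induction m with
  | zero =>
    intro A hA P hP x hx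
    simp only [tree, List.mem_singleton] at hP
    subst hP
    obtain ⟨⟨h1, h2⟩, h3⟩ := hx
    have hemb : ∀ y, emb P0.sw y = y := fun y => by
      show emb false y = y
      rw [emb_false]
    rw [hemb] at h1 h2 h3
    have hg : Differentiable ℂ (fun b : ℂ => f (b, x.2)) :=
      hf.comp (differentiable_id.prodMk (differentiable_const _))
    refine square_max hg 0 (1/2) A ?_ x.1 h1 h2
    intro z e1 e2 e3
    apply hA P0 (by simp [tree])
    refine ⟨?_, ?_⟩
    · rw [hemb]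
      exact square_boundary 0 (1/2) z e1 e2 e3 0 le_rfl
    · rw [hemb]; exact h3
  | succ m ih =>
    intro A hA Q hQ x hx
    obtain ⟨P, hP, hQP⟩ := mem_tree_succ.1 hQ
    have h1 := (tree_LG m P hP).1
    exact child_core hf h1.good (step_ok h1) (fam_le hf m ih A hA P hP)
      (fun Q' hQ' y hy => hA Q' (mem_tree_succ.2 ⟨P, hP, hQ'⟩) y hy) Q hQP x hx

lemma supp_mono {f : ℂ × ℂ → ℂ} (hf : Differentiable ℂ f) (m : ℕ) (A : ℝ)
    (hA : ∀ P ∈ tree m, ∀ x ∈ P.supp, ‖f x‖ ≤ A) : ∀ x ∈ P0.core, ‖f x‖ ≤ A := by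
  induction m with
  | zero => exact inv_all hf 0 A hA P0 (by simp [tree])
  | succ m ih =>
    apply ih
    intro P hP x hx
    have h1 := (tree_LG m P hP).1
    exact fam_le hf m (inv_all hf m) A hA P hP x (supp_subset_fam h1.good (step_ok h1) hx)

/-- The counterexample in `ℂ × ℂ`. -/
noncomputable def XX : Set (ℂ × ℂ) := limSet Plate.N tree

lemma XX_compact : IsCompact XX := limSet_compact _ _ (fun _ P _ => N_compact P)

lemma ediam_N_le (m : ℕ) (P : Plate) (hP : P ∈ tree m) :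
    ediam P.N ≤ ENNReal.ofReal (5 * P.l) := by
  apply Metric.ediam_le
  intro x hx y hy
  rw [edist_dist]
  apply ENNReal.ofReal_le_ofReal
  exact N_diam (tree_LG m P hP).1.good hx hy

lemma ediam_N_le' (m : ℕ) (P : Plate) (hP : P ∈ tree m) :
    ediam P.N ≤ ENNReal.ofReal (5 * (1/10) ^ m) := by
  refine le_trans (ediam_N_le m P hP) (ENNReal.ofReal_le_ofReal ?_)
  have := (tree_LG m P hP).2
  linarith

lemma tendsto_r : Tendsto (fun m : ℕ => ENNReal.ofReal (5 * (1/10) ^ m)) atTop (𝓝 0) := by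
  rw [← ENNReal.ofReal_zero]
  apply ENNReal.tendsto_ofReal
  have := (tendsto_pow_atTop_nhds_zero_of_lt_one (r := (1/10:ℝ)) (by norm_num)
    (by norm_num)).const_mul 5
  simpa using this

lemma XX_td : IsTotallyDisconnected XX :=
  limSet_totallyDisconnected _ _ (fun _ P _ => N_compact P) tree_disj _ tendsto_r ediam_N_le'

lemma sum_ediam_le (m : ℕ) :
    ((tree m).map (fun P => ediam P.N)).sum ≤ ENNReal.ofReal (5 * (4 * Real.exp 2)) := by
  have h1 : ∀ l : List Plate, (∀ P ∈ l, P ∈ tree m) →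
      ((l.map (fun P => ediam P.N)).sum ≤ ENNReal.ofReal (5 * (l.map Plate.W).sum)) ∧
      0 ≤ (l.map Plate.W).sum := by
    intro l
    induction l with
    | nil => intro _; simp
    | cons a l ih =>
      intro h
      obtain ⟨h2, h3⟩ := ih (fun P hP => h P (by simp [hP]))
      have ha := h a (by simp)
      have h4 := ediam_N_le m a ha
      have h5 := (tree_LG m a ha).1.good
      have h6 : 0 < a.W := lt_of_lt_of_le h5.l_pos h5.lW
      simp only [List.map_cons, List.sum_cons]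
      refine ⟨?_, by linarith⟩
      calc ediam a.N + (l.map (fun P => ediam P.N)).sum
          ≤ ENNReal.ofReal (5 * a.l) + ENNReal.ofReal (5 * (l.map Plate.W).sum) :=
            add_le_add h4 h2
        _ ≤ ENNReal.ofReal (5 * a.W) + ENNReal.ofReal (5 * (l.map Plate.W).sum) := by
            gcongr
            exact h5.lW
        _ = ENNReal.ofReal (5 * (a.W + (l.map Plate.W).sum)) := by
            rw [← ENNReal.ofReal_add (by linarith) (by linarith)]
            congr 1; ring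
  refine le_trans (h1 (tree m) (fun P hP => hP)).1 (ENNReal.ofReal_le_ofReal ?_)
  have h2 := tree_cost m
  have h3 : Real.exp (2 - 2 * (1/2) ^ m) ≤ Real.exp 2 := by
    apply Real.exp_le_exp.2
    have := half_pos' m
    linarith
  linarith

lemma XX_length : μH[1] XX < ⊤ :=
  limSet_finite_length _ _ _ tendsto_r ediam_N_le' _ ENNReal.ofReal_lt_top sum_ediam_le

lemma XX_hull {f : ℂ × ℂ → ℂ} (hf : Differentiable ℂ f) :
    ∃ x ∈ XX, ‖f (0, 0)‖ ≤ ‖f x‖ := by
  have hcore : ((0:ℂ), (0:ℂ)) ∈ P0.core := by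
    refine ⟨?_, ?_⟩
    · show |_| ≤ _ ∧ |_| ≤ _
      simp [emb, P0]
    · show ‖_‖ ≤ bb 0
      rw [bb_zero]
      simp [emb, P0]
  apply limSet_value _ _ (fun _ P _ => N_compact P) tree_nest (fun x => ‖f x‖)
    hf.continuous.norm
  intro m
  by_contra hcon
  push Not at hcon
  -- the stage is compact
  have hc := stageUnion_compact Plate.N tree m (fun P _ => N_compact P)
  rcases (stageUnion Plate.N tree m).eq_empty_or_nonempty with hE | hE
  · have := supp_mono hf m (‖f (0,0)‖ - 1) (fun P hP x hx => by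
      have h1 := (tree_LG m P hP).1.good
      have : x ∈ stageUnion Plate.N tree m := ⟨P, hP, supp_subset_N h1 hx⟩
      rw [hE] at this
      exact absurd this (Set.notMem_empty _)) _ hcore
    linarith
  · obtain ⟨x0, hx0, hmax⟩ := hc.exists_isMaxOn hE (hf.continuous.norm.continuousOn)
    have h1 := supp_mono hf m (‖f x0‖) (fun P hP x hx => by
      have h1 := (tree_LG m P hP).1.good
      exact hmax (show x ∈ stageUnion Plate.N tree m from ⟨P, hP, supp_subset_N h1 hx⟩)) _ hcore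
    have h2 := hcon x0 hx0
    linarith

lemma XX_zero : ((0:ℂ), (0:ℂ)) ∉ XX := by
  intro h
  obtain ⟨P, hP, hx⟩ := mem_iInter.1 h 0
  simp only [tree, List.mem_singleton] at hP
  subst hP
  obtain ⟨⟨k, t, h0, h1, h2⟩, _⟩ := hx
  change t ≤ (squareSegs (0:ℂ) (1/2) k).len at h1
  change ‖_ - (squareSegs (0:ℂ) (1/2) k).pt t 0‖ ≤ 1 / 10 at h2
  have hemb : (emb P0.sw ((0:ℂ), (0:ℂ))).1 = 0 := by simp [emb, P0]
  rw [hemb, zero_sub, norm_neg] at h2
  obtain ⟨_, _, e3⟩ := squareSegs_pt 0 (1/2) (by norm_num) k t h0 h1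
  rw [sub_zero] at e3
  rcases e3 with e | e
  · have := Complex.abs_re_le_norm ((squareSegs (0:ℂ) (1/2) k).pt t 0)
    rw [e] at this
    linarith
  · have := Complex.abs_im_le_norm ((squareSegs (0:ℂ) (1/2) k).pt t 0)
    rw [e] at this
    linarith

end Pool.Agent.H99.PC
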