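import Pool.Agent.H99.PC.App

/-!
[H99 PC ZR] rank of apparition.
PROOF. The set {m > 0 : p | F_m} is nonempty: p = 5: F_5 = 5; otherwise by app (p - 1 > 0 unless p = 2, and for p = 2
F_3 = 2). So zr p is its least element (Nat.sInf_mem), zr p > 0 and p | F_(zr p).
zr_spec: if zr p | m then F_(zr p) | F_m (Nat.fib_dvd). If p | F_m, then p | gcd(F_m, F_(zr p)) = F_(gcd(m, zr p))
(Nat.fib_gcd); gcd(m, zr p) > 0 is in the set, so zr p <= gcd(m, zr p), i.e. zr p | m.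
zr_dvd: app and zr_spec.
-/

namespace Pool.Agent.H99.PC

theorem zr_mem (p : ℕ) (hp : p.Prime) : 0 < zr p ∧ p ∣ Nat.fib (zr p) := by
  apply Nat.sInf_mem (s := {m : ℕ | 0 < m ∧ p ∣ Nat.fib m})
  by_cases h5 : p = 5
  · subst h5
    exact ⟨5, by norm_num, by decide⟩
  · rcases app p hp h5 with h | h
    · by_cases h2 : p = 2
      · subst h2
        exact ⟨3, by norm_num, by decide⟩
      · exact ⟨p - 1, by have := hp.two_le; omega, h⟩
    · exact ⟨p + 1, Nat.succ_pos p, h⟩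

theorem zr_pos (p : ℕ) (hp : p.Prime) : 0 < zr p := (zr_mem p hp).1

theorem zr_spec (p : ℕ) (hp : p.Prime) (m : ℕ) : zr p ∣ m ↔ p ∣ Nat.fib m := by
  obtain ⟨h1, h2⟩ := zr_mem p hp
  constructor
  · intro h
    exact h2.trans (Nat.fib_dvd _ _ h)
  · intro h
    rcases Nat.eq_zero_or_pos m with hm | hm
    · rw [hm]
      exact dvd_zero _
    · have h3 : p ∣ Nat.fib (Nat.gcd m (zr p)) := by
        rw [Nat.fib_gcd]
        exact Nat.dvd_gcd h h2
      have h4 : 0 < Nat.gcd m (zr p) := Nat.gcd_pos_of_pos_left _ hm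
      have h5 : zr p ≤ Nat.gcd m (zr p) :=
        Nat.sInf_le (s := {m : ℕ | 0 < m ∧ p ∣ Nat.fib m}) ⟨h4, h3⟩
      have h6 : Nat.gcd m (zr p) = zr p := le_antisymm (Nat.gcd_le_right _ h1) h5
      rw [← h6]
      exact Nat.gcd_dvd_left _ _

theorem zr_dvd (p : ℕ) (hp : p.Prime) (h5 : p ≠ 5) : zr p ∣ p - 1 ∨ zr p ∣ p + 1 := by
  rcases app p hp h5 with h | h
  · exact Or.inl ((zr_spec p hp _).2 h)
  · exact Or.inr ((zr_spec p hp _).2 h)

end Pool.Agent.H99.PC
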